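import Pool.Agent.W_fb73a4_h57.KDefs
import Pool.Agent.W_fb73a4_h51.GDefs

/-! TDefs ([T7], part F): the graph polynomial relative to a set `C` of vertices in the language of
simple graphs. -/

set_option autoImplicit false

namespace Pool.Agent.W_fb73a4_h57

open MvPolynomial Finset
open scoped Classical
open Pool.Agent.W_fb73a4_h20

/-- the linear factor of an edge (the sign does not matter) -/
noncomputable def lin {V : Type} (e : Sym2 V) : P3 V := X (Quot.out e).1 - X (Quot.out e).2

/-- the edges of `G` which are not inside `C` -/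
noncomputable def eds {V : Type} [Fintype V] (G : SimpleGraph V) (C : Finset V) : Finset (Sym2 V) :=
  univ.filter fun e => e ∈ G.edgeSet ∧ ∃ v ∈ e, v ∉ C

/-- product over a set of edges -/
noncomputable def LP {V : Type} (S : Finset (Sym2 V)) : P3 V := ∏ e ∈ S, lin e

/-- `M` times the polynomial of `G` relative to `C` (variables of `C` set to zero) lies in the
ideal of the cubes -/
def Zr {V : Type} [Fintype V] (M : P3 V) (G : SimpleGraph V) (C : Finset V) : Prop :=
  kill C (M * LP (eds G C)) ∈ I3 V

/-- the polynomial of `G` relative to `C` is not zero modulo the cubes -/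
def NZ {V : Type} [Fintype V] (G : SimpleGraph V) (C : Finset V) : Prop :=
  kill C (LP (eds G C)) ∉ I3 V

/-- the subgraph induced on `W` (as a graph on the same vertex set) -/
def indu {V : Type} (G : SimpleGraph V) (W : Finset V) : SimpleGraph V where
  Adj u v := G.Adj u v ∧ u ∈ W ∧ v ∈ W
  symm := ⟨fun _ _ h => ⟨h.1.symm, h.2.2, h.2.1⟩⟩
  loopless := ⟨fun v h => G.loopless.irrefl v h.1⟩

end Pool.Agent.W_fb73a4_h57
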