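import Pool.Agent.W_fb73a4_h57.TA
import Pool.Agent.W_fb73a4_h57.TDefs

/-! TC ([T7], part F): gluing, cut vertices, vertices of degree at most two, new edges and
identifications for `NZ G C` and `Zr M G C`. -/

set_option autoImplicit false

namespace Pool.Agent.W_fb73a4_h57

open MvPolynomial Finset
open scoped Classical
open Pool.Agent.W_fb73a4_h20 Pool.Agent.W_fb73a4_h51

variable {V : Type}

theorem out_mk (e : Sym2 V) : s((Quot.out e).1, (Quot.out e).2) = e := Quot.out_eq e

theorem out_fst_mem (e : Sym2 V) : (Quot.out e).1 ∈ e := by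
  have h := Sym2.mem_mk_left (Quot.out e).1 (Quot.out e).2
  rwa [out_mk e] at h

theorem out_snd_mem (e : Sym2 V) : (Quot.out e).2 ∈ e := by
  have h := Sym2.mem_mk_right (Quot.out e).1 (Quot.out e).2
  rwa [out_mk e] at h

theorem lin_mk (a b : V) : (lin s(a, b) : P3 V) = X a - X b ∨ lin s(a, b) = -(X a - X b : P3 V) := by
  have h := out_mk s(a, b)
  rw [Sym2.eq_iff] at h
  unfold lin
  rcases h with ⟨h1, h2⟩ | ⟨h1, h2⟩
  · left
    rw [h1, h2]
  · right
    rw [h1, h2]
    ring

theorem LP_eq_gp (S : Finset (Sym2 V)) : LP S = gp (S.val.map Quot.out) := by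
  unfold LP gp
  rw [Multiset.map_map]
  rfl

theorem LP_union (S T : Finset (Sym2 V)) (h : Disjoint S T) : LP (S ∪ T) = LP S * LP T := by
  unfold LP
  exact Finset.prod_union h

private theorem TC_rep (E : Multiset (V × V)) :
    ((E.map fun p => s(p.1, p.2)).map lin).prod = gp E ∨
      ((E.map fun p => s(p.1, p.2)).map lin).prod = - gp E := by
  induction E using Multiset.induction_on with
  | empty =>
    left
    rw [Multiset.map_zero, Multiset.map_zero, Multiset.prod_zero, gp_zero]
  | cons e E ih =>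
    rw [Multiset.map_cons, Multiset.map_cons, Multiset.prod_cons, gp_cons]
    rcases lin_mk e.1 e.2 with h | h <;> rcases ih with h' | h' <;> rw [h, h']
    · left; rfl
    · right; ring
    · right; ring
    · left; ring

/-- any representation of the edges by ordered pairs gives the same product up to sign -/
theorem LP_rep (S : Finset (Sym2 V)) (E : Multiset (V × V))
    (h : (E.map fun p => s(p.1, p.2)) = S.val) : LP S = gp E ∨ LP S = - gp E := by
  have h1 : LP S = ((E.map fun p => s(p.1, p.2)).map lin).prod := by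
    rw [h]
    rfl
  rw [h1]
  exact TC_rep E

theorem mem_neg_iff (p : P3 V) : -p ∈ I3 V ↔ p ∈ I3 V := neg_mem_iff

/-- sign does not matter -/
theorem kill_sign (C : Finset V) (M a b : P3 V) (h : a = b ∨ a = -b) :
    kill C (M * a) ∈ I3 V ↔ kill C (M * b) ∈ I3 V := by
  rcases h with h | h
  · rw [h]
  · rw [h, mul_neg, map_neg, mem_neg_iff]

variable [Fintype V]

theorem mem_eds (G : SimpleGraph V) (C : Finset V) (e : Sym2 V) :
    e ∈ eds G C ↔ e ∈ G.edgeSet ∧ ∃ v ∈ e, v ∉ C := by
  unfold eds
  rw [Finset.mem_filter]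
  exact ⟨fun h => h.2, fun h => ⟨Finset.mem_univ _, h⟩⟩

theorem mk_mem_eds (G : SimpleGraph V) (C : Finset V) (a b : V) :
    s(a, b) ∈ eds G C ↔ G.Adj a b ∧ (a ∉ C ∨ b ∉ C) := by
  rw [mem_eds, SimpleGraph.mem_edgeSet]
  refine and_congr_right fun _ => ?_
  constructor
  · rintro ⟨v, hv, hvC⟩
    rw [Sym2.mem_iff] at hv
    rcases hv with rfl | rfl
    · exact Or.inl hvC
    · exact Or.inr hvC
  · rintro (h | h)
    · exact ⟨a, Sym2.mem_mk_left _ _, h⟩
    · exact ⟨b, Sym2.mem_mk_right _ _, h⟩

theorem Zr_one (G : SimpleGraph V) (C : Finset V) : Zr 1 G C ↔ ¬ NZ G C := by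
  unfold Zr NZ
  rw [one_mul, not_not]

theorem NZ_mono {G H : SimpleGraph V} (C : Finset V) (h : H ≤ G) (hG : NZ G C) : NZ H C := by
  intro hH
  apply hG
  have hsub : eds H C ⊆ eds G C := by
    intro e he
    rw [mem_eds] at he ⊢
    exact ⟨SimpleGraph.edgeSet_mono h he.1, he.2⟩
  have h1 : LP (eds G C) = LP (eds H C) * LP (eds G C \ eds H C) := by
    rw [← LP_union _ _ Finset.disjoint_sdiff, Finset.union_sdiff_of_subset hsub]
  rw [h1, map_mul]
  exact Ideal.mul_mem_right _ _ hH

theorem NZ_of_empty (G : SimpleGraph V) (C : Finset V) (h : ∀ u v, G.Adj u v → u ∈ C ∧ v ∈ C) :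
    NZ G C := by
  intro h1
  have h2 : eds G C = ∅ := by
    rw [Finset.eq_empty_iff_forall_notMem]
    intro e he
    induction e using Sym2.ind with
    | _ a b =>
      rw [mk_mem_eds] at he
      have := h a b he.1
      tauto
  rw [h2] at h1
  unfold LP at h1
  rw [Finset.prod_empty, map_one] at h1
  exact one_not_mem h1

/-- GLUING: `U` the vertices strictly inside `K` -/
theorem NZ_glue (G : SimpleGraph V) (C K U : Finset V) (hCU : Disjoint C U) (hKU : Disjoint K U)
    (h : ∀ u v, G.Adj u v → u ∈ U → v ∈ U ∨ v ∈ K) (n1 : NZ (del G (U : Set V)) C)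
    (n2 : NZ (indu G (U ∪ K)) K) : NZ G C := by
  have hun : eds G C = eds (del G (U : Set V)) C ∪ eds (indu G (U ∪ K)) K := by
    ext e
    induction e using Sym2.ind with
    | _ a b =>
      rw [Finset.mem_union, mk_mem_eds, mk_mem_eds, mk_mem_eds]
      simp only [del, indu, Finset.mem_union, Finset.mem_coe]
      constructor
      · rintro ⟨h1, h2⟩
        by_cases ha : a ∈ U
        · right
          refine ⟨⟨h1, Or.inl ha, h a b h1 ha⟩, Or.inl fun hK => Finset.disjoint_left.1 hKU hK ha⟩
        · by_cases hb : b ∈ U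
          · right
            exact ⟨⟨h1, h b a h1.symm hb, Or.inl hb⟩, Or.inr fun hK =>
              Finset.disjoint_left.1 hKU hK hb⟩
          · left
            exact ⟨⟨h1, ha, hb⟩, h2⟩
      · rintro (⟨⟨h1, h2, h3⟩, h4⟩ | ⟨⟨h1, h2, h3⟩, h4⟩)
        · exact ⟨h1, h4⟩
        · refine ⟨h1, ?_⟩
          rcases h4 with h4 | h4
          · left
            exact fun hC => Finset.disjoint_left.1 hCU hC (h2.resolve_right h4)
          · right
            exact fun hC => Finset.disjoint_left.1 hCU hC (h3.resolve_right h4)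
  have hdis : Disjoint (eds (del G (U : Set V)) C) (eds (indu G (U ∪ K)) K) := by
    rw [Finset.disjoint_left]
    intro e
    induction e using Sym2.ind with
    | _ a b =>
      rw [mk_mem_eds, mk_mem_eds]
      simp only [del, indu, Finset.mem_union, Finset.mem_coe]
      tauto
  unfold NZ
  rw [hun, LP_union _ _ hdis, LP_eq_gp, LP_eq_gp, ← gp_add]
  refine glue C K U _ _ hCU hKU ?_ ?_ ?_ ?_
  · intro p hp
    rw [Multiset.mem_map] at hp
    obtain ⟨e, he, rfl⟩ := hp
    rw [Finset.mem_val, ← out_mk e, mk_mem_eds] at he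
    exact ⟨fun h' => he.1.2.1 (Finset.mem_coe.2 h'), fun h' => he.1.2.2 (Finset.mem_coe.2 h')⟩
  · intro p hp
    rw [Multiset.mem_map] at hp
    obtain ⟨e, he, rfl⟩ := hp
    rw [Finset.mem_val, ← out_mk e, mk_mem_eds] at he
    exact ⟨Finset.mem_union.1 he.1.2.1, Finset.mem_union.1 he.1.2.2⟩
  · rw [← LP_eq_gp]
    exact n1
  · rw [← LP_eq_gp]
    exact n2

/-- CUT VERTEX `w` -/
theorem NZ_cut (G : SimpleGraph V) (C R : Finset V) (w : V) (hw : w ∈ R)
    (hC : Disjoint C (R.erase w))
    (h : ∀ u v, G.Adj u v → (u ∈ R ∧ v ∈ R) ∨ (u ∉ R.erase w ∧ v ∉ R.erase w))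
    (n1 : NZ (del G ((R.erase w : Finset V) : Set V)) C) (n2 : NZ (indu G R) ∅) : NZ G C := by
  have hun : eds G C = eds (del G ((R.erase w : Finset V) : Set V)) C ∪ eds (indu G R) ∅ := by
    ext e
    induction e using Sym2.ind with
    | _ a b =>
      rw [Finset.mem_union, mk_mem_eds, mk_mem_eds, mk_mem_eds]
      simp only [del, indu, Finset.mem_coe, Finset.notMem_empty, not_false_eq_true, or_self,
        and_true]
      constructor
      · rintro ⟨h1, h2⟩
        by_cases h3 : a ∈ R ∧ b ∈ R
        · exact Or.inr ⟨h1, h3⟩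
        · rcases h a b h1 with h4 | h4
          · exact absurd h4 h3
          · exact Or.inl ⟨⟨h1, h4⟩, h2⟩
      · rintro (⟨⟨h1, _⟩, h2⟩ | ⟨h1, h2, h3⟩)
        · exact ⟨h1, h2⟩
        · refine ⟨h1, ?_⟩
          by_cases h4 : a = w
          · right
            intro hbC
            refine Finset.disjoint_left.1 hC hbC (Finset.mem_erase.2 ⟨fun h5 => ?_, h3⟩)
            exact G.loopless.irrefl a (by rw [h4, ← h5] at h1 ⊢; rw [h5] at h1 ⊢; exact h1)
          · left
            intro haC
            exact Finset.disjoint_left.1 hC haC (Finset.mem_erase.2 ⟨h4, h2⟩)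
  have hdis : Disjoint (eds (del G ((R.erase w : Finset V) : Set V)) C) (eds (indu G R) ∅) := by
    rw [Finset.disjoint_left]
    intro e
    induction e using Sym2.ind with
    | _ a b =>
      rw [mk_mem_eds, mk_mem_eds]
      simp only [del, indu, Finset.mem_coe, Finset.mem_erase]
      rintro ⟨⟨h1, h2, h3⟩, _⟩ ⟨⟨_, h4, h5⟩, _⟩
      have ha : a = w := by
        by_contra h6
        exact h2 ⟨h6, h4⟩
      have hb : b = w := by
        by_contra h6
        exact h3 ⟨h6, h5⟩
      rw [ha, hb] at h1
      exact G.loopless.irrefl w h1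
  unfold NZ
  rw [hun, LP_union _ _ hdis, LP_eq_gp, LP_eq_gp, ← gp_add]
  refine cut_vertex C R w hw _ _ ?_ ?_ hC ?_ ?_
  · intro p hp
    rw [Multiset.mem_map] at hp
    obtain ⟨e, he, rfl⟩ := hp
    rw [Finset.mem_val, ← out_mk e, mk_mem_eds] at he
    exact he.1.2
  · intro p hp
    rw [Multiset.mem_map] at hp
    obtain ⟨e, he, rfl⟩ := hp
    rw [Finset.mem_val, ← out_mk e, mk_mem_eds] at he
    exact ⟨fun h' => he.1.2.1 (Finset.mem_coe.2 h'), fun h' => he.1.2.2 (Finset.mem_coe.2 h')⟩
  · rw [← LP_eq_gp]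
    exact n1
  · rw [← LP_eq_gp]
    unfold NZ at n2
    rw [kill_empty] at n2
    exact n2

/-- SPLITTING along `C`: no edge between `A` and the complement of `A ∪ C` -/
theorem NZ_split (G : SimpleGraph V) (C A : Finset V)
    (h : ∀ u v, G.Adj u v → u ∈ A → v ∈ A ∨ v ∈ C)
    (n1 : NZ (indu G (A ∪ C)) C) (n2 : NZ (del G ((A \ C : Finset V) : Set V)) C) : NZ G C := by
  have hun : eds G C = eds (indu G (A ∪ C)) C ∪
      (eds (del G ((A \ C : Finset V) : Set V)) C \ eds (indu G (A ∪ C)) C) := by
    rw [Finset.union_sdiff_self_eq_union]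
    ext e
    induction e using Sym2.ind with
    | _ a b =>
      rw [Finset.mem_union, mk_mem_eds, mk_mem_eds, mk_mem_eds]
      simp only [del, indu, Finset.mem_coe, Finset.mem_union, Finset.mem_sdiff]
      constructor
      · rintro ⟨h1, h2⟩
        by_cases ha : a ∈ A ∧ a ∉ C
        · exact Or.inl ⟨⟨h1, Or.inl ha.1, h a b h1 ha.1⟩, h2⟩
        · by_cases hb : b ∈ A ∧ b ∉ C
          · exact Or.inl ⟨⟨h1, h b a h1.symm hb.1, Or.inl hb.1⟩, h2⟩
          · exact Or.inr ⟨⟨h1, ha, hb⟩, h2⟩
      · rintro (⟨⟨h1, _⟩, h2⟩ | ⟨⟨h1, _⟩, h2⟩)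
        · exact ⟨h1, h2⟩
        · exact ⟨h1, h2⟩
  unfold NZ
  rw [hun, LP_union _ _ Finset.disjoint_sdiff, LP_eq_gp, LP_eq_gp, ← gp_add]
  refine split_C C A _ _ ?_ ?_ ?_ ?_
  · intro p hp
    rw [Multiset.mem_map] at hp
    obtain ⟨e, he, rfl⟩ := hp
    rw [Finset.mem_val, ← out_mk e, mk_mem_eds] at he
    exact ⟨Finset.mem_union.1 he.1.2.1, Finset.mem_union.1 he.1.2.2⟩
  · intro p hp
    rw [Multiset.mem_map] at hp
    obtain ⟨e, he, rfl⟩ := hp
    rw [Finset.mem_val, Finset.mem_sdiff] at he
    rw [← out_mk e, mk_mem_eds, mk_mem_eds] at he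
    have key : ∀ v : V, v ∉ ((A \ C : Finset V) : Set V) → v ∉ A ∨ v ∈ C := by
      intro v hv
      rw [Finset.mem_coe, Finset.mem_sdiff] at hv
      by_cases hvA : v ∈ A
      · exact Or.inr (by_contra fun h => hv ⟨hvA, h⟩)
      · exact Or.inl hvA
    exact ⟨key _ he.1.1.2.1, key _ he.1.1.2.2⟩
  · rw [← LP_eq_gp]
    exact n1
  · rw [← LP_eq_gp]
    intro h1
    apply n2
    have h2 : LP (eds (del G ((A \ C : Finset V) : Set V)) C) =
        LP (eds (del G ((A \ C : Finset V) : Set V)) C \ eds (indu G (A ∪ C)) C) *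
          LP (eds (del G ((A \ C : Finset V) : Set V)) C ∩ eds (indu G (A ∪ C)) C) := by
      rw [← LP_union, Finset.sdiff_union_inter]
      rw [Finset.disjoint_left]
      intro e he he'
      exact (Finset.mem_sdiff.1 he).2 (Finset.mem_inter.1 he').2
    rw [h2, map_mul]
    exact Ideal.mul_mem_right _ _ h1

/-- SMALL DEGREE -/
theorem NZ_deg2 (G : SimpleGraph V) (C : Finset V) (x : V) (hx : x ∉ C) (hd : dgr G x ≤ 2)
    (n1 : NZ (del G {x}) C) : NZ G C := by
  set Nx : Finset V := univ.filter fun u => G.Adj x u with hNx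
  have hcard : Nx.card ≤ 2 := by
    have h1 : (Nx : Set V) = G.neighborSet x := by
      ext u
      rw [hNx, Finset.coe_filter]
      simp [SimpleGraph.mem_neighborSet]
    have h2 : Nx.card = (G.neighborSet x).ncard := by rw [← h1, Set.ncard_coe_finset]
    rw [h2]
    exact hd
  have hun : eds G C = Nx.image (fun u => s(x, u)) ∪ eds (del G {x}) C := by
    ext e
    induction e using Sym2.ind with
    | _ a b =>
      rw [Finset.mem_union, mk_mem_eds, mk_mem_eds, Finset.mem_image]
      simp only [del, Set.mem_singleton_iff, hNx, Finset.mem_filter, Finset.mem_univ, true_and]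
      constructor
      · rintro ⟨h1, h2⟩
        by_cases ha : a = x
        · subst ha
          exact Or.inl ⟨b, h1, rfl⟩
        · by_cases hb : b = x
          · subst hb
            exact Or.inl ⟨a, h1.symm, Sym2.eq_swap⟩
          · exact Or.inr ⟨⟨h1, ha, hb⟩, h2⟩
      · rintro (⟨u, h1, h2⟩ | ⟨⟨h1, _⟩, h2⟩)
        · rw [Sym2.eq_iff] at h2
          rcases h2 with ⟨rfl, rfl⟩ | ⟨rfl, rfl⟩
          · exact ⟨h1, Or.inl hx⟩
          · exact ⟨h1.symm, Or.inr hx⟩
        · exact ⟨h1, h2⟩
  have hdis : Disjoint (Nx.image fun u => s(x, u)) (eds (del G {x}) C) := by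
    rw [Finset.disjoint_left]
    intro e he he'
    rw [Finset.mem_image] at he
    obtain ⟨u, _, rfl⟩ := he
    rw [mk_mem_eds] at he'
    exact he'.1.2.1 rfl
  have hst : LP (Nx.image fun u => s(x, u)) = st x Nx.val ∨
      LP (Nx.image fun u => s(x, u)) = - st x Nx.val := by
    have h1 := LP_rep (Nx.image fun u => s(x, u)) (Nx.val.map fun u => (x, u)) (by
      rw [Multiset.map_map, Finset.image_val_of_injOn]
      · rfl
      · intro a _ b _ hab
        have hab' : s(x, a) = s(x, b) := hab
        rw [Sym2.eq_iff] at hab'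
        rcases hab' with ⟨_, h⟩ | ⟨h, h'⟩
        · exact h
        · rw [h', h])
    have h2 : gp (Nx.val.map fun u => (x, u)) = st x Nx.val := by
      unfold gp st
      rw [Multiset.map_map]
      rfl
    rw [h2] at h1
    exact h1
  intro h
  apply n1
  rw [hun, LP_union _ _ hdis, mul_comm] at h
  rw [kill_sign C _ _ _ hst, mul_comm, LP_eq_gp] at h
  rw [LP_eq_gp]
  refine low_degree C x hx Nx.val ?_ hcard _ ?_ h
  · rw [Finset.mem_val, hNx, Finset.mem_filter]
    exact fun h1 => G.loopless.irrefl x h1.2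
  · intro p hp
    rw [Multiset.mem_map] at hp
    obtain ⟨e, he, rfl⟩ := hp
    rw [Finset.mem_val, ← out_mk e, mk_mem_eds] at he
    exact he.1.2

/-- NEW EDGE -/
theorem Zr_addE (H : SimpleGraph V) (C : Finset V) (M : P3 V) (a b : V) (hab : a ≠ b)
    (hn : ¬ H.Adj a b) (hC : a ∉ C ∨ b ∉ C) (h : Zr ((X a - X b) * M) H C) :
    Zr M (addE H a b) C := by
  have hun : eds (addE H a b) C = insert s(a, b) (eds H C) := by
    ext e
    induction e using Sym2.ind with
    | _ u v =>
      rw [Finset.mem_insert, mk_mem_eds, mk_mem_eds, Sym2.eq_iff]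
      simp only [addE]
      constructor
      · rintro ⟨h1 | ⟨_, h1⟩, h2⟩
        · exact Or.inr ⟨h1, h2⟩
        · exact Or.inl h1
      · rintro (h1 | ⟨h1, h2⟩)
        · refine ⟨Or.inr ⟨hab, h1⟩, ?_⟩
          rcases h1 with ⟨rfl, rfl⟩ | ⟨rfl, rfl⟩
          · exact hC
          · exact hC.symm
        · exact ⟨Or.inl h1, h2⟩
  have hnm : s(a, b) ∉ eds H C := by
    rw [mk_mem_eds]
    exact fun h1 => hn h1.1
  unfold Zr at h ⊢
  have h1 : LP (insert s(a, b) (eds H C)) = lin s(a, b) * LP (eds H C) := by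
    unfold LP
    rw [Finset.prod_insert hnm]
  rw [hun, h1]
  have h2 : M * (lin s(a, b) * LP (eds H C)) = (M * LP (eds H C)) * lin s(a, b) := by ring
  rw [h2, kill_sign C _ _ _ (lin_mk a b)]
  convert h using 2
  ring

omit [Fintype V] in
theorem mv_eq_update (p q : V) : mv p q = Function.update id q p := by
  funext v
  unfold mv
  by_cases h : v = q
  · rw [if_pos h, h, Function.update_self]
  · rw [if_neg h, Function.update_of_ne h, id]

omit [Fintype V] in
theorem rename_lin (f : V → V) (e : Sym2 V) :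
    rename f (lin e : P3 V) = lin (Sym2.map f e) ∨ rename f (lin e : P3 V) = - lin (Sym2.map f e) := by
  have h1 : Sym2.map f e = s(f (Quot.out e).1, f (Quot.out e).2) := by
    conv_lhs => rw [← out_mk e]
    rfl
  rw [h1]
  have h2 : rename f (lin e : P3 V) = X (f (Quot.out e).1) - X (f (Quot.out e).2) := by
    unfold lin
    rw [map_sub, rename_X, rename_X]
  rw [h2]
  rcases lin_mk (f (Quot.out e).1) (f (Quot.out e).2) with h | h
  · left
    rw [h]
  · right
    rw [h, neg_neg]

omit [Fintype V] in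
theorem rename_LP (f : V → V) (S : Finset (Sym2 V)) (hf : Set.InjOn (Sym2.map f) S) :
    rename f (LP S : P3 V) = LP (S.image (Sym2.map f)) ∨
      rename f (LP S : P3 V) = - LP (S.image (Sym2.map f)) := by
  induction S using Finset.induction_on with
  | empty =>
    left
    simp [LP]
  | insert e S he ih =>
    have hf' : Set.InjOn (Sym2.map f) S := hf.mono (Finset.coe_subset.2 (Finset.subset_insert e S))
    have hne : Sym2.map f e ∉ S.image (Sym2.map f) := by
      intro h
      rw [Finset.mem_image] at h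
      obtain ⟨e', he', h'⟩ := h
      have := hf (Finset.mem_coe.2 (Finset.mem_insert_of_mem he'))
        (Finset.mem_coe.2 (Finset.mem_insert_self e S)) h'
      rw [this] at he'
      exact he he'
    have h1 : LP (insert e S) = lin e * LP S := by
      unfold LP
      rw [Finset.prod_insert he]
    have h2 : LP ((insert e S).image (Sym2.map f)) =
        lin (Sym2.map f e) * LP (S.image (Sym2.map f)) := by
      unfold LP
      rw [Finset.image_insert, Finset.prod_insert hne]
    rw [h1, h2, map_mul]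
    rcases rename_lin f e with h3 | h3 <;> rcases ih hf' with h4 | h4 <;> rw [h3, h4]
    · left; rfl
    · right; ring
    · right; ring
    · left; ring

/-- IDENTIFICATION of `q` into `p` -/
theorem Zr_ident (H : SimpleGraph V) (C : Finset V) (M : P3 V) (p q : V) (hpq : p ≠ q)
    (hn : ¬ H.Adj p q) (hc : ∀ u, H.Adj p u → ¬ H.Adj q u) (hq : q ∉ C)
    (hpC : p ∈ C → ∀ u ∈ C, ¬ H.Adj q u) (h : Zr ((X p - X q) ^ 2 * M) H C) :
    Zr (rename (mv p q) M) (ident H p q) C := by
  have key : ∀ a c, mv p q a = mv p q c → a = c ∨ (a = p ∧ c = q) ∨ (a = q ∧ c = p) := by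
    intro a c h
    unfold mv at h
    by_cases ha : a = q <;> by_cases hc' : c = q
    · exact Or.inl (ha.trans hc'.symm)
    · rw [if_pos ha, if_neg hc'] at h
      exact Or.inr (Or.inr ⟨ha, h.symm⟩)
    · rw [if_neg ha, if_pos hc'] at h
      exact Or.inr (Or.inl ⟨h, hc'⟩)
    · rw [if_neg ha, if_neg hc'] at h
      exact Or.inl h
  have K2 : ∀ a b c d, H.Adj a b → H.Adj c d → mv p q a = mv p q c → mv p q b = mv p q d →
      a = c ∧ b = d := by
    intro a b c d hab hcd h1 h2
    rcases key a c h1 with h3 | ⟨h3, h3'⟩ | ⟨h3, h3'⟩ <;>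
      rcases key b d h2 with h4 | ⟨h4, h4'⟩ | ⟨h4, h4'⟩
    · exact ⟨h3, h4⟩
    · rw [h4] at hab
      rw [← h3, h4'] at hcd
      exact absurd hcd.symm (hc a hab.symm)
    · rw [h4] at hab
      rw [← h3, h4'] at hcd
      exact absurd hab.symm (hc a hcd.symm)
    · rw [h3] at hab
      rw [h3', ← h4] at hcd
      exact absurd hcd (hc b hab)
    · rw [h3, h4] at hab
      exact absurd hab (H.loopless.irrefl p)
    · rw [h3, h4] at hab
      exact absurd hab hn
    · rw [h3] at hab
      rw [h3', ← h4] at hcd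
      exact absurd hab (hc b hcd)
    · rw [h3, h4] at hab
      exact absurd hab.symm hn
    · rw [h3, h4] at hab
      exact absurd hab (H.loopless.irrefl q)
  have hinj : Set.InjOn (Sym2.map (mv p q)) (eds H C) := by
    intro e he e' he' hee
    induction e using Sym2.ind with
    | _ a b =>
      induction e' using Sym2.ind with
      | _ c d =>
        rw [Finset.mem_coe, mk_mem_eds] at he he'
        rw [Sym2.map_mk, Sym2.map_mk, Sym2.eq_iff] at hee
        rw [Sym2.eq_iff]
        rcases hee with ⟨h3, h4⟩ | ⟨h3, h4⟩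
        · exact Or.inl (K2 a b c d he.1 he'.1 h3 h4)
        · exact Or.inr (K2 a b d c he.1 he'.1.symm h3 h4)
  have himg : (eds H C).image (Sym2.map (mv p q)) = eds (ident H p q) C := by
    ext e
    induction e using Sym2.ind with
    | _ u v =>
      rw [Finset.mem_image, mk_mem_eds]
      constructor
      · rintro ⟨e', he', hee⟩
        induction e' using Sym2.ind with
        | _ a b =>
          rw [mk_mem_eds] at he'
          obtain ⟨hab, hC⟩ := he'
          have key : ∀ a b, H.Adj a b → (a ∉ C ∨ b ∉ C) →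
              (ident H p q).Adj (mv p q a) (mv p q b) ∧ (mv p q a ∉ C ∨ mv p q b ∉ C) := by
            intro a b hab hC
            have hne := hab.ne
            by_cases ha : a = q
            · have hb : b ≠ q := fun hb => hne (ha.trans hb.symm)
              have hbp : b ≠ p := by
                intro hb'
                rw [ha, hb'] at hab
                exact hn hab.symm
              unfold mv
              rw [if_pos ha, if_neg hb]
              rw [ha] at hab
              refine ⟨⟨hbp.symm, hpq, hb, Or.inr (Or.inl ⟨rfl, hab⟩)⟩, ?_⟩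
              by_cases hpC' : p ∈ C
              · exact Or.inr fun hbC => hpC hpC' b hbC hab
              · exact Or.inl hpC'
            · by_cases hb : b = q
              · have hap : a ≠ p := by
                  intro ha'
                  rw [hb, ha'] at hab
                  exact hn hab
                unfold mv
                rw [if_neg ha, if_pos hb]
                rw [hb] at hab
                refine ⟨⟨hap, ha, hpq, Or.inr (Or.inr ⟨rfl, hab⟩)⟩, ?_⟩
                by_cases hpC' : p ∈ C
                · exact Or.inl fun haC => hpC hpC' a haC hab.symm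
                · exact Or.inr hpC'
              · unfold mv
                rw [if_neg ha, if_neg hb]
                exact ⟨⟨hne, ha, hb, Or.inl hab⟩, hC⟩
          rw [Sym2.map_mk, Sym2.eq_iff] at hee
          obtain ⟨k1, k2⟩ := key a b hab hC
          rcases hee with ⟨h3, h4⟩ | ⟨h3, h4⟩
          · rw [← h3, ← h4]
            exact ⟨k1, k2⟩
          · rw [← h3, ← h4]
            exact ⟨k1.symm, k2.symm⟩
      · rintro ⟨⟨h1, h2, h3, h4⟩, h5⟩
        rcases h4 with h4 | ⟨h4, h6⟩ | ⟨h4, h6⟩
        · refine ⟨s(u, v), ?_, ?_⟩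
          · rw [mk_mem_eds]
            exact ⟨h4, h5⟩
          · rw [Sym2.map_mk]
            unfold mv
            simp only [if_neg h2, if_neg h3]
        · refine ⟨s(q, v), ?_, ?_⟩
          · rw [mk_mem_eds]
            exact ⟨h6, Or.inl hq⟩
          · rw [Sym2.map_mk]
            unfold mv
            simp only [if_true, if_neg h3, h4]
        · refine ⟨s(u, q), ?_, ?_⟩
          · rw [mk_mem_eds]
            exact ⟨h6, Or.inr hq⟩
          · rw [Sym2.map_mk]
            unfold mv
            simp only [if_true, if_neg h2, h4]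
  unfold Zr at h ⊢
  have h1 : kill C ((X q - X p : P3 V) ^ 2) * kill C (M * LP (eds H C)) ∈ I3 V := by
    rw [← map_mul]
    convert h using 2
    ring
  have h2 := merge_mem C q p hpq.symm hq _ h1
  rw [← mv_eq_update, map_mul] at h2
  rw [kill_sign C _ _ _ (rename_LP (mv p q) _ hinj), himg] at h2
  exact h2

end Pool.Agent.W_fb73a4_h57
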