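import Pool.Agent.W_fb73a4_h57.TB
import Pool.Agent.W_fb73a4_h57.TC

/-! TE ([T7], part F): the algebra of the cluster theorem: deletion of `D`, the certificate, and the
list of operations (new edges and merges) as a multiplier. -/

set_option autoImplicit false

namespace Pool.Agent.W_fb73a4_h57

open MvPolynomial Finset
open scoped Classical
open Pool.Agent.W_fb73a4_h20 Pool.Agent.W_fb73a4_h51

variable {V : Type}

/-- multiplier of a list of operations `(isMerge, p, q)`: new edge `φ p, φ q`, or identification of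
`φ q` into `φ p` -/
noncomputable def mops (φ : ℕ → V) : List (Bool × ℕ × ℕ) → P3 V
  | [] => 1
  | t :: l => (bif t.1 then (X (φ t.2.1) - X (φ t.2.2)) ^ 2 else X (φ t.2.1) - X (φ t.2.2)) *
      mops φ l

/-- new edges first, then merges -/
def opl (nw mg : List (ℕ × ℕ)) : List (Bool × ℕ × ℕ) :=
  (nw.map fun e => (false, e.1, e.2)) ++ mg.map fun e => (true, e.1, e.2)

theorem rename_mops (f : V → V) (φ : ℕ → V) (l : List (Bool × ℕ × ℕ)) :
    rename f (mops φ l) = mops (fun i => f (φ i)) l := by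
  induction l with
  | nil => simp [mops]
  | cons t l ih =>
    rw [mops, mops, map_mul, ih]
    congr 1
    cases t.1
    · simp [rename_X]
    · simp [rename_X]

/-- product of the differences `X (φ a) - X (φ b)` -/
noncomputable def pX (φ : ℕ → V) (E : List (ℕ × ℕ)) : P3 V :=
  (E.map fun e => (X (φ e.1) - X (φ e.2) : P3 V)).prod

theorem mops_opl (φ : ℕ → V) (nw mg : List (ℕ × ℕ)) :
    mops φ (opl nw mg) = pX φ mg ^ 2 * pX φ nw := by
  unfold opl
  induction nw with
  | nil =>
    rw [List.map_nil, List.nil_append]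
    have h0 : pX φ [] = 1 := by simp [pX]
    rw [h0, mul_one]
    induction mg with
    | nil => simp [mops, pX]
    | cons t l ih =>
      have h1 : pX φ (t :: l) = (X (φ t.1) - X (φ t.2)) * pX φ l := by simp [pX]
      rw [List.map_cons, mops, ih, h1, cond_true]
      ring
  | cons t l ih =>
    have h1 : pX φ (t :: l) = (X (φ t.1) - X (φ t.2)) * pX φ l := by simp [pX]
    rw [List.map_cons, List.cons_append, mops, ih, h1, cond_false]
    ring

theorem ltL_mem {N : ℕ} {l : List (ℕ × ℕ)} (h : ltL N l = true) {e : ℕ × ℕ} (he : e ∈ l) :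
    e.1 < N ∧ e.2 < N := by
  unfold ltL at h
  rw [List.all_eq_true] at h
  have h1 := h e he
  rw [Bool.and_eq_true] at h1
  exact ⟨Nat.le_of_ble_eq_true h1.1, Nat.le_of_ble_eq_true h1.2⟩

theorem prodE_eq (C : Finset V) (φ : ℕ → V) (N : ℕ) (E : List (ℕ × ℕ)) (h : ltL N E = true) :
    prodE (fun j => if j < N then kill C (X (φ j) : P3 V) else 0) E = kill C (pX φ E) := by
  induction E with
  | nil => simp [prodE, pX]
  | cons e E ih =>
    have hE : ltL N E = true := by
      unfold ltL at h ⊢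
      rw [List.all_cons, Bool.and_eq_true] at h
      exact h.2
    have he := ltL_mem h List.mem_cons_self
    have h1 : pX φ (e :: E) = (X (φ e.1) - X (φ e.2)) * pX φ E := by simp [pX]
    rw [prodE_cons, ih hE, h1, map_mul, map_sub, if_pos he.1, if_pos he.2]

variable [Fintype V]

/-- CLUSTER ALGEBRA. `φ 0, ..., φ (nD - 1)` are the deleted vertices, outside `C`, different from all
other `φ j`, `j < N`; `ed` lists every edge of `G` at a deleted vertex exactly once. -/
theorem cluster_alg (G : SimpleGraph V) (C : Finset V) (φ : ℕ → V) (N nD : ℕ) (hN : nD ≤ N)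
    (ed mg nw : List (ℕ × ℕ)) (c : ACert) (hc : acheck N nD ed [] mg nw c = true)
    (hC : ∀ i < nD, φ i ∉ C) (hinj : ∀ i < nD, ∀ j < N, j ≠ i → φ j ≠ φ i)
    (hnd : (ed.map fun e => s(φ e.1, φ e.2)).Nodup)
    (hmem : ∀ e : Sym2 V, e ∈ ed.map (fun e => s(φ e.1, φ e.2)) ↔
      e ∈ G.edgeSet ∧ ∃ i < nD, φ i ∈ e) (h0 : ¬ NZ G C) :
    Zr (mops φ (opl nw mg)) (del G {v | ∃ i < nD, φ i = v}) C := by
  have hlt : ltL N ed = true ∧ ltL N mg = true ∧ ltL N nw = true := by
    unfold acheck at hc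
    simp only [Bool.and_eq_true] at hc
    exact ⟨hc.1.1.1.1.1.1, hc.1.1.1.1.2, hc.1.1.1.2⟩
  set D : Set V := {v | ∃ i < nD, φ i = v} with hD
  set ED : Finset (Sym2 V) := (ed.map fun e => s(φ e.1, φ e.2)).toFinset with hED
  have hmemED : ∀ e, e ∈ ED ↔ e ∈ G.edgeSet ∧ ∃ i < nD, φ i ∈ e := by
    intro e
    rw [hED, List.mem_toFinset]
    exact hmem e
  have hun : eds G C = ED ∪ eds (del G D) C := by
    ext e
    rw [Finset.mem_union, mem_eds, mem_eds, hmemED]
    induction e using Sym2.ind with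
    | _ a b =>
      rw [SimpleGraph.mem_edgeSet, SimpleGraph.mem_edgeSet]
      simp only [del]
      constructor
      · rintro ⟨h1, h2⟩
        by_cases h3 : ∃ i < nD, φ i ∈ s(a, b)
        · exact Or.inl ⟨h1, h3⟩
        · refine Or.inr ⟨⟨h1, ?_, ?_⟩, h2⟩
          · rintro ⟨i, hi, hi'⟩
            exact h3 ⟨i, hi, by rw [hi']; exact Sym2.mem_mk_left _ _⟩
          · rintro ⟨i, hi, hi'⟩
            exact h3 ⟨i, hi, by rw [hi']; exact Sym2.mem_mk_right _ _⟩
      · rintro (⟨h1, i, hi, h2⟩ | ⟨⟨h1, _⟩, h2⟩)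
        · exact ⟨h1, φ i, h2, hC i hi⟩
        · exact ⟨h1, h2⟩
  have hdis : Disjoint ED (eds (del G D) C) := by
    rw [Finset.disjoint_left]
    intro e he he'
    rw [hmemED] at he
    obtain ⟨_, i, hi, hi'⟩ := he
    induction e using Sym2.ind with
    | _ a b =>
      rw [mk_mem_eds] at he'
      rw [Sym2.mem_iff] at hi'
      rcases hi' with h | h
      · exact he'.1.2.1 ⟨i, hi, h⟩
      · exact he'.1.2.2 ⟨i, hi, h⟩
  have hrep : LP ED = pX φ ed ∨ LP ED = - pX φ ed := by
    have h1 := LP_rep ED ((ed : Multiset (ℕ × ℕ)).map fun e => (φ e.1, φ e.2)) (by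
      rw [hED, List.toFinset_val, hnd.dedup, Multiset.map_coe, Multiset.map_coe, List.map_map]
      rfl)
    have h2 : gp ((ed : Multiset (ℕ × ℕ)).map fun e => (φ e.1, φ e.2)) = pX φ ed := by
      unfold gp pX
      rw [Multiset.map_map, Multiset.map_coe, Multiset.prod_coe]
      rfl
    rw [h2] at h1
    exact h1
  set B := kill C (LP (eds (del G D) C)) with hB
  set y : ℕ → P3 V := fun j => if j < N then kill C (X (φ j) : P3 V) else 0 with hy
  have h1 : kill C (pX φ ed) * B ∈ I3 V := by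
    unfold NZ at h0
    rw [not_not, hun, LP_union _ _ hdis, mul_comm, kill_sign C _ _ _ hrep, map_mul] at h0
    rw [hB, mul_comm]
    exact h0
  have hydef : ∀ j, y j = if j < N then kill C (X (φ j) : P3 V) else 0 := fun j => rfl
  have hcub : ∀ i, y i ^ 3 ∈ I3 V := by
    intro i
    rw [hydef]
    split_ifs
    · rw [← map_pow]
      exact kill_mem_I3 C (X_cube_mem _)
    · rw [zero_pow (by norm_num)]
      exact Ideal.zero_mem _
  have hord : ∀ i < nD, i < N → y i = X (φ i) := by
    intro i hi hiN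
    rw [hydef, if_pos hiN, kill_X, if_neg (hC i hi)]
  have h2 : prodE y mg ^ 2 * prodE y nw * B ∈ I3 V := by
    refine acheck_sound N nD ed [] mg nw c hc φ y B hcub (fun i hi => hord i hi (by omega))
      (fun i hi j hj => ?_) (fun i hi => ?_) (fun e he => ?_) ?_
    · rw [hydef]
      split_ifs with hjN
      · rw [kill_X]
        split_ifs
        · exact Subalgebra.zero_mem _
        · exact X_mem_supported.2 (hinj i hi j hjN hj)
      · exact Subalgebra.zero_mem _
    · rw [hB, LP_eq_gp]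
      refine kill_gp_supported C _ _ fun p hp => ?_
      rw [Multiset.mem_map] at hp
      obtain ⟨e, he, rfl⟩ := hp
      rw [Finset.mem_val, ← out_mk e, mk_mem_eds] at he
      refine ⟨Or.inl fun h => ?_, Or.inl fun h => ?_⟩
      · exact he.1.2.1 ⟨i, hi, (Set.mem_singleton_iff.1 h).symm⟩
      · exact he.1.2.2 ⟨i, hi, (Set.mem_singleton_iff.1 h).symm⟩
    · exact absurd he (List.not_mem_nil)
    · rw [hy, prodE_eq C φ N ed hlt.1]
      exact h1
  unfold Zr
  rw [map_mul, mops_opl, map_mul, map_pow, ← prodE_eq C φ N mg hlt.2.1, ← prodE_eq C φ N nw hlt.2.2]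
  exact h2

/-- one operation: new edge -/
theorem Zr_op_edge (H : SimpleGraph V) (C : Finset V) (φ : ℕ → V) (a b : ℕ)
    (l : List (Bool × ℕ × ℕ)) (hab : φ a ≠ φ b) (hn : ¬ H.Adj (φ a) (φ b))
    (hC : φ a ∉ C ∨ φ b ∉ C) (h : Zr (mops φ ((false, a, b) :: l)) H C) :
    Zr (mops φ l) (addE H (φ a) (φ b)) C :=
  Zr_addE H C _ _ _ hab hn hC h

/-- one operation: identification of `φ q` into `φ p` -/
theorem Zr_op_merge (H : SimpleGraph V) (C : Finset V) (φ : ℕ → V) (p q : ℕ)
    (l : List (Bool × ℕ × ℕ)) (hpq : φ p ≠ φ q) (hn : ¬ H.Adj (φ p) (φ q))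
    (hc : ∀ u, H.Adj (φ p) u → ¬ H.Adj (φ q) u) (hq : φ q ∉ C)
    (hpC : φ p ∈ C → ∀ u ∈ C, ¬ H.Adj (φ q) u) (h : Zr (mops φ ((true, p, q) :: l)) H C) :
    Zr (mops (fun i => mv (φ p) (φ q) (φ i)) l) (ident H (φ p) (φ q)) C := by
  have h1 := Zr_ident H C _ (φ p) (φ q) hpq hn hc hq hpC h
  rw [rename_mops] at h1
  exact h1

end Pool.Agent.W_fb73a4_h57
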