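import Pool.Agent.W_fb73a4_h57.KV

/-! KX: from the theorem modulo 3 to list colourings of graphs. -/

set_option autoImplicit false

namespace Pool.Agent.W_fb73a4_h57

open MvPolynomial

variable {V : Type}

/-- the graph polynomial with integer coefficients -/
noncomputable def gpz (E : Multiset (V × V)) : MvPolynomial V ℤ :=
  (E.map fun e => (X e.1 - X e.2 : MvPolynomial V ℤ)).prod

/-- `map (Int.castRingHom (ZMod 3)) (gpz E) = gp E`; with `mem_I3_iff` some coefficient with
exponents `≤ 2` is not zero modulo 3 (`ZMod.intCast_zmod_eq_zero_iff_dvd` or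
`ZMod.intCast_eq_zero_iff_dvd` style lemma). -/
theorem exists_coeff (E : Multiset (V × V)) (h : gp E ∉ I3 V) :
    ∃ d : V →₀ ℕ, (∀ v, d v ≤ 2) ∧ ¬ (3 : ℤ) ∣ coeff d (gpz E) := by
  by_contra hcon
  push Not at hcon
  refine h ((mem_I3_iff _).2 fun d hd => ?_)
  have h1 : gp E = MvPolynomial.map (Int.castRingHom (ZMod 3)) (gpz E) := by
    rw [gp, gpz, map_multiset_prod, Multiset.map_map]
    refine congrArg _ (Multiset.map_congr rfl fun e _ => ?_)
    simp
  rw [h1, coeff_map, eq_intCast]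
  exact (ZMod.intCast_zmod_eq_zero_iff_dvd _ 3).2 (by exact_mod_cast hcon d hd)

private theorem gpz_hom (E : Multiset (V × V)) : (gpz E).IsHomogeneous (Multiset.card E) := by
  induction E using Multiset.induction_on with
  | empty => simpa [gpz] using isHomogeneous_one V ℤ
  | cons e E ih =>
    have h1 : gpz (e ::ₘ E) = (X e.1 - X e.2) * gpz E := by
      rw [gpz, Multiset.map_cons, Multiset.prod_cons, gpz]
    rw [h1, Multiset.card_cons, add_comm]
    exact ((isHomogeneous_X ℤ e.1).sub (isHomogeneous_X ℤ e.2)).mul ih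

/-- Combinatorial Nullstellensatz, Mathlib:
`MvPolynomial.combinatorial_nullstellensatz_exists_eval_nonzero` for `gpz E` over `ℤ`, lists
`(L v).image (Nat.cast : ℕ → ℤ)` (same cardinality, cast is injective). `gpz E` is homogeneous of
degree `card E`, so `d.degree = card E = totalDegree`. The value at `s` is the product of the
differences. -/
theorem colour_of_coeff [Finite V] (E : Multiset (V × V)) (d : V →₀ ℕ) (hd : ∀ v, d v ≤ 2)
    (hc : coeff d (gpz E) ≠ 0) (L : V → Finset ℕ) (hL : ∀ v, 3 ≤ (L v).card) :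
    ∃ f : V → ℕ, (∀ v, f v ∈ L v) ∧ ∀ e ∈ E, f e.1 ≠ f e.2 := by
  classical
  have hne : gpz E ≠ 0 := fun h0 => hc (by rw [h0, coeff_zero])
  have hdeg : (gpz E).totalDegree = d.degree := by
    rw [(gpz_hom E).totalDegree hne]
    have h1 := gpz_hom E hc
    rw [← h1, Finsupp.degree_eq_weight_one]
    rfl
  have hinj : Function.Injective (Nat.cast : ℕ → ℤ) := Nat.cast_injective
  obtain ⟨s, hs, hev⟩ := combinatorial_nullstellensatz_exists_eval_nonzero (gpz E) d hc hdeg
    (fun v => (L v).image (Nat.cast : ℕ → ℤ)) (fun v => by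
      rw [Finset.card_image_of_injective _ hinj]
      exact lt_of_le_of_lt (hd v) (lt_of_lt_of_le (by norm_num) (hL v)))
  choose f hf hfs using fun v => Finset.mem_image.1 (hs v)
  refine ⟨f, hf, fun e he heq => hev ?_⟩
  rw [gpz, map_multiset_prod, Multiset.map_map]
  refine Multiset.prod_eq_zero (Multiset.mem_map.2 ⟨e, he, ?_⟩)
  simp only [Function.comp_apply, map_sub, eval_X]
  rw [← hfs e.1, ← hfs e.2, heq, sub_self]

/-- `K_main` with `S = univ` (if `V` is empty take `d = 0`, `gpz E = 1`) -/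
theorem K_int [Fintype V] [DecidableEq V] (E : Multiset (V × V))
    (h : ∀ W : Finset V, W.Nonempty → 3 * ec E W + 3 ≤ 5 * W.card) :
    ∃ d : V →₀ ℕ, (∀ v, d v ≤ 2) ∧ ¬ (3 : ℤ) ∣ coeff d (gpz E) := by
  rcases isEmpty_or_nonempty V with hV | hV
  · refine ⟨0, fun v => by simp, ?_⟩
    have hE : E = 0 := by
      refine Multiset.eq_zero_of_forall_notMem fun e _ => hV.elim e.1
    subst hE
    have h1 : gpz (0 : Multiset (V × V)) = 1 := by simp [gpz]
    rw [h1, coeff_zero_one]
    norm_num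
  · exact exists_coeff E (K_main Finset.univ E Finset.univ_nonempty
      (fun e _ => ⟨Finset.mem_univ _, Finset.mem_univ _⟩) (fun W _ hW => h W hW))

/-- the edges of `G` as a multiset of ordered pairs, every edge once:
`G.edgeFinset.val.map (fun e => Quot.out e)` (classical). `E` has no repetitions up to order, so
`ec E W` is the number of edges inside `W`. -/
theorem exists_orient [Fintype V] [DecidableEq V] (G : SimpleGraph V) :
    ∃ E : Multiset (V × V), (∀ u v, G.Adj u v ↔ (u, v) ∈ E ∨ (v, u) ∈ E) ∧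
      ∀ W : Finset V, ec E W = {e ∈ G.edgeSet | ∀ v ∈ e, v ∈ W}.ncard := by
  classical
  set E : Multiset (V × V) := G.edgeFinset.val.map fun e => Quot.out e with hE
  have hq : ∀ e : Sym2 V, s((Quot.out e).1, (Quot.out e).2) = e := fun e => Quot.out_eq e
  refine ⟨E, fun u v => ⟨fun huv => ?_, ?_⟩, fun W => ?_⟩
  · have h1 : s(u, v) ∈ G.edgeFinset := by simpa using huv
    have h2 : (Quot.out s(u, v) : V × V) ∈ E := Multiset.mem_map.2 ⟨_, h1, rfl⟩
    have h3 := hq s(u, v)
    rcases Sym2.eq_iff.1 h3 with ⟨ha, hb⟩ | ⟨ha, hb⟩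
    · left
      have : (Quot.out s(u, v) : V × V) = (u, v) := Prod.ext ha hb
      rwa [this] at h2
    · right
      have : (Quot.out s(u, v) : V × V) = (v, u) := Prod.ext ha hb
      rwa [this] at h2
  · rintro (h1 | h1)
    · obtain ⟨e, he, heq⟩ := Multiset.mem_map.1 h1
      have h2 := hq e
      rw [heq] at h2
      have h3 : e ∈ G.edgeFinset := he
      rw [← h2] at h3
      simpa using h3
    · obtain ⟨e, he, heq⟩ := Multiset.mem_map.1 h1
      have h2 := hq e
      rw [heq] at h2
      have h3 : e ∈ G.edgeFinset := he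
      rw [← h2] at h3
      have h4 : G.Adj v u := by simpa using h3
      exact h4.symm
  · have h1 : {e ∈ G.edgeSet | ∀ v ∈ e, v ∈ W}
        = ((G.edgeFinset.filter fun e => ∀ v ∈ e, v ∈ W : Finset (Sym2 V)) : Set (Sym2 V)) := by
      ext e
      simp
    rw [h1, Set.ncard_coe_finset, ec, hE, Multiset.countP_map, Finset.card_def, Finset.filter_val]
    refine congrArg Multiset.card (Multiset.filter_congr fun e _ => ?_)
    have h2 : ∀ v, v ∈ e ↔ v = (Quot.out e).1 ∨ v = (Quot.out e).2 := fun v => by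
      conv_lhs => rw [← hq e]
      exact Sym2.mem_iff
    constructor
    · rintro ⟨ha, hb⟩ v hv
      rcases (h2 v).1 hv with rfl | rfl
      · exact ha
      · exact hb
    · intro hh
      exact ⟨hh _ ((h2 _).2 (Or.inl rfl)), hh _ ((h2 _).2 (Or.inr rfl))⟩

/-- SPARSE GRAPHS ARE 3-CHOOSABLE -/
theorem sparse_choosable [Fintype V] (G : SimpleGraph V)
    (h : ∀ W : Finset V, W.Nonempty →
      3 * {e ∈ G.edgeSet | ∀ v ∈ e, v ∈ W}.ncard + 3 ≤ 5 * W.card)
    (L : V → Finset ℕ) (hL : ∀ v, 3 ≤ (L v).card) :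
    ∃ f : V → ℕ, (∀ v, f v ∈ L v) ∧ ∀ u v, G.Adj u v → f u ≠ f v := by
  classical
  obtain ⟨E, hE, hW⟩ := exists_orient G
  obtain ⟨d, hd, hc⟩ := K_int E (fun W hne => by rw [hW]; exact h W hne)
  obtain ⟨f, hf, hf'⟩ := colour_of_coeff E d hd (fun h0 => hc (by rw [h0]; exact dvd_zero 3)) L hL
  refine ⟨f, hf, fun u v huv => ?_⟩
  rcases (hE u v).1 huv with h1 | h1
  · exact hf' _ h1
  · exact fun h2 => hf' _ h1 h2.symm

end Pool.Agent.W_fb73a4_h57
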