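import Mathlib

/-!
MP_fb73a4_co (helper57). List version (Alon and Tarsi, modulo 3) of the theorem of Kostochka and
Yancey for k = 4: a multigraph with `3 e(W) + 3 ≤ 5 |W|` for all nonempty `W` has a non-zero graph
polynomial modulo 3 and modulo the cubes of the variables. Paper proof: table proofs, row 519.
Multigraphs are multisets of ordered pairs.
-/

set_option autoImplicit false

namespace Pool.Agent.W_fb73a4_h57

open MvPolynomial

/-- polynomials over the field with three elements in variables indexed by the vertices -/
abbrev P3 (V : Type) := MvPolynomial V (ZMod 3)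

/-- the ideal generated by the cubes of the variables -/
noncomputable def I3 (V : Type) : Ideal (P3 V) := Ideal.span (Set.range fun v : V => (X v : P3 V) ^ 3)

/-- the graph polynomial of a multiset of ordered pairs -/
noncomputable def gp {V : Type} (E : Multiset (V × V)) : P3 V :=
  (E.map fun e => (X e.1 - X e.2 : P3 V)).prod

/-- the number of edges inside `W` -/
def ec {V : Type} [DecidableEq V] (E : Multiset (V × V)) (W : Finset V) : ℕ :=
  E.countP fun e => e.1 ∈ W ∧ e.2 ∈ W

/-- all edges lie inside `S` -/
def Ins {V : Type} (E : Multiset (V × V)) (S : Finset V) : Prop := ∀ e ∈ E, e.1 ∈ S ∧ e.2 ∈ S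

/-- sparse: `3 e(W) + 3 ≤ 5 |W|` for every nonempty `W ⊆ S` -/
def Spa {V : Type} [DecidableEq V] (E : Multiset (V × V)) (S : Finset V) : Prop :=
  ∀ W ⊆ S, W.Nonempty → 3 * ec E W + 3 ≤ 5 * W.card

/-- the map which sends all of `R` to `w` and fixes the rest -/
def cl {V : Type} [DecidableEq V] (R : Finset V) (w : V) (v : V) : V := if v ∈ R then w else v

/-- image of a multigraph under a map of the vertices -/
def mp {V : Type} (f : V → V) (E : Multiset (V × V)) : Multiset (V × V) := E.map (Prod.map f f)

/-- the edges inside `R` -/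
def inn {V : Type} [DecidableEq V] (E : Multiset (V × V)) (R : Finset V) : Multiset (V × V) :=
  E.filter fun e => e.1 ∈ R ∧ e.2 ∈ R

/-- the edges not inside `R` -/
def out {V : Type} [DecidableEq V] (E : Multiset (V × V)) (R : Finset V) : Multiset (V × V) :=
  E.filter fun e => ¬ (e.1 ∈ R ∧ e.2 ∈ R)

/-- neighbours of `x` with multiplicity -/
def nb {V : Type} [DecidableEq V] (E : Multiset (V × V)) (x : V) : Multiset V :=
  (E.filter fun e => e.1 = x).map Prod.snd + (E.filter fun e => e.2 = x).map Prod.fst

/-- deletion of the vertex `x` -/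
def de {V : Type} [DecidableEq V] (E : Multiset (V × V)) (x : V) : Multiset (V × V) :=
  E.filter fun e => e.1 ≠ x ∧ e.2 ≠ x

/-- star factor: the product of the `X x - X u`, `u ∈ N` -/
noncomputable def st {V : Type} (x : V) (N : Multiset V) : P3 V :=
  (N.map fun u => (X x - X u : P3 V)).prod

/-- the variables of `S` are set to zero -/
noncomputable def kill {V : Type} [DecidableEq V] (S : Finset V) : P3 V →ₐ[ZMod 3] P3 V :=
  aeval fun v => if v ∈ S then 0 else X v

/-- the substitution `X v ↦ X v + X w` for `v ∈ S` -/
noncomputable def sh {V : Type} [DecidableEq V] (S : Finset V) (w : V) : P3 V →ₐ[ZMod 3] P3 V :=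
  aeval fun v => if v ∈ S then X v + X w else X v

/-- the substitution `X v ↦ X v - X w` for `v ∈ S` -/
noncomputable def shi {V : Type} [DecidableEq V] (S : Finset V) (w : V) : P3 V →ₐ[ZMod 3] P3 V :=
  aeval fun v => if v ∈ S then X v - X w else X v

/-- a counterexample with the least number of vertices -/
structure Cex {V : Type} [DecidableEq V] (S : Finset V) (E : Multiset (V × V)) : Prop where
  ne : S.Nonempty
  ins : Ins E S
  spa : Spa E S
  zero : gp E ∈ I3 V
  min : ∀ (S' : Finset V) (E' : Multiset (V × V)), S'.card < S.card → S'.Nonempty → Ins E' S' →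
    Spa E' S' → gp E' ∉ I3 V

end Pool.Agent.W_fb73a4_h57
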