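import Pool.Agent.W_fb73a4_h57.TE
import Pool.Agent.W_fb73a4_t7.Defs

/-! TG ([T7], part F): the definitions of `W_fb73a4_t7/Defs` (`lin`, `eo`, `QQ`, `NZ`) are the same
as those of `TDefs`; the operations and the cluster algebra for `QQ G C ∈ I3 V`. -/

set_option autoImplicit false

namespace Pool.Agent.W_fb73a4_h57

open MvPolynomial Finset
open scoped Classical
open Pool.Agent.W_fb73a4_h20 Pool.Agent.W_fb73a4_h51

variable {V : Type}

theorem t7_lin (e : Sym2 V) : Pool.Agent.W_fb73a4_t7.lin e = lin e := rfl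

variable [Fintype V]

theorem t7_eo (G : SimpleGraph V) (C : Finset V) : Pool.Agent.W_fb73a4_t7.eo G C = eds G C := by
  ext e
  rw [mem_eds]
  unfold Pool.Agent.W_fb73a4_t7.eo
  rw [Finset.mem_filter]
  constructor
  · rintro ⟨_, h1, h2⟩
    push Not at h2
    exact ⟨h1, h2⟩
  · rintro ⟨h1, h2⟩
    refine ⟨Finset.mem_univ _, h1, ?_⟩
    push Not
    exact h2

theorem t7_QQ (G : SimpleGraph V) (C : Finset V) :
    Pool.Agent.W_fb73a4_t7.QQ G C = kill C (LP (eds G C)) := by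
  unfold Pool.Agent.W_fb73a4_t7.QQ LP
  rw [t7_eo]
  rfl

theorem t7_NZ (G : SimpleGraph V) (C : Finset V) : Pool.Agent.W_fb73a4_t7.NZ G C ↔ NZ G C := by
  unfold Pool.Agent.W_fb73a4_t7.NZ NZ
  rw [t7_QQ]

/-- the last state of the operations contradicts `NZ` of the new graph -/
theorem t7_Zr_one (G : SimpleGraph V) (C : Finset V) :
    Zr 1 G C ↔ ¬ Pool.Agent.W_fb73a4_t7.NZ G C := by
  rw [t7_NZ, Zr_one]

/-- CLUSTER ALGEBRA for `QQ G C ∈ I3 V` (field `zero` of `Env`) -/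
theorem t7_cluster_alg (G : SimpleGraph V) (C : Finset V) (φ : ℕ → V) (N nD : ℕ) (hN : nD ≤ N)
    (ed mg nw : List (ℕ × ℕ)) (c : ACert) (hc : acheck N nD ed [] mg nw c = true)
    (hC : ∀ i < nD, φ i ∉ C) (hinj : ∀ i < nD, ∀ j < N, j ≠ i → φ j ≠ φ i)
    (hnd : (ed.map fun e => s(φ e.1, φ e.2)).Nodup)
    (hmem : ∀ e : Sym2 V, e ∈ ed.map (fun e => s(φ e.1, φ e.2)) ↔
      e ∈ G.edgeSet ∧ ∃ i < nD, φ i ∈ e) (h0 : Pool.Agent.W_fb73a4_t7.QQ G C ∈ I3 V) :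
    Zr (mops φ (opl nw mg)) (del G {v | ∃ i < nD, φ i = v}) C := by
  refine cluster_alg G C φ N nD hN ed mg nw c hc hC hinj hnd hmem fun h => ?_
  apply h
  rw [← t7_QQ]
  exact h0

end Pool.Agent.W_fb73a4_h57
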