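import Pool.Agent.W_fb73a4_h57.KDefs

/-! KA: the ideal generated by the cubes. -/

set_option autoImplicit false

namespace Pool.Agent.W_fb73a4_h57

open MvPolynomial

variable {V : Type}

/-- Mathlib: `MvPolynomial.mem_ideal_span_monomial_image` (or `mem_ideal_span_X_image` style lemma),
`X v ^ 3 = monomial (single v 3) 1`: a polynomial is in `I3` iff every exponent of its support is
`≥ single v 3` for some `v`. -/
theorem mem_I3_iff (p : P3 V) : p ∈ I3 V ↔ ∀ d : V →₀ ℕ, (∀ v, d v ≤ 2) → coeff d p = 0 := by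
  have h1 : I3 V = Ideal.span ((fun s : V →₀ ℕ => monomial s (1 : ZMod 3)) ''
      (Set.range fun v : V => Finsupp.single v 3)) := by
    unfold I3
    rw [← Set.range_comp]
    congr 1
    refine congrArg Set.range (funext fun v => ?_)
    show (X v : P3 V) ^ 3 = monomial (Finsupp.single v 3) 1
    rw [X_pow_eq_monomial]
  rw [h1, mem_ideal_span_monomial_image]
  constructor
  · intro h d hd
    by_contra hne
    obtain ⟨_, ⟨v, rfl⟩, hv⟩ := h d (mem_support_iff.2 hne)
    have h2 := hv v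
    have h3 : (Finsupp.single v 3 : V →₀ ℕ) v = 3 := Finsupp.single_eq_same
    have h4 := hd v
    rw [h3] at h2
    omega
  · intro h d hd
    by_contra hne
    push Not at hne
    refine (mem_support_iff.1 hd) (h d fun v => ?_)
    by_contra hv
    refine hne _ ⟨v, rfl⟩ ?_
    rw [Finsupp.single_le_iff]
    omega

theorem KA_three : (3 : P3 V) = 0 := by
  have h1 := CharP.cast_eq_zero (P3 V) 3
  exact_mod_cast h1

theorem X_cube_mem (v : V) : (X v : P3 V) ^ 3 ∈ I3 V :=
  Ideal.subset_span ⟨v, rfl⟩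

/-- `(a + b)^3 = a^3 + b^3` in characteristic 3 (`add_pow_char`, or `ring_nf` and `3 = 0`). -/
theorem add_cube_mem {a b : P3 V} (ha : a ^ 3 ∈ I3 V) (hb : b ^ 3 ∈ I3 V) : (a + b) ^ 3 ∈ I3 V := by
  have h1 : (a + b) ^ 3 = a ^ 3 + b ^ 3 + 3 * (a ^ 2 * b + a * b ^ 2) := by ring
  rw [h1, KA_three, zero_mul, add_zero]
  exact add_mem ha hb

theorem sub_cube_mem {a b : P3 V} (ha : a ^ 3 ∈ I3 V) (hb : b ^ 3 ∈ I3 V) : (a - b) ^ 3 ∈ I3 V := by
  have h1 : (a - b) ^ 3 = a ^ 3 - b ^ 3 + 3 * (a * b ^ 2 - a ^ 2 * b) := by ring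
  rw [h1, KA_three, zero_mul, add_zero]
  exact sub_mem ha hb

/-- `Ideal.span_le` / `Ideal.map`: it suffices to check the generators. -/
theorem aeval_mem (f : V → P3 V) (hf : ∀ v, f v ^ 3 ∈ I3 V) {p : P3 V} (hp : p ∈ I3 V) :
    aeval f p ∈ I3 V := by
  refine Submodule.span_induction (p := fun q _ => aeval f q ∈ I3 V) ?_ ?_ ?_ ?_ hp
  · rintro _ ⟨w, rfl⟩
    simp only [map_pow, aeval_X]
    exact hf w
  · rw [map_zero]
    exact zero_mem _
  · intro a b _ _ ha hb
    rw [map_add]
    exact add_mem ha hb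
  · intro a b _ hb'
    rw [smul_eq_mul, map_mul]
    exact Ideal.mul_mem_left _ _ hb'

theorem rename_mem (f : V → V) {p : P3 V} (hp : p ∈ I3 V) : rename f p ∈ I3 V := by
  have h1 : I3 V ≤ (I3 V).comap (rename f : P3 V →ₐ[ZMod 3] P3 V) := by
    refine Ideal.span_le.2 ?_
    rintro _ ⟨v, rfl⟩
    show rename f ((X v : P3 V) ^ 3) ∈ I3 V
    rw [map_pow, rename_X]
    exact X_cube_mem (f v)
  exact h1 hp

/-- `∂ (a X_w^3) = (∂ a) X_w^3` as `3 = 0` (`Submodule.span_induction`). -/
theorem pderiv_mem (v : V) {p : P3 V} (hp : p ∈ I3 V) : pderiv v p ∈ I3 V := by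
  classical
  refine Submodule.span_induction (p := fun q _ => pderiv v q ∈ I3 V) ?_ ?_ ?_ ?_ hp
  · rintro _ ⟨w, rfl⟩
    have h1 : pderiv v ((X w : P3 V) ^ 3) = 3 * ((X w : P3 V) ^ 2 * pderiv v (X w)) := by
      rw [Derivation.leibniz_pow]
      simp only [nsmul_eq_mul, smul_eq_mul]
      push_cast
      ring
    show pderiv v ((X w : P3 V) ^ 3) ∈ I3 V
    rw [h1, KA_three, zero_mul]
    exact zero_mem _
  · rw [map_zero]
    exact zero_mem _
  · intro a b _ _ ha hb
    rw [map_add]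
    exact add_mem ha hb
  · intro a b hb hb'
    rw [smul_eq_mul, Derivation.leibniz]
    refine add_mem ?_ ?_
    · rw [smul_eq_mul]
      exact Ideal.mul_mem_left _ _ hb'
    · rw [smul_eq_mul]
      exact Ideal.mul_mem_right _ _ hb

/-- constants: `1 ∉ I3`, and `(X a - X b)^2 ∉ I3` for `a ≠ b` (coefficient of `X a ^ 2`). -/
theorem one_not_mem : (1 : P3 V) ∉ I3 V := by
  intro h
  have h1 := (mem_I3_iff _).1 h 0 (fun v => by simp)
  rw [coeff_zero_one] at h1
  exact one_ne_zero h1

theorem sq_not_mem {a b : V} (h : a ≠ b) : ((X a - X b) ^ 2 : P3 V) ∉ I3 V := by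
  classical
  intro hm
  have h1 := (mem_I3_iff _).1 hm (Finsupp.single a 2) (fun v => by
    rw [Finsupp.single_apply]
    split_ifs <;> omega)
  have h2 : ((X a - X b) ^ 2 : P3 V) = monomial (Finsupp.single a 2) 1 +
      monomial (Finsupp.single b 2) 1 -
      (monomial (Finsupp.single a 1 + Finsupp.single b 1) 1 +
      monomial (Finsupp.single a 1 + Finsupp.single b 1) 1) := by
    have e1 : (monomial (Finsupp.single a 1 + Finsupp.single b 1) 1 : P3 V) = X a * X b := by
      rw [X, X, monomial_mul, mul_one]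
    rw [e1, ← X_pow_eq_monomial, ← X_pow_eq_monomial]
    ring
  have h3 : (Finsupp.single b 2 : V →₀ ℕ) ≠ Finsupp.single a 2 := by
    intro e
    have := DFunLike.congr_fun e a
    rw [Finsupp.single_eq_same, Finsupp.single_eq_of_ne h] at this
    exact absurd this (by norm_num)
  have h4 : (Finsupp.single a 1 + Finsupp.single b 1 : V →₀ ℕ) ≠ Finsupp.single a 2 := by
    intro e
    have := DFunLike.congr_fun e b
    rw [Finsupp.add_apply, Finsupp.single_eq_same, Finsupp.single_eq_of_ne h.symm,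
      Finsupp.single_eq_of_ne h.symm] at this
    exact absurd this (by norm_num)
  rw [h2, coeff_sub, coeff_add, coeff_add, coeff_monomial, coeff_monomial, coeff_monomial,
    if_pos rfl, if_neg h3, if_neg h4] at h1
  exact absurd h1 (by simp)

end Pool.Agent.W_fb73a4_h57
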