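import Pool.Agent.W_fb73a4_h57.KA

/-! KB: factors in disjoint sets of variables. -/

set_option autoImplicit false

namespace Pool.Agent.W_fb73a4_h57

open MvPolynomial

variable {V : Type}

private theorem KB_zero_off (S : Finset V) (p : P3 V) (hp : p ∈ supported (ZMod 3) (S : Set V))
    (d : V →₀ ℕ) (hd : coeff d p ≠ 0) (v : V) (hv : v ∉ S) : d v = 0 := by
  rw [mem_supported] at hp
  by_contra h0
  have h1 : v ∈ p.vars := by
    rw [mem_vars_iff_mem_support]
    exact ⟨d, by rw [mem_support_iff]; exact hd, by rw [Finsupp.mem_support_iff]; exact h0⟩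
  exact hv (by exact_mod_cast hp (by exact_mod_cast h1))

/-- Use `mem_I3_iff`. The set of `d : V →₀ ℕ` with `∀ v, d v ≤ 2` and `coeff d p ≠ 0` is finite
(subset of the support of `p`) and nonempty; take a minimal element `d` of it (product order of
`V →₀ ℕ`, `Set.Finite.exists_minimal` or `Finset.exists_minimal`). `d` vanishes outside `S`
(`mem_supported`, `mem_vars`). Then `coeff (d + e) (p * B) = coeff d p * coeff e B`: in
`coeff_mul` (antidiagonal of `d + e`) a pair `(d', f')` with `coeff d' p ≠ 0` has `d'` supported in
`S`, so `d' ≤ d` (on `S` the sum is `d`, `e` is zero there), all values of `d'` are `≤ 2`, so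
`d' = d` by minimality and `f' = e`. The left side is `0` because `d + e` has all values `≤ 2`. -/
theorem free_factor (S : Finset V) (p B : P3 V) (hp : p ∈ supported (ZMod 3) (S : Set V))
    (hp0 : p ∉ I3 V) (h : p * B ∈ I3 V) (e : V →₀ ℕ) (he : ∀ v, e v ≤ 2)
    (heS : ∀ v ∈ S, e v = 0) : coeff e B = 0 := by
  classical
  rw [mem_I3_iff] at hp0
  push Not at hp0
  obtain ⟨d0, hd0, hd0'⟩ := hp0
  have hne : (p.support.filter fun d => ∀ v, d v ≤ 2).Nonempty :=
    ⟨d0, by rw [Finset.mem_filter, mem_support_iff]; exact ⟨hd0', hd0⟩⟩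
  obtain ⟨d, hdmin⟩ := Finset.exists_minimal hne
  have hdm : d ∈ (p.support.filter fun d => ∀ v, d v ≤ 2) := hdmin.1
  rw [Finset.mem_filter, mem_support_iff] at hdm
  obtain ⟨hdc, hd2⟩ := hdm
  have hdoff : ∀ v, v ∉ S → d v = 0 := KB_zero_off S p hp d hdc
  have hsum : ∀ v, (d + e) v ≤ 2 := by
    intro v
    rw [Finsupp.add_apply]
    by_cases hv : v ∈ S
    · rw [heS v hv]; simpa using hd2 v
    · rw [hdoff v hv]; simpa using he v
  have h0 := (mem_I3_iff _).1 h (d + e) hsum
  rw [coeff_mul] at h0
  rw [Finset.sum_eq_single (d, e)] at h0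
  · rcases mul_eq_zero.1 h0 with h1 | h1
    · exact absurd h1 hdc
    · exact h1
  · rintro ⟨d', f'⟩ hmem hne'
    rw [Finset.HasAntidiagonal.mem_antidiagonal] at hmem
    simp only at hmem ⊢
    by_contra hc
    have hd'c : coeff d' p ≠ 0 := fun h1 => hc (by rw [h1, zero_mul])
    have hoff := KB_zero_off S p hp d' hd'c
    have hle : d' ≤ d := by
      intro v
      by_cases hv : v ∈ S
      · have := DFunLike.congr_fun hmem v
        rw [Finsupp.add_apply, Finsupp.add_apply, heS v hv] at this
        omega
      · rw [hoff v hv]; exact Nat.zero_le _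
    have hmem' : d' ∈ (p.support.filter fun d => ∀ v, d v ≤ 2) := by
      rw [Finset.mem_filter, mem_support_iff]
      exact ⟨hd'c, fun v => (hle v).trans (hd2 v)⟩
    have heq : d' = d := le_antisymm hle (hdmin.2 hmem' hle)
    subst heq
    exact hne' (by rw [add_left_cancel hmem])
  · intro hn
    exfalso
    apply hn
    rw [Finset.HasAntidiagonal.mem_antidiagonal]

variable [DecidableEq V]

/-- Induction on `q` (`MvPolynomial.induction_on'` or on monomials by linearity): a monomial which
contains a variable of `S` is sent to `0`, the others are fixed. -/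
theorem coeff_kill (S : Finset V) (q : P3 V) (e : V →₀ ℕ) :
    coeff e (kill S q) = if (∀ v ∈ S, e v = 0) then coeff e q else 0 := by
  induction q using MvPolynomial.induction_on' with
  | monomial u a =>
    by_cases hu : ∀ v ∈ S, u v = 0
    · have h1 : kill S (monomial u a) = monomial u a := by
        rw [kill, aeval_monomial, monomial_eq, algebraMap_eq]
        congr 1
        apply Finsupp.prod_congr
        intro v hv
        rw [if_neg]
        intro hvS
        exact (Finsupp.mem_support_iff.1 hv) (hu v hvS)
      rw [h1]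
      split_ifs with h2
      · rfl
      · rw [coeff_monomial, if_neg]
        intro h3
        subst h3
        exact h2 hu
    · push Not at hu
      obtain ⟨v, hvS, hv⟩ := hu
      have h1 : kill S (monomial u a) = 0 := by
        rw [kill, aeval_monomial, Finsupp.prod, Finset.prod_eq_zero (i := v), mul_zero]
        · exact Finsupp.mem_support_iff.2 hv
        · rw [if_pos hvS, zero_pow hv]
      rw [h1, coeff_zero]
      split_ifs with h2
      · rw [coeff_monomial, if_neg]
        intro h3
        subst h3
        exact hv (h2 v hvS)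
      · rfl
  | add p q hp hq =>
    rw [map_add, coeff_add, hp, hq, coeff_add]
    split_ifs <;> simp

theorem kill_mem (S : Finset V) (p B : P3 V) (hp : p ∈ supported (ZMod 3) (S : Set V))
    (hp0 : p ∉ I3 V) (h : p * B ∈ I3 V) : kill S B ∈ I3 V := by
  rw [mem_I3_iff]
  intro d hd
  rw [coeff_kill]
  split_ifs with h1
  · exact free_factor S p B hp hp0 h d hd h1
  · rfl

end Pool.Agent.W_fb73a4_h57
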