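import Pool.Agent.W_fb73a4_h57.KA

/-! KC: the linear substitutions `X v ↦ X v + X w` (`v ∈ S`, `w ∉ S`). -/

set_option autoImplicit false

namespace Pool.Agent.W_fb73a4_h57

open MvPolynomial

variable {V : Type}

theorem gp_add (E F : Multiset (V × V)) : gp (E + F) = gp E * gp F := by
  unfold gp
  rw [Multiset.map_add, Multiset.prod_add]

theorem gp_mp (f : V → V) (E : Multiset (V × V)) : gp (mp f E) = rename f (gp E) := by
  unfold gp mp
  rw [map_multiset_prod, Multiset.map_map, Multiset.map_map]
  congr 1
  refine Multiset.map_congr rfl fun e _ => ?_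
  simp [Function.comp, rename_X]

theorem gp_homog (E : Multiset (V × V)) : (gp E).IsHomogeneous (Multiset.card E) := by
  induction E using Multiset.induction_on with
  | empty =>
    unfold gp
    rw [Multiset.map_zero, Multiset.prod_zero, Multiset.card_zero]
    exact isHomogeneous_one V (ZMod 3)
  | cons e E ih =>
    have h : gp (e ::ₘ E) = (X e.1 - X e.2 : P3 V) * gp E := by
      unfold gp
      rw [Multiset.map_cons, Multiset.prod_cons]
    rw [h, Multiset.card_cons, Nat.add_comm]
    exact ((isHomogeneous_X (ZMod 3) e.1).sub (isHomogeneous_X (ZMod 3) e.2)).mul ih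

/-- edges which avoid `A` -/
theorem gp_supported (E : Multiset (V × V)) (A : Set V) (h : ∀ e ∈ E, e.1 ∈ A ∧ e.2 ∈ A) :
    gp E ∈ supported (ZMod 3) A := by
  unfold gp
  refine Subalgebra.multiset_prod_mem _ (fun p hp => ?_)
  rw [Multiset.mem_map] at hp
  obtain ⟨e, he, rfl⟩ := hp
  exact Subalgebra.sub_mem _ (X_mem_supported.2 (h e he).1) (X_mem_supported.2 (h e he).2)

variable [DecidableEq V]

/-- `algHom_ext` on variables -/
theorem sh_shi (S : Finset V) (w : V) (hw : w ∉ S) (p : P3 V) : sh S w (shi S w p) = p := by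
  have h : (sh S w).comp (shi S w) = AlgHom.id (ZMod 3) (P3 V) := by
    refine algHom_ext fun v => ?_
    rw [AlgHom.comp_apply, AlgHom.id_apply]
    unfold sh shi
    rw [aeval_X]
    by_cases hv : v ∈ S
    · rw [if_pos hv, map_sub, aeval_X, aeval_X, if_pos hv, if_neg hw]
      ring
    · rw [if_neg hv, aeval_X, if_neg hv]
  exact congrArg (fun f => f p) h

theorem shi_sh (S : Finset V) (w : V) (hw : w ∉ S) (p : P3 V) : shi S w (sh S w p) = p := by
  have h : (shi S w).comp (sh S w) = AlgHom.id (ZMod 3) (P3 V) := by
    refine algHom_ext fun v => ?_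
    rw [AlgHom.comp_apply, AlgHom.id_apply]
    unfold sh shi
    rw [aeval_X]
    by_cases hv : v ∈ S
    · rw [if_pos hv, map_add, aeval_X, aeval_X, if_pos hv, if_neg hw]
      ring
    · rw [if_neg hv, aeval_X, if_neg hv]
  exact congrArg (fun f => f p) h

/-- `aeval_mem` for `sh` and `shi`, with `add_cube_mem`, `sub_cube_mem`, `X_cube_mem` -/
theorem sh_mem_iff (S : Finset V) (w : V) (hw : w ∉ S) (p : P3 V) :
    sh S w p ∈ I3 V ↔ p ∈ I3 V := by
  constructor
  · intro h
    rw [← shi_sh S w hw p]
    unfold shi
    refine aeval_mem _ (fun v => ?_) h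
    split_ifs
    · exact sub_cube_mem (X_cube_mem v) (X_cube_mem w)
    · exact X_cube_mem v
  · intro h
    unfold sh
    refine aeval_mem _ (fun v => ?_) h
    split_ifs
    · exact add_cube_mem (X_cube_mem v) (X_cube_mem w)
    · exact X_cube_mem v

/-- `algHom_ext` on variables -/
theorem kill_sh (R : Finset V) (w : V) (hw : w ∈ R) (p : P3 V) :
    kill (R.erase w) (sh (R.erase w) w p) = rename (cl R w) p := by
  have h : (kill (R.erase w)).comp (sh (R.erase w) w) = rename (cl R w) := by
    refine algHom_ext fun v => ?_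
    rw [AlgHom.comp_apply, rename_X]
    unfold sh kill cl
    rw [aeval_X]
    by_cases hv : v ∈ R.erase w
    · rw [if_pos hv, map_add, aeval_X, aeval_X, if_pos hv, if_neg (Finset.notMem_erase w R),
        if_pos (Finset.mem_of_mem_erase hv), zero_add]
    · rw [if_neg hv, aeval_X, if_neg hv]
      by_cases hvR : v ∈ R
      · have : v = w := by
          by_contra hvw
          exact hv (Finset.mem_erase.2 ⟨hvw, hvR⟩)
        rw [if_pos hvR, this]
      · rw [if_neg hvR]
  exact congrArg (fun f => f p) h

/-- both sides are explicit for `a = w` or not, `b = w` or not -/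
theorem sh_diff (R : Finset V) (w : V) (hw : w ∈ R) (a b : V) (ha : a ∈ R) (hb : b ∈ R) :
    sh (R.erase w) w (X a - X b) =
      (if a ∈ R.erase w then X a else 0) - (if b ∈ R.erase w then X b else 0) := by
  have key : ∀ c ∈ R, sh (R.erase w) w (X c) =
      (if c ∈ R.erase w then X c else 0) + (X w : P3 V) := by
    intro c hc
    unfold sh
    rw [aeval_X]
    by_cases hcR : c ∈ R.erase w
    · rw [if_pos hcR, if_pos hcR]
    · have : c = w := by
        by_contra hcw
        exact hcR (Finset.mem_erase.2 ⟨hcw, hc⟩)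
      rw [if_neg hcR, if_neg hcR, zero_add, this]
  rw [map_sub, key a ha, key b hb]
  ring

/-- product of the differences of `sh_diff` -/
theorem sh_gp (R : Finset V) (w : V) (hw : w ∈ R) (E : Multiset (V × V)) (hE : Ins E R) :
    sh (R.erase w) w (gp E) ∈ supported (ZMod 3) ((R.erase w : Finset V) : Set V) := by
  unfold gp
  rw [map_multiset_prod, Multiset.map_map]
  refine Subalgebra.multiset_prod_mem _ (fun p hp => ?_)
  rw [Multiset.mem_map] at hp
  obtain ⟨e, he, rfl⟩ := hp
  rw [Function.comp_apply, sh_diff R w hw _ _ (hE e he).1 (hE e he).2]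
  refine Subalgebra.sub_mem _ ?_ ?_
  · split_ifs with h
    · exact X_mem_supported.2 (Finset.mem_coe.2 h)
    · exact Subalgebra.zero_mem _
  · split_ifs with h
    · exact X_mem_supported.2 (Finset.mem_coe.2 h)
    · exact Subalgebra.zero_mem _

/-- chain rule (`MvPolynomial.induction_on`): for `v ∈ S`, `v ≠ w` the only variable whose image
contains `X v` is `X v` itself, with coefficient 1 -/
theorem pderiv_sh (S : Finset V) (w : V) (hw : w ∉ S) (v : V) (hv : v ∈ S) (p : P3 V) :
    pderiv v (sh S w p) = sh S w (pderiv v p) := by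
  have hvw : v ≠ w := fun h => hw (h ▸ hv)
  induction p using MvPolynomial.induction_on with
  | C a => simp [sh]
  | add p q hp hq => rw [map_add, map_add, map_add, map_add, hp, hq]
  | mul_X p u hp =>
    have h1 : pderiv v (sh S w (X u)) = sh S w (pderiv v (X u)) := by
      unfold sh
      rw [aeval_X]
      by_cases huv : u = v
      · subst huv
        rw [if_pos hv, map_add, pderiv_X_self, pderiv_X_of_ne hvw.symm, add_zero, map_one]
      · rw [pderiv_X_of_ne huv, map_zero]
        by_cases hu : u ∈ S
        · rw [if_pos hu, map_add, pderiv_X_of_ne huv, pderiv_X_of_ne hvw.symm, add_zero]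
        · rw [if_neg hu, pderiv_X_of_ne huv]
    rw [map_mul, pderiv_mul, pderiv_mul, map_add, map_mul, map_mul, hp, h1]

/-- linear forms substituted: `MvPolynomial.IsHomogeneous.aeval` or `IsHomogeneous.eval₂` like
lemma, or directly for products of differences via `sh_diff` and `IsHomogeneous.mul`. -/
theorem sh_gp_homog (R : Finset V) (w : V) (hw : w ∈ R) (E : Multiset (V × V)) (hE : Ins E R) :
    (sh (R.erase w) w (gp E)).IsHomogeneous (Multiset.card E) := by
  induction E using Multiset.induction_on with
  | empty =>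
    unfold gp
    rw [Multiset.map_zero, Multiset.prod_zero, Multiset.card_zero, map_one]
    exact isHomogeneous_one V (ZMod 3)
  | cons e E ih =>
    have h : gp (e ::ₘ E) = (X e.1 - X e.2 : P3 V) * gp E := by
      unfold gp
      rw [Multiset.map_cons, Multiset.prod_cons]
    have hE' : Ins E R := fun f hf => hE f (Multiset.mem_cons_of_mem hf)
    have he := hE e (Multiset.mem_cons_self e E)
    rw [h, map_mul, Multiset.card_cons, Nat.add_comm, sh_diff R w hw _ _ he.1 he.2]
    refine IsHomogeneous.mul ?_ (ih hE')
    have hz : (0 : P3 V).IsHomogeneous 1 := isHomogeneous_zero V (ZMod 3) 1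
    refine IsHomogeneous.sub ?_ ?_
    · split_ifs
      · exact isHomogeneous_X (ZMod 3) e.1
      · exact hz
    · split_ifs
      · exact isHomogeneous_X (ZMod 3) e.2
      · exact hz

end Pool.Agent.W_fb73a4_h57
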