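import Pool.Agent.W_fb73a4_h57.KB
import Pool.Agent.W_fb73a4_h57.KC

/-! KD: contraction. -/

set_option autoImplicit false

namespace Pool.Agent.W_fb73a4_h57

open MvPolynomial

variable {V : Type} [DecidableEq V]

theorem contract_pol (R : Finset V) (w : V) (hw : w ∈ R) (E1 : Multiset (V × V)) (h1 : Ins E1 R)
    (hn : gp E1 ∉ I3 V) (Q : P3 V) (h : gp E1 * Q ∈ I3 V) : rename (cl R w) Q ∈ I3 V := by
  have hw' : w ∉ R.erase w := Finset.notMem_erase w R
  rw [← kill_sh R w hw Q]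
  refine kill_mem _ (sh (R.erase w) w (gp E1)) _ (sh_gp R w hw E1 h1) ?_ ?_
  · rw [sh_mem_iff _ _ hw']
    exact hn
  · rw [← map_mul, sh_mem_iff _ _ hw']
    exact h

theorem contract (R : Finset V) (w : V) (hw : w ∈ R) (E1 E2 : Multiset (V × V)) (h1 : Ins E1 R)
    (hn : gp E1 ∉ I3 V) (h : gp (E1 + E2) ∈ I3 V) : gp (mp (cl R w) E2) ∈ I3 V := by
  rw [gp_mp]
  rw [gp_add] at h
  exact contract_pol R w hw E1 h1 hn _ h

end Pool.Agent.W_fb73a4_h57
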