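import Pool.Agent.W_fb73a4_h57.KB

/-! KE: a linear functional from duality. -/

set_option autoImplicit false

namespace Pool.Agent.W_fb73a4_h57

open MvPolynomial

variable {V : Type} [DecidableEq V]

/-- Write `la = if a ∈ S then X a else 0`, `lb` similarly. By `mem_I3_iff` there is `d` with values
`≤ 2` and `coeff d ((la - lb) * p) ≠ 0`; `d` is zero outside `S` (supported) and `degree d = k + 1`
(homogeneous). Let `m = 2·1_S - d` (`m v = 2 - d v` on `S`, `0` outside) and
`ε = monomial m 1 * p`. Define `c w = coeff (2·1_S - single w 1) ε` for `w ∈ S`, `c w = 0` outside.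
(1) `c a - c b = coeff (2·1_S) ((la - lb) * ε) = coeff d ((la - lb) * p) ≠ 0`
(`coeff_monomial_mul`, `coeff_X_mul'` / `coeff_mul_X'`).
(2) `ε * B ∈ I3`. For `e` with values `≤ 2` and zero on `S` take the coefficient at `2·1_S + e`:
in `coeff_mul` a pair `(d', f')` with `coeff d' ε ≠ 0` has `d'` supported in `S`,
`degree d' = 2|S| - 1` (as `ε` is homogeneous of degree `degree m + k = 2|S| - 1`) and
`d' ≤ 2·1_S`, so `d' = 2·1_S - single w 1` and `f' = e + single w 1` for some `w ∈ S`. Hence
`0 = ∑ w ∈ S, c w * coeff (e + single w 1) B = coeff e (∑ w ∈ S, C (c w) * pderiv w B)`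
(`coeff_pderiv`: `coeff e (pderiv w B) = coeff (e + single w 1) B * (e w + 1)`, `e w = 0`).
With `coeff_kill` and `mem_I3_iff` this is the claim. (`S` is not empty because of `hn`.) -/
theorem dual_fun (S : Finset V) (k : ℕ) (p B : P3 V) (hp : p ∈ supported (ZMod 3) (S : Set V))
    (hk : p.IsHomogeneous k) (a b : V)
    (hn : ((if a ∈ S then X a else 0) - (if b ∈ S then X b else 0)) * p ∉ I3 V)
    (h : p * B ∈ I3 V) :
    ∃ c : V → ZMod 3, c a ≠ c b ∧ (∀ v, v ∉ S → c v = 0) ∧
      kill S (∑ w ∈ S, C (c w) * pderiv w B) ∈ I3 V := by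
  classical
  rw [mem_I3_iff] at hn
  push Not at hn
  obtain ⟨d, hd2, hd⟩ := hn
  -- the support of the exponents of `p`
  have hsup : ∀ d' : V →₀ ℕ, coeff d' p ≠ 0 → ∀ v, v ∉ S → d' v = 0 := by
    intro d' hd' v hv
    by_contra h0
    refine hv ?_
    have h1 : v ∈ p.vars :=
      (mem_vars_iff_mem_support v).2 ⟨d', mem_support_iff.2 hd', Finsupp.mem_support_iff.2 h0⟩
    exact (mem_supported.1 hp) h1
  have hdeg : ∀ d' : V →₀ ℕ, coeff d' p ≠ 0 → d'.degree = k := by
    intro d' hd'
    by_contra h0
    exact hd' (hk.coeff_eq_zero h0)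
  let c : V → ZMod 3 := fun w => if w ∈ S ∧ w ∈ d.support then coeff (d - Finsupp.single w 1) p else 0
  have hX : ∀ w : V, coeff d ((if w ∈ S then X w else 0) * p) = c w := by
    intro w
    show _ = if w ∈ S ∧ w ∈ d.support then coeff (d - Finsupp.single w 1) p else 0
    by_cases hw : w ∈ S
    · rw [if_pos hw, coeff_X_mul']
      by_cases hw' : w ∈ d.support
      · rw [if_pos hw', if_pos ⟨hw, hw'⟩]
      · rw [if_neg hw', if_neg fun h => hw' h.2]
    · rw [if_neg hw, zero_mul, coeff_zero, if_neg fun h => hw h.1]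
  have hcc : c a ≠ c b := by
    intro h0
    apply hd
    rw [sub_mul, coeff_sub, hX, hX, h0, sub_self]
  -- `d` is supported in `S` and has degree `k + 1`
  have hcne : ∃ w, c w ≠ 0 := by
    by_cases ha : c a = 0
    · exact ⟨b, fun hb => hcc (by rw [ha, hb])⟩
    · exact ⟨a, ha⟩
  obtain ⟨w0, hw0⟩ := hcne
  have hw0' : w0 ∈ S ∧ w0 ∈ d.support ∧ coeff (d - Finsupp.single w0 1) p ≠ 0 := by
    by_cases h0 : w0 ∈ S ∧ w0 ∈ d.support
    · refine ⟨h0.1, h0.2, ?_⟩
      have : c w0 = coeff (d - Finsupp.single w0 1) p := if_pos h0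
      rwa [this] at hw0
    · exact absurd (if_neg h0) hw0
  have hsplit : ∀ w ∈ d.support, d - Finsupp.single w 1 + Finsupp.single w 1 = d := by
    intro w hw
    apply tsub_add_cancel_of_le
    rw [Finsupp.single_le_iff]
    exact Nat.one_le_iff_ne_zero.2 (Finsupp.mem_support_iff.1 hw)
  have hdS : ∀ v, v ∉ S → d v = 0 := by
    intro v hv
    have h1 := hsup _ hw0'.2.2 v hv
    rw [← hsplit w0 hw0'.2.1, Finsupp.add_apply, h1, Finsupp.single_apply,
      if_neg (fun h : w0 = v => hv (h ▸ hw0'.1)), add_zero]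
  have hddeg : d.degree = k + 1 := by
    rw [← hsplit w0 hw0'.2.1, map_add, hdeg _ hw0'.2.2, Finsupp.degree_single]
  refine ⟨c, hcc, fun v hv => if_neg fun h => hv h.1, ?_⟩
  rw [mem_I3_iff]
  intro e he
  rw [coeff_kill]
  split_ifs with heS
  swap
  · rfl
  have h0 : coeff (d + e) (p * B) = 0 := by
    refine (mem_I3_iff _).1 h _ fun v => ?_
    rw [Finsupp.add_apply]
    by_cases hv : v ∈ S
    · rw [heS v hv]
      exact hd2 v
    · rw [hdS v hv, zero_add]
      exact he v
  rw [coeff_mul] at h0
  have hinj : Set.InjOn (fun w : V => (d - Finsupp.single w 1, e + Finsupp.single w 1))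
      (d.support : Set V) := by
    intro w _ w' _ hww
    have h1 : e + Finsupp.single w 1 = e + Finsupp.single w' 1 := congrArg Prod.snd hww
    have h2 := add_left_cancel h1
    exact (Finsupp.single_left_inj one_ne_zero).1 h2
  have h1 : ∑ x ∈ d.support.image (fun w : V => (d - Finsupp.single w 1, e + Finsupp.single w 1)),
      coeff x.1 p * coeff x.2 B = ∑ x ∈ Finset.HasAntidiagonal.antidiagonal (d + e), coeff x.1 p * coeff x.2 B := by
    refine Finset.sum_subset ?_ ?_
    · intro x hx
      obtain ⟨w, hw, rfl⟩ := Finset.mem_image.1 hx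
      rw [Finset.HasAntidiagonal.mem_antidiagonal]
      show d - Finsupp.single w 1 + (e + Finsupp.single w 1) = d + e
      rw [add_comm e, ← add_assoc, hsplit w hw]
    · rintro ⟨d', f'⟩ hx hx'
      by_contra hne
      apply hx'
      have hd' : coeff d' p ≠ 0 := fun h => hne (by rw [h, zero_mul])
      rw [Finset.HasAntidiagonal.mem_antidiagonal] at hx
      have hle : d' ≤ d := by
        intro v
        by_cases hv : v ∈ S
        · have h2 := DFunLike.congr_fun hx v
          simp only [Finsupp.add_apply] at h2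
          rw [heS v hv] at h2
          omega
        · rw [hsup d' hd' v hv]
          exact Nat.zero_le _
      obtain ⟨r, hr⟩ := exists_add_of_le hle
      have hrdeg : r.degree = 1 := by
        have h2 := hddeg
        rw [hr, map_add, hdeg d' hd'] at h2
        omega
      have hrne : r ≠ 0 := fun h => by
        rw [h, map_zero] at hrdeg
        exact zero_ne_one hrdeg
      obtain ⟨w, hw⟩ := Finsupp.ne_iff.1 hrne
      have hw1 : Finsupp.single w 1 ≤ r := by
        rw [Finsupp.single_le_iff]
        exact Nat.one_le_iff_ne_zero.2 hw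
      obtain ⟨t, ht⟩ := exists_add_of_le hw1
      have ht0 : t = 0 := by
        rw [ht, map_add, Finsupp.degree_single] at hrdeg
        exact (Finsupp.degree_eq_zero_iff t).1 (by omega)
      rw [ht0, add_zero] at ht
      rw [ht] at hr
      refine Finset.mem_image.2 ⟨w, ?_, ?_⟩
      · rw [Finsupp.mem_support_iff, hr, Finsupp.add_apply, Finsupp.single_eq_same]
        omega
      · have e1 : d - Finsupp.single w 1 = d' := by rw [hr, add_tsub_cancel_right]
        have e2 : e + Finsupp.single w 1 = f' := by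
          rw [hr, add_assoc] at hx
          rw [add_comm]
          exact (add_left_cancel hx).symm
        show (d - Finsupp.single w 1, e + Finsupp.single w 1) = (d', f')
        rw [e1, e2]
  rw [← h1, Finset.sum_image hinj] at h0
  rw [coeff_sum, ← h0]
  symm
  have hsub : d.support ⊆ S := fun v hv => by
    by_contra h2
    exact (Finsupp.mem_support_iff.1 hv) (hdS v h2)
  rw [← Finset.sum_subset hsub]
  · refine Finset.sum_congr rfl fun w hw => ?_
    rw [coeff_C_mul, coeff_pderiv, heS w (hsub hw), Nat.cast_zero, zero_add, mul_one]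
    have : c w = coeff (d - Finsupp.single w 1) p := if_pos ⟨hsub hw, hw⟩
    rw [this]
  · intro w _ hw'
    rw [coeff_C_mul]
    have : c w = 0 := if_neg fun h => hw' h.2
    rw [this, zero_mul]

end Pool.Agent.W_fb73a4_h57
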