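import Pool.Agent.W_fb73a4_h57.KD
import Pool.Agent.W_fb73a4_h57.KE

/-! KF: the two conditions. -/

set_option autoImplicit false

namespace Pool.Agent.W_fb73a4_h57

open MvPolynomial

variable {V : Type} [DecidableEq V]

/-- `contract_pol` gives the first condition (`gp E1 ∉ I3` because of `hn`, ideal). For the second
apply `dual_fun` with `S = R.erase w`, `p = sh S w (gp E1)`, `B = sh S w Q`, `a = u`, `b = v`
(`sh_diff`, `sh_gp`, `sh_gp_homog`, `sh_mem_iff`): for `z ∈ S`, `pderiv z (sh S w Q) =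
sh S w (pderiv z Q)` (`pderiv_sh`), `sh` commutes with `C` and sums, so the argument of `kill` is
`sh S w (∑ z ∈ S, C (c z) * pderiv z Q)`, and `kill S (sh S w _) = rename (cl R w) _` (`kill_sh`).
The term `z = w` of the sum over `R` is zero since `c w = 0`. -/
theorem two_cond (R : Finset V) (w : V) (hw : w ∈ R) (E1 : Multiset (V × V)) (h1 : Ins E1 R)
    (u v : V) (hu : u ∈ R) (hv : v ∈ R) (hn : (X u - X v) * gp E1 ∉ I3 V) (Q : P3 V)
    (h : gp E1 * Q ∈ I3 V) :
    ∃ c : V → ZMod 3, c u ≠ c v ∧ rename (cl R w) Q ∈ I3 V ∧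
      rename (cl R w) (∑ z ∈ R, C (c z) * pderiv z Q) ∈ I3 V := by
  have hw' : w ∉ R.erase w := Finset.notMem_erase w R
  have hn1 : ((if u ∈ R.erase w then X u else 0) - (if v ∈ R.erase w then X v else 0)) *
      sh (R.erase w) w (gp E1) ∉ I3 V := by
    rw [← sh_diff R w hw u v hu hv, ← map_mul, sh_mem_iff _ _ hw']
    exact hn
  have hB : sh (R.erase w) w (gp E1) * sh (R.erase w) w Q ∈ I3 V := by
    rw [← map_mul, sh_mem_iff _ _ hw']
    exact h
  obtain ⟨c, hc, hc0, hk⟩ := dual_fun (R.erase w) _ (sh (R.erase w) w (gp E1))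
    (sh (R.erase w) w Q) (sh_gp R w hw E1 h1) (sh_gp_homog R w hw E1 h1) u v hn1 hB
  refine ⟨c, hc, ?_, ?_⟩
  · refine contract_pol R w hw E1 h1 ?_ Q h
    intro h2
    exact hn (Ideal.mul_mem_left _ _ h2)
  · have h3 : ∑ z ∈ R, C (c z) * pderiv z Q = ∑ z ∈ R.erase w, C (c z) * pderiv z Q := by
      refine (Finset.sum_erase R ?_).symm
      rw [hc0 w hw', map_zero, zero_mul]
    have h4 : sh (R.erase w) w (∑ z ∈ R.erase w, C (c z) * pderiv z Q) =
        ∑ z ∈ R.erase w, C (c z) * pderiv z (sh (R.erase w) w Q) := by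
      rw [map_sum]
      refine Finset.sum_congr rfl fun z hz => ?_
      rw [map_mul, pderiv_sh _ w hw' z hz Q, algHom_C, algebraMap_eq]
    rw [h3, ← kill_sh R w hw, h4]
    exact hk

end Pool.Agent.W_fb73a4_h57
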