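import Pool.Agent.W_fb73a4_h57.KA

/-! KG: Taylor expansion along a contraction, and the chain rule. -/

set_option autoImplicit false

namespace Pool.Agent.W_fb73a4_h57

open MvPolynomial

variable {V : Type} [DecidableEq V]

/-- the ideal generated by the `X r - X x`, `r ∈ T`, `r ≠ x` -/
noncomputable def JT (T : Finset V) (x : V) : Ideal (P3 V) :=
  Ideal.span ((fun r => (X r - X x : P3 V)) '' ((T.erase x : Finset V) : Set V))

private theorem KG_pderiv_X (r v : V) :
    pderiv r (X v : P3 V) = if v = r then 1 else 0 := by
  by_cases h : v = r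
  · rw [if_pos h, h, pderiv_X_self]
  · rw [if_neg h, pderiv_X_of_ne h]

/-- `MvPolynomial.induction_on q`. Write `π = rename (cl T x)`, `L q = ∑ r, (X r - X x) π (∂_r q)`.
Constants and sums are clear. For `q * X v`: `q X_v - π q π X_v - L (q X_v)` where
`L (q X_v) = L q * π X_v + π q * (X_v - π X_v)` (Leibniz; if `v ∈ T`, `v ≠ x` then
`π X_v = X x` and the only non-zero `∂_r X_v` is `r = v`; otherwise `π X_v = X_v`, all zero, where
for `v = x` note that `x` is not in the index set). So the difference is
`(q - π q - L q) X_v + L q (X_v - π X_v)`: first summand in `J^2` by induction, second in `J * J`. -/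
theorem taylor (T : Finset V) (x : V) (hx : x ∈ T) (q : P3 V) :
    q - rename (cl T x) q - ∑ r ∈ T.erase x, (X r - X x) * rename (cl T x) (pderiv r q)
      ∈ JT T x ^ 2 := by
  induction q using MvPolynomial.induction_on with
  | C a =>
    have h : (C a : P3 V) - rename (cl T x) (C a) -
        ∑ r ∈ T.erase x, (X r - X x) * rename (cl T x) (pderiv r (C a)) = 0 := by
      rw [rename_C]
      simp
    rw [h]
    exact zero_mem _
  | add p q hp hq =>
    have h : p + q - rename (cl T x) (p + q) -
        ∑ r ∈ T.erase x, (X r - X x) * rename (cl T x) (pderiv r (p + q)) =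
        (p - rename (cl T x) p - ∑ r ∈ T.erase x, (X r - X x) * rename (cl T x) (pderiv r p)) +
        (q - rename (cl T x) q - ∑ r ∈ T.erase x, (X r - X x) * rename (cl T x) (pderiv r q)) := by
      simp only [map_add, mul_add, Finset.sum_add_distrib]
      ring
    rw [h]
    exact add_mem hp hq
  | mul_X p v hp =>
    have hS : ∑ r ∈ T.erase x, (X r - X x) * rename (cl T x) (pderiv r (X v : P3 V)) =
        X v - rename (cl T x) (X v : P3 V) := by
      have h1 : ∀ r ∈ T.erase x, (X r - X x) * rename (cl T x) (pderiv r (X v : P3 V)) =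
          if v = r then (X r - X x : P3 V) else 0 := by
        intro r _
        rw [KG_pderiv_X]
        split_ifs <;> simp
      rw [Finset.sum_congr rfl h1, Finset.sum_ite_eq, rename_X]
      unfold cl
      by_cases hv : v ∈ T
      · rw [if_pos hv]
        by_cases hvx : v = x
        · rw [if_neg (by rw [hvx]; exact Finset.notMem_erase x T), hvx, sub_self]
        · rw [if_pos (Finset.mem_erase.2 ⟨hvx, hv⟩)]
      · rw [if_neg hv, if_neg (fun h => hv (Finset.mem_of_mem_erase h)), sub_self]
    have hL : ∑ r ∈ T.erase x, (X r - X x) * rename (cl T x) (pderiv r (p * X v)) =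
        (∑ r ∈ T.erase x, (X r - X x) * rename (cl T x) (pderiv r p)) * rename (cl T x) (X v) +
        rename (cl T x) p * (X v - rename (cl T x) (X v : P3 V)) := by
      rw [← hS, Finset.sum_mul, Finset.mul_sum, ← Finset.sum_add_distrib]
      refine Finset.sum_congr rfl fun r _ => ?_
      rw [pderiv_mul, map_add, map_mul, map_mul]
      ring
    have hLmem : ∑ r ∈ T.erase x, (X r - X x) * rename (cl T x) (pderiv r p) ∈ JT T x := by
      refine sum_mem fun r hr => Ideal.mul_mem_right _ _ (Ideal.subset_span ?_)
      exact ⟨r, by exact_mod_cast hr, rfl⟩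
    have hXmem : X v - rename (cl T x) (X v : P3 V) ∈ JT T x := by
      rw [← hS]
      refine sum_mem fun r hr => Ideal.mul_mem_right _ _ (Ideal.subset_span ?_)
      exact ⟨r, by exact_mod_cast hr, rfl⟩
    have h : p * X v - rename (cl T x) (p * X v) -
        ∑ r ∈ T.erase x, (X r - X x) * rename (cl T x) (pderiv r (p * X v)) =
        (p - rename (cl T x) p - ∑ r ∈ T.erase x, (X r - X x) * rename (cl T x) (pderiv r p)) * X v
        + (∑ r ∈ T.erase x, (X r - X x) * rename (cl T x) (pderiv r p)) *
          (X v - rename (cl T x) (X v : P3 V)) := by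
      rw [hL, map_mul]
      ring
    rw [h]
    refine add_mem (Ideal.mul_mem_right _ _ hp) ?_
    rw [pow_two]
    exact Ideal.mul_mem_mul hLmem hXmem

/-- chain rule for `rename` (`MvPolynomial.induction_on q`): `R` contains all vertices `z` with
`f z = r`. -/
theorem pderiv_rename_sum (f : V → V) (r : V) (R : Finset V) (hR : ∀ z, f z = r → z ∈ R)
    (q : P3 V) :
    pderiv r (rename f q) = ∑ z ∈ R.filter (fun z => f z = r), rename f (pderiv z q) := by
  induction q using MvPolynomial.induction_on with
  | C a => simp
  | add p q hp hq =>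
    simp only [map_add, Finset.sum_add_distrib]
    rw [hp, hq]
  | mul_X p v hp =>
    have h1 : ∑ z ∈ R.filter (fun z => f z = r), rename f (pderiv z (X v : P3 V)) =
        pderiv r (rename f (X v : P3 V)) := by
      have h2 : ∀ z ∈ R.filter (fun z => f z = r), rename f (pderiv z (X v : P3 V)) =
          if v = z then (1 : P3 V) else 0 := by
        intro z _
        rw [KG_pderiv_X]
        split_ifs <;> simp
      rw [Finset.sum_congr rfl h2, Finset.sum_ite_eq, rename_X, KG_pderiv_X]
      by_cases hv : f v = r
      · rw [if_pos hv, if_pos (Finset.mem_filter.2 ⟨hR v hv, hv⟩)]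
      · rw [if_neg hv]
        exact if_neg (fun h : v ∈ R.filter (fun z => f z = r) => hv (Finset.mem_filter.1 h).2)
    rw [map_mul, pderiv_mul, hp, ← h1, Finset.sum_mul, Finset.mul_sum, ← Finset.sum_add_distrib]
    refine Finset.sum_congr rfl fun z _ => ?_
    rw [pderiv_mul, map_add, map_mul, map_mul]

end Pool.Agent.W_fb73a4_h57
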