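import Pool.Agent.W_fb73a4_h57.KG

/-! KH: two and three classes. -/

set_option autoImplicit false

namespace Pool.Agent.W_fb73a4_h57

open MvPolynomial

variable {V : Type} [DecidableEq V]

/-- If `π q ∈ I3` then also `π (∑ r ∈ T, ∂_r q) ∈ I3`: it equals `∂_x (π q)` minus nothing:
`pderiv x (rename (cl T x) q) = ∑ z ∈ T, rename (cl T x) (pderiv z q)` by `pderiv_rename_sum`
(all `z ∈ T` are sent to `x`, and `z ∉ T` is not sent to `x`), and `pderiv_mem`. -/
theorem sum_pderiv_mem (T : Finset V) (x : V) (hx : x ∈ T) (q : P3 V)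
    (ha : rename (cl T x) q ∈ I3 V) : rename (cl T x) (∑ z ∈ T, pderiv z q) ∈ I3 V := by
  have hR : ∀ z, cl T x z = x → z ∈ T := by
    intro z hz
    by_contra hzT
    simp only [cl, if_neg hzT] at hz
    exact hzT (hz ▸ hx)
  have h1 := pderiv_rename_sum (cl T x) x T hR q
  have h2 : T.filter (fun z => cl T x z = x) = T := by
    apply Finset.filter_true_of_mem
    intro z hz
    simp only [cl, if_pos hz]
  rw [h2] at h1
  rw [map_sum, ← h1]
  exact pderiv_mem x ha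

omit [DecidableEq V] in
/-- the cube of a difference of two variables -/
private theorem cube_diff_mem (x y : V) : (X y - X x : P3 V) ^ 3 ∈ I3 V :=
  sub_cube_mem (X_cube_mem y) (X_cube_mem x)

omit [DecidableEq V] in
/-- a nonzero constant can be cancelled -/
private theorem C_cancel {a : ZMod 3} (ha : a ≠ 0) {p : P3 V} (h : C a * p ∈ I3 V) :
    p ∈ I3 V := by
  have h1 : p = C a⁻¹ * (C a * p) := by
    rw [← mul_assoc, ← C_mul, inv_mul_cancel₀ ha, C_1, one_mul]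
  rw [h1]
  exact Ideal.mul_mem_left _ _ h

/-- `T = {x, y}`, `Y = X y - X x`, `π = rename (cl T x)`. `taylor`: `q = π q + Y π (∂_y q) + j`,
`j ∈ (Y)^2`. Multiply by `X x - X y = -Y`: `Y π q ∈ I3`; `Y^2 π (∂_y q)`: from `sum_pderiv_mem`
`π ∂_x q + π ∂_y q ∈ I3`, from `hb` `c x π ∂_x q + c y π ∂_y q ∈ I3`, so
`(c y - c x) π ∂_y q ∈ I3` and `π ∂_y q ∈ I3`; `Y j ∈ (Y^3) ⊆ I3` (`sub_cube_mem`). -/
theorem gadget_two (x y : V) (hxy : x ≠ y) (c : V → ZMod 3) (hc : c x ≠ c y) (q : P3 V)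
    (ha : rename (cl {x, y} x) q ∈ I3 V)
    (hb : rename (cl {x, y} x) (C (c x) * pderiv x q + C (c y) * pderiv y q) ∈ I3 V) :
    (X x - X y) * q ∈ I3 V := by
  have hT : x ∈ ({x, y} : Finset V) := by simp
  have he : ({x, y} : Finset V).erase x = {y} := by
    ext z
    simp only [Finset.mem_erase, Finset.mem_insert, Finset.mem_singleton]
    constructor
    · rintro ⟨h1, h2 | h2⟩
      · exact absurd h2 h1
      · exact h2
    · intro h
      exact ⟨fun h1 => hxy (h1.symm.trans h), Or.inr h⟩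
  have hj := taylor {x, y} x hT q
  have hs := sum_pderiv_mem {x, y} x hT q ha
  rw [Finset.sum_pair hxy, map_add] at hs
  simp only [map_add, map_mul, rename_C] at hb
  unfold JT at hj
  rw [he] at hj
  rw [Finset.sum_singleton, Finset.coe_singleton, Set.image_singleton, Ideal.span_singleton_pow,
    Ideal.mem_span_singleton'] at hj
  obtain ⟨a, haj⟩ := hj
  set Dx := rename (cl {x, y} x) (pderiv x q) with hDx
  set Dy := rename (cl {x, y} x) (pderiv y q) with hDy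
  set pq := rename (cl {x, y} x) q with hpq
  have hD : Dy ∈ I3 V := by
    refine C_cancel (a := c y - c x) (sub_ne_zero.2 (Ne.symm hc)) ?_
    have h3 : C (c y - c x) * Dy = (C (c x) * Dx + C (c y) * Dy) - C (c x) * (Dx + Dy) := by
      rw [C_sub]; ring
    rw [h3]
    exact Ideal.sub_mem _ hb (Ideal.mul_mem_left _ _ hs)
  have hY := cube_diff_mem x y
  have hfin : (X x - X y) * q = -(X y - X x) * pq + -(X y - X x) ^ 2 * Dy +
      -a * (X y - X x) ^ 3 := by
    have hq : q = pq + (X y - X x) * Dy + a * (X y - X x) ^ 2 := by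
      rw [haj]; ring
    rw [hq]; ring
  rw [hfin]
  exact Ideal.add_mem _ (Ideal.add_mem _ (Ideal.mul_mem_left _ _ ha)
    (Ideal.mul_mem_left _ _ hD)) (Ideal.mul_mem_left _ _ hY)

/-- `T = {x, y, z}`, `Y = X y - X x`, `Z = X z - X x`, `Δ = (X x - X y)(X y - X z)(X z - X x) =
Y Z^2 - Y^2 Z`. `taylor`: `q = π q + Y Dy + Z Dz + j` with `Dy = π ∂_y q`, `Dz = π ∂_z q`,
`j ∈ (Y, Z)^2`. `Δ Y^2, Δ Y Z, Δ Z^2 ∈ I3` since `Y^3, Z^3 ∈ I3`, so `Δ j ∈ I3`. `Δ π q ∈ I3`.
`Δ Y = Y^2 Z^2 - Y^3 Z`, `Δ Z = Y Z^3 - Y^2 Z^2`, so `Δ (Y Dy + Z Dz)` is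
`Y^2 Z^2 (Dy - Dz)` modulo `I3`. From `sum_pderiv_mem`: `Dx + Dy + Dz ∈ I3`, with `hb`:
`(c y - c x) Dy + (c z - c x) Dz ∈ I3`; as the three values are distinct in `ZMod 3`,
`c z - c x = -(c y - c x) ≠ 0`, hence `Dy - Dz ∈ I3`. -/
theorem gadget_three (x y z : V) (hxy : x ≠ y) (hxz : x ≠ z) (hyz : y ≠ z) (c : V → ZMod 3)
    (h1 : c x ≠ c y) (h2 : c x ≠ c z) (h3 : c y ≠ c z) (q : P3 V)
    (ha : rename (cl {x, y, z} x) q ∈ I3 V)
    (hb : rename (cl {x, y, z} x)
      (C (c x) * pderiv x q + C (c y) * pderiv y q + C (c z) * pderiv z q) ∈ I3 V) :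
    (X x - X y) * (X y - X z) * (X z - X x) * q ∈ I3 V := by
  have hT : x ∈ ({x, y, z} : Finset V) := by simp
  have he : ({x, y, z} : Finset V).erase x = {y, z} := by
    ext w
    simp only [Finset.mem_erase, Finset.mem_insert, Finset.mem_singleton]
    constructor
    · rintro ⟨h1, h2 | h2⟩
      · exact absurd h2 h1
      · exact h2
    · rintro (h | h)
      · exact ⟨fun h1 => hxy (h1.symm.trans h), Or.inr (Or.inl h)⟩
      · exact ⟨fun h1 => hxz (h1.symm.trans h), Or.inr (Or.inr h)⟩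
  have hxn : x ∉ ({y, z} : Finset V) := by
    simp only [Finset.mem_insert, Finset.mem_singleton, not_or]
    exact ⟨hxy, hxz⟩
  have hj := taylor {x, y, z} x hT q
  have hs := sum_pderiv_mem {x, y, z} x hT q ha
  rw [Finset.sum_insert hxn, Finset.sum_pair hyz, map_add, map_add] at hs
  simp only [map_add, map_mul, rename_C] at hb
  unfold JT at hj
  rw [he] at hj
  rw [Finset.sum_pair hyz, Finset.coe_insert, Finset.coe_singleton, Set.image_pair, pow_two,
    Ideal.span_pair_mul_span_pair] at hj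
  set Dx := rename (cl {x, y, z} x) (pderiv x q) with hDx
  set Dy := rename (cl {x, y, z} x) (pderiv y q) with hDy
  set Dz := rename (cl {x, y, z} x) (pderiv z q) with hDz
  set pq := rename (cl {x, y, z} x) q with hpq
  set Y : P3 V := X y - X x with hYdef
  set Z : P3 V := X z - X x with hZdef
  set j := q - pq - (Y * Dy + Z * Dz) with hjdef
  have hY : Y ^ 3 ∈ I3 V := cube_diff_mem x y
  have hZ : Z ^ 3 ∈ I3 V := cube_diff_mem x z
  have hΔ : (X x - X y : P3 V) * (X y - X z) * (X z - X x) = Y * Z ^ 2 - Y ^ 2 * Z := by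
    rw [hYdef, hZdef]; ring
  have hjΔ : (Y * Z ^ 2 - Y ^ 2 * Z) * j ∈ I3 V := by
    have hle : Ideal.span {Y * Y, Y * Z, Z * Y, Z * Z} ≤
        Submodule.comap (LinearMap.mulLeft (P3 V) (Y * Z ^ 2 - Y ^ 2 * Z)) (I3 V) := by
      rw [Ideal.span_le]
      intro w hw
      simp only [Set.mem_insert_iff, Set.mem_singleton_iff] at hw
      rw [SetLike.mem_coe, Submodule.mem_comap, LinearMap.mulLeft_apply]
      rcases hw with rfl | rfl | rfl | rfl
      · have : (Y * Z ^ 2 - Y ^ 2 * Z) * (Y * Y) = (Z ^ 2 - Y * Z) * Y ^ 3 := by ring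
        rw [this]; exact Ideal.mul_mem_left _ _ hY
      · have : (Y * Z ^ 2 - Y ^ 2 * Z) * (Y * Z) = Y ^ 2 * Z ^ 3 + -(Z ^ 2) * Y ^ 3 := by ring
        rw [this]
        exact Ideal.add_mem _ (Ideal.mul_mem_left _ _ hZ) (Ideal.mul_mem_left _ _ hY)
      · have : (Y * Z ^ 2 - Y ^ 2 * Z) * (Z * Y) = Y ^ 2 * Z ^ 3 + -(Z ^ 2) * Y ^ 3 := by ring
        rw [this]
        exact Ideal.add_mem _ (Ideal.mul_mem_left _ _ hZ) (Ideal.mul_mem_left _ _ hY)
      · have : (Y * Z ^ 2 - Y ^ 2 * Z) * (Z * Z) = (Y * Z - Y ^ 2) * Z ^ 3 := by ring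
        rw [this]; exact Ideal.mul_mem_left _ _ hZ
    have := hle hj
    rwa [Submodule.mem_comap, LinearMap.mulLeft_apply] at this
  have hcz : c z - c x = -(c y - c x) := by
    have key : ∀ a b d : ZMod 3, a ≠ b → a ≠ d → b ≠ d → d - a = -(b - a) := by decide
    exact key _ _ _ h1 h2 h3
  have hD : Dy - Dz ∈ I3 V := by
    refine C_cancel (a := c y - c x) (sub_ne_zero.2 (Ne.symm h1)) ?_
    have h4 : C (c y - c x) * (Dy - Dz) =
        (C (c x) * Dx + C (c y) * Dy + C (c z) * Dz) - C (c x) * (Dx + (Dy + Dz)) := by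
      have h5 : (C (c z) : P3 V) = C (c x) - C (c y - c x) := by
        have : c z = c x - (c y - c x) := by linear_combination hcz
        rw [this, C_sub]
      rw [h5, C_sub]; ring
    rw [h4]
    exact Ideal.sub_mem _ hb (Ideal.mul_mem_left _ _ hs)
  have hfin : (X x - X y) * (X y - X z) * (X z - X x) * q =
      (Y * Z ^ 2 - Y ^ 2 * Z) * pq + Y ^ 2 * Z ^ 2 * (Dy - Dz) + (-(Z * Dy)) * Y ^ 3 +
        (Y * Dz) * Z ^ 3 + (Y * Z ^ 2 - Y ^ 2 * Z) * j := by
    rw [hΔ, hjdef]; ring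
  rw [hfin]
  exact Ideal.add_mem _ (Ideal.add_mem _ (Ideal.add_mem _ (Ideal.add_mem _
    (Ideal.mul_mem_left _ _ ha) (Ideal.mul_mem_left _ _ hD)) (Ideal.mul_mem_left _ _ hY))
    (Ideal.mul_mem_left _ _ hZ)) hjΔ

end Pool.Agent.W_fb73a4_h57
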