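import Pool.Agent.W_fb73a4_h57.KH
import Pool.Agent.W_fb73a4_h57.KC

/-! KI: replacing a set by a complete graph on its classes. -/

set_option autoImplicit false

namespace Pool.Agent.W_fb73a4_h57

open MvPolynomial

variable {V : Type} [DecidableEq V]

/-- Representatives of the classes. -/
theorem exists_rep (R : Finset V) (w : V) (hw : w ∈ R) (c : V → ZMod 3) :
    ∃ f : V → V, (∀ a, a ∉ R → f a = a) ∧ (∀ a ∈ R, f a ∈ R ∧ c (f a) = c a) ∧
      (∀ a ∈ R, ∀ b ∈ R, c a = c b → f a = f b) ∧ f w = w := by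
  classical
  have h1 : ∀ j : ZMod 3, ∃ r : V, (j = c w → r = w) ∧ ((∃ a ∈ R, c a = j) → r ∈ R ∧ c r = j) := by
    intro j
    by_cases hj : j = c w
    · exact ⟨w, fun _ => rfl, fun _ => ⟨hw, hj.symm⟩⟩
    · by_cases h : ∃ a ∈ R, c a = j
      · obtain ⟨a, ha, hc⟩ := h
        exact ⟨a, fun h => absurd h hj, fun _ => ⟨ha, hc⟩⟩
      · exact ⟨w, fun h => absurd h hj, fun h' => absurd h' h⟩
  choose rep hrep using h1
  refine ⟨fun a => if a ∈ R then rep (c a) else a, fun a ha => if_neg ha, fun a ha => ?_,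
    fun a ha b hb hc => ?_, ?_⟩
  · show (if a ∈ R then rep (c a) else a) ∈ R ∧ c (if a ∈ R then rep (c a) else a) = c a
    rw [if_pos ha]
    exact (hrep (c a)).2 ⟨a, ha, rfl⟩
  · show (if a ∈ R then rep (c a) else a) = if b ∈ R then rep (c b) else b
    rw [if_pos ha, if_pos hb, hc]
  · show (if w ∈ R then rep (c w) else w) = w
    rw [if_pos hw]
    exact (hrep (c w)).1 rfl

theorem ec_le_card (K : Multiset (V × V)) (Y : Finset V) : ec K Y ≤ Multiset.card K :=
  Multiset.countP_le_card _ _

theorem ec_cons_neg (K : Multiset (V × V)) (Y : Finset V) (e : V × V)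
    (h : ¬ (e.1 ∈ Y ∧ e.2 ∈ Y)) : ec (e ::ₘ K) Y = ec K Y := by
  unfold ec
  rw [Multiset.countP_cons_of_neg]
  exact h

theorem ec_zero' (Y : Finset V) : ec (0 : Multiset (V × V)) Y = 0 := by
  unfold ec
  rw [Multiset.countP_zero]

/-- an edge with two different ends is not inside a set with one element -/
theorem not_in_one {a b : V} (hab : a ≠ b) {Y : Finset V} (hY : Y.card = 1) :
    ¬ (a ∈ Y ∧ b ∈ Y) := by
  rintro ⟨ha, hb⟩
  obtain ⟨x, hx⟩ := Finset.card_eq_one.1 hY
  rw [hx, Finset.mem_singleton] at ha hb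
  exact hab (ha.trans hb.symm)

/-- Choose for every value `j` of `c` on `R` a representative `rep j ∈ R` with `c (rep j) = j`,
`rep (c w) = w`. `f a = rep (c a)` for `a ∈ R`, `f a = a` otherwise; `T = R.image f`. The values
`c` on `T` are distinct, so `T.card ≤ 3`, and `f u ≠ f v` (both in `T`). `w ∈ T`, `f w = w`.
Let `q' = rename f q`. Then `rename (cl T w) q' = rename (cl R w) q` (`cl T w ∘ f = cl R w`,
`rename_rename`), and for `r ∈ T`: `pderiv r q' = ∑ z ∈ R with f z = r, rename f (pderiv z q)`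
(`pderiv_rename_sum`), `c z = c r` for those `z`, so
`rename (cl T w) (∑ r ∈ T, C (c r) * pderiv r q') = rename (cl R w) (∑ z ∈ R, C (c z) * pderiv z q)`.
So `q'` satisfies the hypotheses of `gadget_two` (if `T.card = 2`, `T = {w, y}`, `K = {(w, y)}`) or
`gadget_three` (`T = {w, y, z}`, `K = {(w, y), (y, z), (z, w)}`). `ec K Y` is computed directly. -/
theorem classes (R : Finset V) (w : V) (hw : w ∈ R) (c : V → ZMod 3) (u v : V) (hu : u ∈ R)
    (hv : v ∈ R) (hc : c u ≠ c v) (q : P3 V) (ha : rename (cl R w) q ∈ I3 V)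
    (hb : rename (cl R w) (∑ z ∈ R, C (c z) * pderiv z q) ∈ I3 V) :
    ∃ (f : V → V) (T : Finset V) (K : Multiset (V × V)), (∀ a, a ∉ R → f a = a) ∧
      (∀ a ∈ R, f a ∈ T) ∧ T ⊆ R ∧ f u ≠ f v ∧ T.card ≤ 3 ∧ Ins K T ∧
      (∀ Y ⊆ T, Y.card = 1 → ec K Y = 0) ∧ (∀ Y ⊆ T, 2 ≤ Y.card → 3 * ec K Y + 6 ≤ 5 * Y.card) ∧
      gp K * rename f q ∈ I3 V := by
  classical
  obtain ⟨f, hf1, hf2, hf3, hfw⟩ := exists_rep R w hw c
  obtain ⟨T, hT⟩ : ∃ T : Finset V, T = R.image f := ⟨_, rfl⟩
  have hfT : ∀ a ∈ R, f a ∈ T := fun a ha => hT ▸ Finset.mem_image_of_mem f ha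
  have hTR : T ⊆ R := by
    intro x hx
    rw [hT] at hx
    obtain ⟨a, ha, rfl⟩ := Finset.mem_image.1 hx
    exact (hf2 a ha).1
  have hff : ∀ x ∈ T, f x = x := by
    intro x hx
    have hx' := hx
    rw [hT] at hx'
    obtain ⟨a, ha, rfl⟩ := Finset.mem_image.1 hx'
    exact hf3 _ (hf2 a ha).1 _ ha (hf2 a ha).2
  have hinj : ∀ x ∈ T, ∀ y ∈ T, c x = c y → x = y := by
    intro x hx y hy hxy
    rw [← hff x hx, ← hff y hy]
    exact hf3 x (hTR hx) y (hTR hy) hxy
  have hcard : T.card ≤ 3 := by
    have h1 : (T.image c).card = T.card :=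
      Finset.card_image_of_injOn fun x hx y hy h => hinj x hx y hy h
    rw [← h1]
    have h2 := Finset.card_le_univ (T.image c)
    rw [ZMod.card] at h2
    exact h2
  have huv : f u ≠ f v := by
    intro h
    apply hc
    rw [← (hf2 u hu).2, ← (hf2 v hv).2, h]
  have hwT : w ∈ T := by
    have := hfT w hw
    rw [hfw] at this
    exact this
  have hcomp : (cl T w) ∘ f = cl R w := by
    funext a
    show cl T w (f a) = cl R w a
    unfold cl
    by_cases ha : a ∈ R
    · rw [if_pos ha, if_pos (hfT a ha)]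
    · rw [if_neg ha, hf1 a ha, if_neg fun h => ha (hTR h)]
  have hren : ∀ p : P3 V, rename (cl T w) (rename f p) = rename (cl R w) p := by
    intro p
    rw [rename_rename, hcomp]
  have ha' : rename (cl T w) (rename f q) ∈ I3 V := by
    rw [hren]
    exact ha
  have hb' : rename (cl T w) (∑ r ∈ T, C (c r) * pderiv r (rename f q)) ∈ I3 V := by
    have h1 : ∀ r ∈ T, rename (cl T w) (C (c r) * pderiv r (rename f q)) =
        ∑ z ∈ R.filter (fun z => f z = r), C (c z) * rename (cl R w) (pderiv z q) := by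
      intro r hr
      rw [pderiv_rename_sum f r R (fun z hz => ?_) q, map_mul, rename_C, map_sum, Finset.mul_sum]
      · refine Finset.sum_congr rfl fun z hz => ?_
        rw [Finset.mem_filter] at hz
        rw [hren, ← hz.2, (hf2 z hz.1).2]
      · by_contra hzR
        rw [hf1 z hzR] at hz
        exact hzR (hz ▸ hTR hr)
    rw [map_sum, Finset.sum_congr rfl h1, Finset.sum_fiberwise_of_maps_to fun a ha => hfT a ha]
    rw [map_sum] at hb
    refine Eq.subst (motive := fun p => p ∈ I3 V) ?_ hb
    refine Finset.sum_congr rfl fun z _ => ?_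
    rw [map_mul, rename_C]
  have hge : 2 ≤ T.card := by
    have h1 : ({f u, f v} : Finset V) ⊆ T := by
      intro x hx
      rw [Finset.mem_insert, Finset.mem_singleton] at hx
      rcases hx with h | h
      · rw [h]
        exact hfT u hu
      · rw [h]
        exact hfT v hv
    have h2 := Finset.card_le_card h1
    rw [Finset.card_pair huv] at h2
    exact h2
  have hnc : ∀ x ∈ T, ∀ y ∈ T, x ≠ y → c x ≠ c y := fun x hx y hy h h' => h (hinj x hx y hy h')
  rcases (show T.card = 2 ∨ T.card = 3 by omega) with h2 | h3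
  · obtain ⟨y, hy, hTy⟩ : ∃ y, w ≠ y ∧ T = {w, y} := by
      have h1 : (T.erase w).card = 1 := by rw [Finset.card_erase_of_mem hwT, h2]
      obtain ⟨y, hy⟩ := Finset.card_eq_one.1 h1
      have h4 : y ∈ T.erase w := by rw [hy]; exact Finset.mem_singleton_self y
      refine ⟨y, (Finset.ne_of_mem_erase h4).symm, ?_⟩
      rw [← Finset.insert_erase hwT, hy]
    have hyT : y ∈ T := by
      rw [hTy]
      exact Finset.mem_insert_of_mem (Finset.mem_singleton_self y)
    refine ⟨f, T, {(w, y)}, hf1, hfT, hTR, huv, hcard, ?_, ?_, ?_, ?_⟩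
    · intro e he
      rw [Multiset.mem_singleton] at he
      rw [he]
      exact ⟨hwT, hyT⟩
    · intro Y _ hY1
      show ec ((w, y) ::ₘ 0) Y = 0
      rw [ec_cons_neg _ _ _ (not_in_one hy hY1), ec_zero']
    · intro Y _ hY2
      have h4 := ec_le_card ({(w, y)} : Multiset (V × V)) Y
      rw [Multiset.card_singleton] at h4
      omega
    · have h4 : gp ({(w, y)} : Multiset (V × V)) = X w - X y := by
        unfold gp
        rw [Multiset.map_singleton, Multiset.prod_singleton]
      rw [h4]
      refine gadget_two w y hy c (hnc w hwT y hyT hy) _ ?_ ?_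
      · rw [← hTy]
        exact ha'
      · rw [← hTy]
        refine Eq.subst (motive := fun p => rename (cl T w) p ∈ I3 V) ?_ hb'
        have h5 : ∀ g : V → P3 V, ∑ r ∈ T, g r = g w + g y := by
          intro g
          rw [hTy]
          exact Finset.sum_pair hy
        rw [h5]
  · obtain ⟨y, z, hwy, hwz, hyz, hTy⟩ : ∃ y z, w ≠ y ∧ w ≠ z ∧ y ≠ z ∧ T = {w, y, z} := by
      have h1 : (T.erase w).card = 2 := by rw [Finset.card_erase_of_mem hwT, h3]
      obtain ⟨y, z, hyz, hy⟩ := Finset.card_eq_two.1 h1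
      have h4 : y ∈ T.erase w := by rw [hy]; exact Finset.mem_insert_self y _
      have h5 : z ∈ T.erase w := by
        rw [hy]
        exact Finset.mem_insert_of_mem (Finset.mem_singleton_self z)
      refine ⟨y, z, (Finset.ne_of_mem_erase h4).symm, (Finset.ne_of_mem_erase h5).symm, hyz, ?_⟩
      rw [← Finset.insert_erase hwT, hy]
    have hyT : y ∈ T := by
      rw [hTy]
      exact Finset.mem_insert_of_mem (Finset.mem_insert_self y _)
    have hzT : z ∈ T := by
      rw [hTy]
      exact Finset.mem_insert_of_mem (Finset.mem_insert_of_mem (Finset.mem_singleton_self z))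
    refine ⟨f, T, (w, y) ::ₘ (y, z) ::ₘ (z, w) ::ₘ 0, hf1, hfT, hTR, huv, hcard, ?_, ?_, ?_, ?_⟩
    · intro e he
      rw [Multiset.mem_cons, Multiset.mem_cons, Multiset.mem_cons] at he
      rcases he with he | he | he | he
      · rw [he]
        exact ⟨hwT, hyT⟩
      · rw [he]
        exact ⟨hyT, hzT⟩
      · rw [he]
        exact ⟨hzT, hwT⟩
      · exact absurd he (Multiset.notMem_zero e)
    · intro Y _ hY1
      rw [ec_cons_neg _ _ _ (not_in_one hwy hY1), ec_cons_neg _ _ _ (not_in_one hyz hY1),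
        ec_cons_neg _ _ _ (not_in_one hwz.symm hY1), ec_zero']
    · intro Y hYT hY2
      have h4 := ec_le_card ((w, y) ::ₘ (y, z) ::ₘ (z, w) ::ₘ 0 : Multiset (V × V)) Y
      rw [Multiset.card_cons, Multiset.card_cons, Multiset.card_cons, Multiset.card_zero] at h4
      rcases (show Y.card = 2 ∨ 3 ≤ Y.card by omega) with h5 | h5
      · have h6 : ∃ x ∈ T, x ∉ Y := by
          by_contra hcon
          push Not at hcon
          have h7 : T ⊆ Y := hcon
          have := Finset.card_le_card h7
          omega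
        obtain ⟨x, hx, hxY⟩ := h6
        have h7 : ec ((w, y) ::ₘ (y, z) ::ₘ (z, w) ::ₘ 0 : Multiset (V × V)) Y ≤ 1 := by
          rw [hTy, Finset.mem_insert, Finset.mem_insert, Finset.mem_singleton] at hx
          rcases hx with hx | hx | hx
          · subst hx
            rw [ec_cons_neg _ _ _ (fun h => hxY h.1)]
            have h8 : ec ((y, z) ::ₘ (z, x) ::ₘ 0 : Multiset (V × V)) Y =
                ec ((y, z) ::ₘ 0 : Multiset (V × V)) Y := by
              rw [Multiset.cons_swap, ec_cons_neg _ _ _ (fun h => hxY h.2)]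
            rw [h8]
            exact ec_le_card _ _
          · subst hx
            rw [ec_cons_neg _ _ _ (fun h => hxY h.2), ec_cons_neg _ _ _ (fun h => hxY h.1)]
            exact ec_le_card _ _
          · subst hx
            have h8 : ec ((w, y) ::ₘ (y, x) ::ₘ (x, w) ::ₘ 0 : Multiset (V × V)) Y =
                ec ((w, y) ::ₘ 0 : Multiset (V × V)) Y := by
              rw [Multiset.cons_swap (w, y) (y, x), ec_cons_neg _ _ _ (fun h => hxY h.2),
                Multiset.cons_swap, ec_cons_neg _ _ _ (fun h => hxY h.1)]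
            rw [h8]
            exact ec_le_card _ _
        omega
      · omega
    · have h4 : gp ((w, y) ::ₘ (y, z) ::ₘ (z, w) ::ₘ 0 : Multiset (V × V)) =
          (X w - X y) * (X y - X z) * (X z - X w) := by
        unfold gp
        rw [Multiset.map_cons, Multiset.map_cons, Multiset.map_cons, Multiset.map_zero,
          Multiset.prod_cons, Multiset.prod_cons, Multiset.prod_cons, Multiset.prod_zero]
        ring
      rw [h4]
      refine gadget_three w y z hwy hwz hyz c (hnc w hwT y hyT hwy) (hnc w hwT z hzT hwz)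
        (hnc y hyT z hzT hyz) _ ?_ ?_
      · rw [← hTy]
        exact ha'
      · rw [← hTy]
        refine Eq.subst (motive := fun p => rename (cl T w) p ∈ I3 V) ?_ hb'
        have h5 : ∀ g : V → P3 V, ∑ r ∈ T, g r = g w + g y + g z := by
          intro g
          rw [hTy, Finset.sum_insert, Finset.sum_pair hyz, add_assoc]
          rw [Finset.mem_insert, Finset.mem_singleton]
          rintro (h | h)
          · exact hwy h
          · exact hwz h
        rw [h5]

end Pool.Agent.W_fb73a4_h57
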