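import Pool.Agent.W_fb73a4_h57.KF
import Pool.Agent.W_fb73a4_h57.KI

/-! KJ: the gadget. -/

set_option autoImplicit false

namespace Pool.Agent.W_fb73a4_h57

open MvPolynomial

variable {V : Type} [DecidableEq V]

theorem gadget (R : Finset V) (E1 E2 : Multiset (V × V)) (h1 : Ins E1 R) (u v : V) (hu : u ∈ R)
    (hv : v ∈ R) (hn : (X u - X v) * gp E1 ∉ I3 V) (h : gp (E1 + E2) ∈ I3 V) :
    ∃ (f : V → V) (T : Finset V) (K : Multiset (V × V)), (∀ a, a ∉ R → f a = a) ∧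
      (∀ a ∈ R, f a ∈ T) ∧ T ⊆ R ∧ f u ≠ f v ∧ T.card ≤ 3 ∧ Ins K T ∧
      (∀ Y ⊆ T, Y.card = 1 → ec K Y = 0) ∧ (∀ Y ⊆ T, 2 ≤ Y.card → 3 * ec K Y + 6 ≤ 5 * Y.card) ∧
      gp (mp f E2 + K) ∈ I3 V := by
  rw [gp_add] at h
  obtain ⟨c, hc, ha, hb⟩ := two_cond R u hu E1 h1 u v hu hv hn (gp E2) h
  obtain ⟨f, T, K, g1, g2, g3, g4, g5, g6, g7, g8, g9⟩ :=
    classes R u hu c u v hu hv hc (gp E2) ha hb
  refine ⟨f, T, K, g1, g2, g3, g4, g5, g6, g7, g8, ?_⟩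
  rw [gp_add, gp_mp, mul_comm]
  exact g9

end Pool.Agent.W_fb73a4_h57
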