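import Pool.Agent.W_fb73a4_h57.KA

/-! KK: coefficients with respect to one or two variables. -/

set_option autoImplicit false

namespace Pool.Agent.W_fb73a4_h57

open MvPolynomial

variable {V : Type}

private theorem kK_supp {s : Set V} {q : P3 V} (hq : q ∈ supported (ZMod 3) s) {d : V →₀ ℕ}
    {v : V} (hv : v ∉ s) (hd : d v ≠ 0) : coeff d q = 0 := by
  by_contra hne
  have h1 : v ∈ q.vars := (mem_vars_iff_mem_support v).2 ⟨d, mem_support_iff.2 hne, Finsupp.mem_support_iff.2 hd⟩
  exact hv (mem_supported.1 hq h1)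

private theorem kK_coeff {x : V} {q : P3 V} (hq : q ∈ supported (ZMod 3) ({x}ᶜ : Set V)) (j : ℕ)
    (e : V →₀ ℕ) (he : e x = 0) (i : ℕ) :
    coeff (e + Finsupp.single x i) (q * X x ^ j) = if j = i then coeff e q else 0 := by
  classical
  rw [X_pow_eq_monomial, coeff_mul_monomial', mul_one]
  by_cases hji : j = i
  · subst hji
    rw [if_pos (le_add_of_nonneg_left zero_le), if_pos rfl, add_tsub_cancel_right]
  · rw [if_neg hji]
    by_cases hle : Finsupp.single x j ≤ e + Finsupp.single x i
    · rw [if_pos hle]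
      have h1 : j ≤ i := by
        have h2 := hle x
        simpa [he] using h2
      refine kK_supp hq (v := x) (by simp) ?_
      rw [Finsupp.tsub_apply, Finsupp.add_apply, he, Finsupp.single_eq_same,
        Finsupp.single_eq_same]
      omega
    · rw [if_neg hle]

/-- `mem_I3_iff`: let `e` have values `≤ 2`. If `e x ≠ 0` then `coeff e (q i) = 0` (supported).
If `e x = 0`, the coefficient of the sum at `e + single x i` is `coeff e (q i)`
(`coeff_mul_X'`-type lemma, or `X x ^ j = monomial (single x j) 1` and `coeff_mul_monomial'`; the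
terms `j ≠ i` give `0` because `q j` does not contain `X x`). -/
theorem coeff_free (x : V) (n : ℕ) (q : ℕ → P3 V)
    (hq : ∀ i, q i ∈ supported (ZMod 3) ({x}ᶜ : Set V))
    (h : ∑ i ∈ Finset.range n, q i * X x ^ i ∈ I3 V) : ∀ i, i < n → i ≤ 2 → q i ∈ I3 V := by
  classical
  intro i hin hi2
  rw [mem_I3_iff]
  intro e he
  by_cases hx : e x = 0
  · have h1 := (mem_I3_iff _).1 h (e + Finsupp.single x i) (by
      intro v
      rw [Finsupp.add_apply]
      by_cases hv : v = x
      · subst hv
        rw [hx, Finsupp.single_eq_same]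
        omega
      · rw [Finsupp.single_eq_of_ne hv]
        exact he v)
    rw [coeff_sum, Finset.sum_congr rfl fun j _ => kK_coeff (hq j) j e hx i,
      Finset.sum_ite_eq', if_pos (Finset.mem_range.2 hin)] at h1
    exact h1
  · exact kK_supp (hq i) (v := x) (by simp) hx

/-- the same with two variables: coefficient at `e + single x i + single y j`. -/
theorem coeff_free2 (x y : V) (hxy : x ≠ y) (n : ℕ) (q : ℕ → ℕ → P3 V)
    (hq : ∀ i j, q i j ∈ supported (ZMod 3) ({x, y}ᶜ : Set V))
    (h : ∑ i ∈ Finset.range n, ∑ j ∈ Finset.range n, q i j * X x ^ i * X y ^ j ∈ I3 V) :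
    ∀ i j, i < n → j < n → i ≤ 2 → j ≤ 2 → q i j ∈ I3 V := by
  intro i j hi hj hi2 hj2
  have h1 : ∑ j ∈ Finset.range n, (∑ i ∈ Finset.range n, q i j * X x ^ i) * X y ^ j ∈ I3 V := by
    have h2 : ∑ j ∈ Finset.range n, (∑ i ∈ Finset.range n, q i j * X x ^ i) * X y ^ j =
        ∑ i ∈ Finset.range n, ∑ j ∈ Finset.range n, q i j * X x ^ i * X y ^ j := by
      rw [Finset.sum_comm]
      exact Finset.sum_congr rfl fun j _ => Finset.sum_mul _ _ _
    rw [h2]
    exact h
  have h3 : ∑ i ∈ Finset.range n, q i j * X x ^ i ∈ I3 V := by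
    refine coeff_free y n (fun j => ∑ i ∈ Finset.range n, q i j * X x ^ i) (fun j => ?_) h1 j hj hj2
    refine Subalgebra.sum_mem _ fun i _ => Subalgebra.mul_mem _ ?_ (Subalgebra.pow_mem _ ?_ _)
    · exact supported_mono (by
        intro v hv h4
        exact hv (Or.inr h4)) (hq i j)
    · exact Algebra.subset_adjoin ⟨x, fun h4 => hxy h4, rfl⟩
  exact coeff_free x n (fun i => q i j) (fun i => supported_mono (by
        intro v hv h4
        exact hv (Or.inl h4)) (hq i j)) h3 i hi hi2

end Pool.Agent.W_fb73a4_h57
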