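import Pool.Agent.W_fb73a4_h57.KK

/-! KL: the reducible configurations, algebraic part. -/

set_option autoImplicit false

namespace Pool.Agent.W_fb73a4_h57

open MvPolynomial

variable {V : Type}

/-- a list of four coefficients -/
private noncomputable def KL_F (a b c d : P3 V) : ℕ → P3 V
  | 0 => a
  | 1 => b
  | 2 => c
  | 3 => d
  | _ => 0

private theorem KL_F_mem {S : Set V} {a b c d : P3 V} (ha : a ∈ supported (ZMod 3) S)
    (hb : b ∈ supported (ZMod 3) S) (hc : c ∈ supported (ZMod 3) S)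
    (hd : d ∈ supported (ZMod 3) S) (i : ℕ) : KL_F a b c d i ∈ supported (ZMod 3) S := by
  match i with
  | 0 => exact ha
  | 1 => exact hb
  | 2 => exact hc
  | 3 => exact hd
  | n + 4 => exact zero_mem _

private theorem KL_two {x y : V} (hxy : x ≠ y) {A B C D Q : P3 V}
    (hA : A ∈ supported (ZMod 3) ({x, y}ᶜ : Set V)) (hB : B ∈ supported (ZMod 3) ({x, y}ᶜ : Set V))
    (hC : C ∈ supported (ZMod 3) ({x, y}ᶜ : Set V)) (hD : D ∈ supported (ZMod 3) ({x, y}ᶜ : Set V))
    (hQ : Q ∈ supported (ZMod 3) ({x, y}ᶜ : Set V))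
    (h : (X x - X y) * (X x ^ 2 - A * X x + B) * (X y ^ 2 - C * X y + D) * Q ∈ I3 V) :
    (C - A) * Q ∈ I3 V ∧ (B - A * C) * Q ∈ I3 V := by
  have h0 : (0 : P3 V) ∈ supported (ZMod 3) ({x, y}ᶜ : Set V) := zero_mem _
  have h1 : (1 : P3 V) ∈ supported (ZMod 3) ({x, y}ᶜ : Set V) := one_mem _
  have key := coeff_free2 x y hxy 4
    (fun i j => (KL_F 0 B (-A) 1 i * KL_F D (-C) 1 0 j -
      KL_F B (-A) 1 0 i * KL_F 0 D (-C) 1 j) * Q)
    (fun i j => mul_mem (sub_mem
      (mul_mem (KL_F_mem h0 hB (neg_mem hA) h1 i) (KL_F_mem hD (neg_mem hC) h1 h0 j))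
      (mul_mem (KL_F_mem hB (neg_mem hA) h1 h0 i) (KL_F_mem h0 hD (neg_mem hC) h1 j))) hQ)
    (by
      refine (congrArg (fun p => p ∈ I3 V) ?_).mpr h
      simp only [Finset.sum_range_succ, Finset.sum_range_zero, KL_F]
      ring)
  constructor
  · have h2 := key 2 2 (by norm_num) (by norm_num) le_rfl le_rfl
    simp only [KL_F] at h2
    refine (congrArg (fun p => p ∈ I3 V) ?_).mp h2
    ring
  · have h2 := key 1 2 (by norm_num) (by norm_num) (by norm_num) le_rfl
    simp only [KL_F] at h2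
    refine (congrArg (fun p => p ∈ I3 V) ?_).mp h2
    ring

private theorem KL_X {x y u : V} (h1 : u ≠ x) (h2 : u ≠ y) :
    (X u : P3 V) ∈ supported (ZMod 3) ({x, y}ᶜ : Set V) := by
  rw [X_mem_supported]
  simp [h1, h2]

/-- `N = 0`, `{a}` or `{a, b}`: `st x N` is `1`, `X x - X a`, `(X x - X a) (X x - X b)`, a monic
polynomial of degree `≤ 2` in `X x`; use `coeff_free` with `i = card N` (`q i = Q`). -/
theorem alg_deg (x : V) (N : Multiset V) (hN : Multiset.card N ≤ 2) (hx : x ∉ N) (Q : P3 V)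
    (hQ : Q ∈ supported (ZMod 3) ({x}ᶜ : Set V)) (h : st x N * Q ∈ I3 V) : Q ∈ I3 V := by
  have hX : ∀ a, a ≠ x → (X a : P3 V) ∈ supported (ZMod 3) ({x}ᶜ : Set V) := fun a ha => by
    rw [X_mem_supported]
    simpa using ha
  have h0 : (0 : P3 V) ∈ supported (ZMod 3) ({x}ᶜ : Set V) := zero_mem _
  have h1 : (1 : P3 V) ∈ supported (ZMod 3) ({x}ᶜ : Set V) := one_mem _
  have hc : Multiset.card N = 0 ∨ Multiset.card N = 1 ∨ Multiset.card N = 2 := by omega
  rcases hc with hc | hc | hc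
  · rw [Multiset.card_eq_zero] at hc
    subst hc
    simpa [st] using h
  · obtain ⟨a, rfl⟩ := Multiset.card_eq_one.1 hc
    have ha : a ≠ x := fun e => hx (by simp [e])
    have key := coeff_free x 2 (fun i => KL_F (-X a) 1 0 0 i * Q)
      (fun i => mul_mem (KL_F_mem (neg_mem (hX a ha)) h1 h0 h0 i) hQ) (by
        refine (congrArg (fun p => p ∈ I3 V) ?_).mpr h
        simp only [Finset.sum_range_succ, Finset.sum_range_zero, KL_F, st, Multiset.map_singleton,
          Multiset.prod_singleton]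
        ring) 1 (by norm_num) (by norm_num)
    simpa [KL_F] using key
  · obtain ⟨a, b, rfl⟩ := Multiset.card_eq_two.1 hc
    have ha : a ≠ x := fun e => hx (by simp [e])
    have hb : b ≠ x := fun e => hx (by simp [e])
    have key := coeff_free x 3 (fun i => KL_F (X a * X b) (-(X a + X b)) 1 0 i * Q)
      (fun i => mul_mem (KL_F_mem (mul_mem (hX a ha) (hX b hb))
        (neg_mem (add_mem (hX a ha) (hX b hb))) h1 h0 i) hQ) (by
        refine (congrArg (fun p => p ∈ I3 V) ?_).mpr h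
        simp only [Finset.sum_range_succ, Finset.sum_range_zero, KL_F, st,
          Multiset.insert_eq_cons, Multiset.map_cons, Multiset.prod_cons, Multiset.map_singleton,
          Multiset.prod_singleton]
        ring) 2 (by norm_num) le_rfl
    simpa [KL_F] using key

/-- The left side is a polynomial in `X x`, `X y` of degrees `≤ 3`; use `coeff_free2` with `n = 4`
and `q i j = (explicit polynomial in X z, X u, X v) * Q`. With `(X x - X z)(X x - X u) = X x^2 -
(z+u) X x + z u` and `(X y - X z)(X y - X v) = X y^2 - (z+v) X y + z v`, times `X x - X y`, the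
coefficient of `X x^2 X y^2` is `-(z+u) + (z+v) = v - u` (`X z, X u, X v` written `z, u, v`). -/
theorem alg_tri (x y z u v : V) (hxy : x ≠ y) (hzx : z ≠ x) (hzy : z ≠ y) (hux : u ≠ x)
    (huy : u ≠ y) (hvx : v ≠ x) (hvy : v ≠ y) (Q : P3 V)
    (hQ : Q ∈ supported (ZMod 3) ({x, y}ᶜ : Set V))
    (h : (X x - X y) * (X x - X z) * (X x - X u) * ((X y - X z) * (X y - X v)) * Q ∈ I3 V) :
    (X u - X v) * Q ∈ I3 V := by
  have hz := KL_X (x := x) (y := y) hzx hzy
  have hu := KL_X (x := x) (y := y) hux huy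
  have hv := KL_X (x := x) (y := y) hvx hvy
  have key := (KL_two hxy (add_mem hz hu) (mul_mem hz hu) (add_mem hz hv) (mul_mem hz hv) hQ (by
    refine (congrArg (fun p => p ∈ I3 V) ?_).mpr h
    ring)).1
  refine (congrArg (fun p => p ∈ I3 V) ?_).mp (neg_mem key)
  ring

/-- `coeff_free2` with `n = 4`. Let `α = X u + X v`, `β = X u * X v`, `γ = X s + X t`,
`δ = X s * X t`: `(X x - X y) (X x^2 - α X x + β) (X y^2 - γ X y + δ)` has
`q 2 2 = (γ - α) Q` and `q 1 2 = (β - α γ) Q`, both in `I3`. Then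
`(X u - X v)^2 Q = (α^2 - 4 β) Q = (α^2 - 4 α γ) Q = (α^2 - 4 α^2) Q = -3 α^2 Q = 0` modulo `I3`:
explicitly `(α^2 - 4β) Q = -4 (β - α γ) Q - 4 α (γ - α) Q - 3 α^2 Q` and `3 = 0`. -/
theorem alg_adj (x y u v s t : V) (hxy : x ≠ y) (hux : u ≠ x) (huy : u ≠ y) (hvx : v ≠ x)
    (hvy : v ≠ y) (hsx : s ≠ x) (hsy : s ≠ y) (htx : t ≠ x) (hty : t ≠ y) (Q : P3 V)
    (hQ : Q ∈ supported (ZMod 3) ({x, y}ᶜ : Set V))
    (h : (X x - X y) * (X x - X u) * (X x - X v) * ((X y - X s) * (X y - X t)) * Q ∈ I3 V) :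
    (X u - X v) ^ 2 * Q ∈ I3 V := by
  have hu := KL_X (x := x) (y := y) hux huy
  have hv := KL_X (x := x) (y := y) hvx hvy
  have hs := KL_X (x := x) (y := y) hsx hsy
  have ht := KL_X (x := x) (y := y) htx hty
  have key := KL_two hxy (add_mem hu hv) (mul_mem hu hv) (add_mem hs ht) (mul_mem hs ht) hQ (by
    refine (congrArg (fun p => p ∈ I3 V) ?_).mpr h
    ring)
  have h3 : (3 : P3 V) = 0 := by
    have h4 : ((3 : ZMod 3)) = 0 := by decide
    have h5 : (3 : P3 V) = C (3 : ZMod 3) := (map_ofNat C 3).symm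
    rw [h5, h4, map_zero]
  have e : (X u - X v) ^ 2 * Q = (-4 : P3 V) * ((X u * X v - (X u + X v) * (X s + X t)) * Q) +
      (-4 * (X u + X v)) * ((X s + X t - (X u + X v)) * Q) - 3 * ((X u + X v) ^ 2 * Q) := by
    ring
  rw [e, h3, zero_mul, sub_zero]
  exact add_mem (Ideal.mul_mem_left _ _ key.2) (Ideal.mul_mem_left _ _ key.1)

end Pool.Agent.W_fb73a4_h57
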