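import Pool.Agent.W_fb73a4_h57.KDefs

/-! KMb: multiset bookkeeping: counting edges. -/

set_option autoImplicit false

namespace Pool.Agent.W_fb73a4_h57

variable {V : Type} [DecidableEq V]

private theorem KMb_ec_cons (e : V × V) (E : Multiset (V × V)) (W : Finset V) :
    ec (e ::ₘ E) W = ec E W + if e.1 ∈ W ∧ e.2 ∈ W then 1 else 0 := by
  unfold ec
  exact Multiset.countP_cons _ _ _

private theorem KMb_ec_zero (W : Finset V) : ec (0 : Multiset (V × V)) W = 0 := by
  unfold ec
  simp

theorem ec_add (E F : Multiset (V × V)) (W : Finset V) : ec (E + F) W = ec E W + ec F W := by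
  unfold ec
  exact Multiset.countP_add _ _ _

theorem ec_mono (E : Multiset (V × V)) {W W' : Finset V} (h : W ⊆ W') : ec E W ≤ ec E W' := by
  unfold ec
  rw [Multiset.countP_eq_card_filter, Multiset.countP_eq_card_filter]
  apply Multiset.card_le_card
  exact Multiset.monotone_filter_right _ (fun e he => ⟨h he.1, h he.2⟩)

theorem ec_eq_card (E : Multiset (V × V)) (S : Finset V) (h : Ins E S) :
    ec E S = Multiset.card E := by
  unfold ec
  rw [Multiset.countP_eq_card]
  exact fun e he => h e he

theorem ec_single (a b : V) (W : Finset V) :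
    ec {(a, b)} W = if a ∈ W ∧ b ∈ W then 1 else 0 := by
  rw [← Multiset.cons_zero, KMb_ec_cons, KMb_ec_zero, Nat.zero_add]

theorem ec_de (E : Multiset (V × V)) (x : V) (W : Finset V) (hx : x ∉ W) :
    ec (de E x) W = ec E W := by
  unfold ec de
  rw [Multiset.countP_filter]
  apply Multiset.countP_congr rfl
  intro e _
  apply propext
  constructor
  · exact fun h => h.1
  · intro h
    refine ⟨h, ?_, ?_⟩
    · rintro rfl
      exact hx h.1
    · rintro rfl
      exact hx h.2

private theorem KMb_nb_cons (e : V × V) (E : Multiset (V × V)) (x : V) (he : e ≠ (x, x)) :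
    nb (e ::ₘ E) x = nb E x + if e.1 = x then {e.2} else if e.2 = x then {e.1} else 0 := by
  unfold nb
  rw [Multiset.filter_cons, Multiset.filter_cons, Multiset.map_add, Multiset.map_add]
  by_cases h1 : e.1 = x
  · have h2 : e.2 ≠ x := by
      intro h2
      apply he
      ext
      · exact h1
      · exact h2
    rw [if_pos h1, if_pos h1, if_neg h2, Multiset.map_zero, Multiset.map_singleton, zero_add]
    abel
  · rw [if_neg h1, if_neg h1, Multiset.map_zero, zero_add]
    by_cases h2 : e.2 = x
    · rw [if_pos h2, if_pos h2, Multiset.map_singleton]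
      abel
    · rw [if_neg h2, if_neg h2, Multiset.map_zero]
      abel

private theorem KMb_nb_zero (x : V) : nb (0 : Multiset (V × V)) x = 0 := by
  unfold nb
  simp

/-- `Multiset.countP` of the neighbours in `W` -/
theorem ec_insert (E : Multiset (V × V)) (x : V) (hl : (x, x) ∉ E) (W : Finset V) (hx : x ∉ W) :
    ec E (insert x W) = ec E W + (nb E x).countP (fun u => u ∈ W) := by
  induction E using Multiset.induction_on with
  | empty => rw [KMb_ec_zero, KMb_ec_zero, KMb_nb_zero]; simp
  | cons e E ih =>
    have he : e ≠ (x, x) := by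
      rintro rfl
      exact hl (Multiset.mem_cons_self _ _)
    have hl' : (x, x) ∉ E := fun h => hl (Multiset.mem_cons_of_mem h)
    rw [KMb_ec_cons, KMb_ec_cons, KMb_nb_cons e E x he, ih hl', Multiset.countP_add]
    have key : (if e.1 ∈ insert x W ∧ e.2 ∈ insert x W then 1 else 0) =
        (if e.1 ∈ W ∧ e.2 ∈ W then 1 else 0) +
        Multiset.countP (fun u => u ∈ W)
          (if e.1 = x then ({e.2} : Multiset V) else if e.2 = x then {e.1} else 0) := by
      by_cases h1 : e.1 = x
      · have h2 : e.2 ≠ x := by
          intro h2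
          apply he
          ext
          · exact h1
          · exact h2
        rw [if_pos h1]
        have h3 : e.1 ∉ W := by rw [h1]; exact hx
        rw [if_neg (fun h : e.1 ∈ W ∧ e.2 ∈ W => h3 h.1)]
        by_cases h4 : e.2 ∈ W
        · rw [if_pos ⟨by rw [h1]; exact Finset.mem_insert_self _ _, Finset.mem_insert_of_mem h4⟩]
          rw [← Multiset.cons_zero, Multiset.countP_cons, if_pos h4]
          simp
        · rw [if_neg]
          · rw [← Multiset.cons_zero, Multiset.countP_cons, if_neg h4]
            simp
          · rintro ⟨_, h⟩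
            rcases Finset.mem_insert.1 h with h | h
            · exact h2 h
            · exact h4 h
      · rw [if_neg h1]
        by_cases h2 : e.2 = x
        · rw [if_pos h2]
          have h3 : e.2 ∉ W := by rw [h2]; exact hx
          rw [if_neg (fun h : e.1 ∈ W ∧ e.2 ∈ W => h3 h.2)]
          by_cases h4 : e.1 ∈ W
          · rw [if_pos ⟨Finset.mem_insert_of_mem h4, by rw [h2]; exact Finset.mem_insert_self _ _⟩]
            rw [← Multiset.cons_zero, Multiset.countP_cons, if_pos h4]
            simp
          · rw [if_neg]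
            · rw [← Multiset.cons_zero, Multiset.countP_cons, if_neg h4]
              simp
            · rintro ⟨h, _⟩
              rcases Finset.mem_insert.1 h with h | h
              · exact h1 h
              · exact h4 h
        · rw [if_neg h2, Multiset.countP_zero, add_zero]
          congr 1
          apply propext
          rw [Finset.mem_insert, Finset.mem_insert]
          constructor
          · rintro ⟨h | h, h' | h'⟩
            · exact absurd h h1
            · exact absurd h h1
            · exact absurd h' h2
            · exact ⟨h, h'⟩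
          · rintro ⟨h, h'⟩
            exact ⟨Or.inr h, Or.inr h'⟩
    rw [key]
    omega

/-- `inn E R` and `out E R` -/
theorem inn_add_out (E : Multiset (V × V)) (R : Finset V) : inn E R + out E R = E := by
  unfold inn out
  exact Multiset.filter_add_not _ _

theorem ec_inn (E : Multiset (V × V)) (R W : Finset V) (h : W ⊆ R) : ec (inn E R) W = ec E W := by
  unfold ec inn
  rw [Multiset.countP_filter]
  apply Multiset.countP_congr rfl
  intro e _
  apply propext
  constructor
  · exact fun h => h.1
  · exact fun he => ⟨he, h he.1, h he.2⟩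

theorem ec_inn' (E : Multiset (V × V)) (R W : Finset V) (h : R ⊆ W) : ec (inn E R) W = ec E R := by
  unfold ec inn
  rw [Multiset.countP_filter]
  apply Multiset.countP_congr rfl
  intro e _
  apply propext
  constructor
  · exact fun h => h.2
  · exact fun he => ⟨⟨h he.1, h he.2⟩, he⟩

theorem ec_mp (f : V → V) (E : Multiset (V × V)) (W : Finset V) :
    ec (mp f E) W = E.countP fun e => f e.1 ∈ W ∧ f e.2 ∈ W := by
  unfold ec mp
  rw [Multiset.countP_map, ← Multiset.countP_eq_card_filter]
  rfl

private theorem KMb_mp_out_le (E : Multiset (V × V)) (R W Y : Finset V) (f : V → V) (hRW : R ⊆ W)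
    (hf : ∀ a, f a ∈ Y → a ∈ W) : ec (mp f (out E R)) Y + ec E R ≤ ec E W := by
  rw [ec_mp]
  have h1 : ec E R = ec (inn E R) W := (ec_inn' E R W hRW).symm
  have h2 : ec E W = ec (inn E R) W + ec (out E R) W := by
    rw [← ec_add, inn_add_out]
  rw [h1, h2, add_comm]
  apply Nat.add_le_add_left
  unfold ec
  rw [Multiset.countP_eq_card_filter, Multiset.countP_eq_card_filter]
  apply Multiset.card_le_card
  exact Multiset.monotone_filter_right _ (fun e he => ⟨hf _ he.1, hf _ he.2⟩)

/-- counting: with `R ⊆ W` and `f` such that `f a ∈ Y → a ∈ W` for all `a`,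
`ec (mp f (out E R)) Y + ec E R ≤ ec E W`. -/
theorem ec_mp_out_le (E : Multiset (V × V)) (R W Y : Finset V) (f : V → V) (hRW : R ⊆ W)
    (hf : ∀ a, f a ∈ Y → a ∈ W) : ec (mp f (out E R)) Y + ec E R ≤ ec E W := by
  exact KMb_mp_out_le E R W Y f hRW hf

/-- the same with one edge more: `e ∈ out E R` lies inside `W` but not both images are in `Y`. -/
theorem ec_mp_out_lt (E : Multiset (V × V)) (R W Y : Finset V) (f : V → V) (hRW : R ⊆ W)
    (hf : ∀ a, f a ∈ Y → a ∈ W) (e : V × V) (he : e ∈ out E R) (he1 : e.1 ∈ W) (he2 : e.2 ∈ W)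
    (hn : ¬ (f e.1 ∈ Y ∧ f e.2 ∈ Y)) : ec (mp f (out E R)) Y + ec E R + 1 ≤ ec E W := by
  rw [ec_mp]
  have h1 : ec E R = ec (inn E R) W := (ec_inn' E R W hRW).symm
  have h2 : ec E W = ec (inn E R) W + ec (out E R) W := by
    rw [← ec_add, inn_add_out]
  obtain ⟨F, hF⟩ := Multiset.exists_cons_of_mem he
  rw [h1, h2, hF, Multiset.countP_cons, if_neg hn, KMb_ec_cons, if_pos ⟨he1, he2⟩]
  have h3 : Multiset.countP (fun e => f e.1 ∈ Y ∧ f e.2 ∈ Y) F ≤ ec F W := by
    unfold ec
    rw [Multiset.countP_eq_card_filter, Multiset.countP_eq_card_filter]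
    apply Multiset.card_le_card
    exact Multiset.monotone_filter_right _ (fun e he => ⟨hf _ he.1, hf _ he.2⟩)
  omega

private theorem KMb_card_nb_cons (e : V × V) (E : Multiset (V × V)) (x : V) :
    Multiset.card (nb (e ::ₘ E) x) =
      Multiset.card (nb E x) + ((if e.1 = x then 1 else 0) + (if e.2 = x then 1 else 0)) := by
  unfold nb
  rw [Multiset.card_add, Multiset.card_add, Multiset.card_map, Multiset.card_map,
    Multiset.card_map, Multiset.card_map, ← Multiset.countP_eq_card_filter,
    ← Multiset.countP_eq_card_filter, ← Multiset.countP_eq_card_filter,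
    ← Multiset.countP_eq_card_filter, Multiset.countP_cons, Multiset.countP_cons]
  omega

/-- handshake lemma: `Multiset.induction_on E`, or sum of the two counts over `S` -/
theorem sum_deg (E : Multiset (V × V)) (S : Finset V) (h : Ins E S) :
    ∑ x ∈ S, Multiset.card (nb E x) = 2 * Multiset.card E := by
  induction E using Multiset.induction_on with
  | empty => simp [KMb_nb_zero]
  | cons e E ih =>
    have he := h e (Multiset.mem_cons_self _ _)
    have hE : Ins E S := fun e' he' => h e' (Multiset.mem_cons_of_mem he')
    rw [Finset.sum_congr rfl (fun x _ => KMb_card_nb_cons e E x), Finset.sum_add_distrib, ih hE,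
      Finset.sum_add_distrib, Finset.sum_ite_eq, Finset.sum_ite_eq, if_pos he.1, if_pos he.2,
      Multiset.card_cons]
    omega

/-- two vertices: the multiplicity -/
theorem count_nb (E : Multiset (V × V)) (x u : V) (hxu : x ≠ u) (hx : (x, x) ∉ E)
    (hu : (u, u) ∉ E) : (nb E x).count u = ec E {x, u} := by
  have h0 : ec E {u} = 0 := by
    unfold ec
    rw [Multiset.countP_eq_zero]
    rintro ⟨a, b⟩ he ⟨h1, h2⟩
    rw [Finset.mem_singleton] at h1 h2
    simp only at h1 h2
    subst h1
    subst h2
    exact hu he
  have h1 := ec_insert E x hx {u} (by rw [Finset.mem_singleton]; exact hxu)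
  rw [h0, zero_add] at h1
  have h2 : (insert x {u} : Finset V) = {x, u} := rfl
  rw [h2] at h1
  rw [h1, Multiset.count]
  apply Multiset.countP_congr rfl
  intro y _
  rw [Finset.mem_singleton]
  exact propext eq_comm

end Pool.Agent.W_fb73a4_h57
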