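import Pool.Agent.W_fb73a4_h57.KC

/-! KMa: multiset bookkeeping: splitting off a vertex. -/

set_option autoImplicit false

namespace Pool.Agent.W_fb73a4_h57

open MvPolynomial

variable {V : Type} [DecidableEq V]

private theorem gp_cons (e : V × V) (E : Multiset (V × V)) :
    gp (e ::ₘ E) = (X e.1 - X e.2 : P3 V) * gp E := by
  unfold gp
  rw [Multiset.map_cons, Multiset.prod_cons]

private theorem st_cons (x u : V) (N : Multiset V) :
    st x (u ::ₘ N) = (X x - X u : P3 V) * st x N := by
  unfold st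
  rw [Multiset.map_cons, Multiset.prod_cons]

/-- Induction on `E` (`Multiset.induction_on`): an edge `(x, u)` contributes `X x - X u`, an edge
`(u, x)` contributes `X u - X x = -(X x - X u)`, the others go to `de E x`. -/
theorem gp_split (E : Multiset (V × V)) (x : V) (hl : (x, x) ∉ E) :
    ∃ k : ℕ, gp E = (-1) ^ k * (st x (nb E x) * gp (de E x)) := by
  induction E using Multiset.induction_on with
  | empty =>
    refine ⟨0, ?_⟩
    simp [gp, st, nb, de]
  | cons e E ih =>
    have hl' : (x, x) ∉ E := fun h => hl (Multiset.mem_cons_of_mem h)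
    obtain ⟨k, hk⟩ := ih hl'
    have hne : ¬ (e.1 = x ∧ e.2 = x) := by
      rintro ⟨h1, h2⟩
      apply hl
      have : e = (x, x) := Prod.ext h1 h2
      rw [this]
      exact Multiset.mem_cons_self _ _
    by_cases h1 : e.1 = x
    · have h2 : e.2 ≠ x := fun h2 => hne ⟨h1, h2⟩
      have hn : nb (e ::ₘ E) x = e.2 ::ₘ nb E x := by
        unfold nb
        rw [Multiset.filter_cons_of_pos (p := fun e : V × V => e.1 = x) _ h1, Multiset.filter_cons_of_neg (p := fun e : V × V => e.2 = x) _ h2,
          Multiset.map_cons, Multiset.cons_add]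
      have hd : de (e ::ₘ E) x = de E x := by
        unfold de
        rw [Multiset.filter_cons_of_neg]
        exact fun h => h.1 h1
      refine ⟨k, ?_⟩
      rw [gp_cons, hn, hd, st_cons, hk, h1]
      ring
    · by_cases h2 : e.2 = x
      · have hn : nb (e ::ₘ E) x = e.1 ::ₘ nb E x := by
          unfold nb
          rw [Multiset.filter_cons_of_neg (p := fun e : V × V => e.1 = x) _ h1,
            Multiset.filter_cons_of_pos (p := fun e : V × V => e.2 = x) _ h2, Multiset.map_cons,
            Multiset.add_cons]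
        have hd : de (e ::ₘ E) x = de E x := by
          unfold de
          rw [Multiset.filter_cons_of_neg]
          exact fun h => h.2 h2
        refine ⟨k + 1, ?_⟩
        rw [gp_cons, hn, hd, st_cons, hk, h2, pow_succ]
        ring
      · have hn : nb (e ::ₘ E) x = nb E x := by
          unfold nb
          rw [Multiset.filter_cons_of_neg (p := fun e : V × V => e.1 = x) _ h1,
            Multiset.filter_cons_of_neg (p := fun e : V × V => e.2 = x) _ h2]
        have hd : de (e ::ₘ E) x = e ::ₘ de E x := by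
          unfold de
          rw [Multiset.filter_cons_of_pos]
          exact ⟨h1, h2⟩
        refine ⟨k, ?_⟩
        rw [gp_cons, hn, hd, gp_cons, hk]
        ring

/-- `u ∈ nb E x ↔ (x, u) ∈ E ∨ (u, x) ∈ E` -/
theorem mem_nb (E : Multiset (V × V)) (x u : V) : u ∈ nb E x ↔ (x, u) ∈ E ∨ (u, x) ∈ E := by
  unfold nb
  rw [Multiset.mem_add, Multiset.mem_map, Multiset.mem_map]
  constructor
  · rintro (⟨⟨a, b⟩, he, hb⟩ | ⟨⟨a, b⟩, he, hb⟩)
    · rw [Multiset.mem_filter] at he
      simp only at he hb
      left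
      rw [← he.2, ← hb]
      exact he.1
    · rw [Multiset.mem_filter] at he
      simp only at he hb
      right
      rw [← he.2, ← hb]
      exact he.1
  · rintro (h | h)
    · exact Or.inl ⟨(x, u), Multiset.mem_filter.2 ⟨h, rfl⟩, rfl⟩
    · exact Or.inr ⟨(u, x), Multiset.mem_filter.2 ⟨h, rfl⟩, rfl⟩

theorem self_notMem_nb (E : Multiset (V × V)) (x : V) (hl : (x, x) ∉ E) : x ∉ nb E x := by
  rw [mem_nb, or_self]
  exact hl

theorem nb_symm (E : Multiset (V × V)) (x u : V) : u ∈ nb E x ↔ x ∈ nb E u := by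
  rw [mem_nb, mem_nb, or_comm]

theorem nb_de (E : Multiset (V × V)) (x y : V) (hxy : x ≠ y) :
    nb (de E x) y = (nb E y).filter (fun u => u ≠ x) := by
  unfold nb de
  rw [Multiset.filter_add, Multiset.filter_map, Multiset.filter_map, Multiset.filter_filter,
    Multiset.filter_filter, Multiset.filter_filter, Multiset.filter_filter]
  congr 2
  · refine Multiset.filter_congr fun e _ => ?_
    simp only [Function.comp]
    constructor
    · rintro ⟨h1, h2, h3⟩
      exact ⟨h3, h1⟩
    · rintro ⟨h3, h1⟩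
      exact ⟨h1, fun h => hxy (h.symm.trans h1), h3⟩
  · refine Multiset.filter_congr fun e _ => ?_
    simp only [Function.comp]
    constructor
    · rintro ⟨h1, h2, h3⟩
      exact ⟨h2, h1⟩
    · rintro ⟨h3, h1⟩
      exact ⟨h1, h3, fun h => hxy (h.symm.trans h1)⟩

theorem nb_ins (E : Multiset (V × V)) (S : Finset V) (h : Ins E S) (x u : V) (hu : u ∈ nb E x) :
    x ∈ S ∧ u ∈ S := by
  rcases (mem_nb E x u).1 hu with h1 | h1
  · exact h _ h1
  · exact (h _ h1).symm

theorem de_ins (E : Multiset (V × V)) (S : Finset V) (h : Ins E S) (x : V) :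
    Ins (de E x) (S.erase x) := by
  intro e he
  unfold de at he
  rw [Multiset.mem_filter] at he
  obtain ⟨h1, h2, h3⟩ := he
  exact ⟨Finset.mem_erase.2 ⟨h2, (h e h1).1⟩, Finset.mem_erase.2 ⟨h3, (h e h1).2⟩⟩

/-- splitting off two adjacent vertices; `E1 = de (de E x) y`. From `gp_split` twice and
`nb_de`. -/
theorem gp_split2 (E : Multiset (V × V)) (x y u v s t : V) (hxy : x ≠ y) (hl : (x, x) ∉ E)
    (hl' : (y, y) ∉ E) (hx : nb E x = {y, u, v}) (hy : nb E y = {x, s, t}) (hs : s ≠ x)
    (ht : t ≠ x) (h : gp E ∈ I3 V) :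
    (X x - X y) * (X x - X u) * (X x - X v) * ((X y - X s) * (X y - X t)) * gp (de (de E x) y)
      ∈ I3 V := by
  have hl2 : (y, y) ∉ de E x := by
    intro h1
    unfold de at h1
    exact hl' (Multiset.mem_filter.1 h1).1
  obtain ⟨k, hk⟩ := gp_split E x hl
  obtain ⟨l, hl3⟩ := gp_split (de E x) y hl2
  have h2 : nb (de E x) y = {s, t} := by
    rw [nb_de E x y hxy, hy]
    have e1 : ({x, s, t} : Multiset V) = x ::ₘ s ::ₘ {t} := rfl
    rw [e1, Multiset.filter_cons_of_neg (p := fun u => u ≠ x) _ (by simp),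
      Multiset.filter_cons_of_pos (p := fun u => u ≠ x) _ hs]
    have e2 : (({t} : Multiset V).filter fun u => u ≠ x) = {t} :=
      Multiset.filter_eq_self.2 fun a ha => by
        rw [Multiset.mem_singleton.1 ha]
        exact ht
    rw [e2]
    rfl
  have h3 : st x (nb E x) = (X x - X y) * (X x - X u) * (X x - X v) := by
    rw [hx]
    have e1 : ({y, u, v} : Multiset V) = y ::ₘ u ::ₘ v ::ₘ 0 := rfl
    rw [e1, st_cons, st_cons, st_cons]
    unfold st
    rw [Multiset.map_zero, Multiset.prod_zero]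
    ring
  have h4 : st y (nb (de E x) y) = (X y - X s) * (X y - X t) := by
    rw [h2]
    have e1 : ({s, t} : Multiset V) = s ::ₘ t ::ₘ 0 := rfl
    rw [e1, st_cons, st_cons]
    unfold st
    rw [Multiset.map_zero, Multiset.prod_zero]
    ring
  rw [h4] at hl3
  rw [h3, hl3] at hk
  have hsq : ∀ m : ℕ, ((-1 : P3 V) ^ m) * ((-1) ^ m) = 1 := by
    intro m
    rw [← mul_pow]
    simp
  have key : (X x - X y) * (X x - X u) * (X x - X v) * ((X y - X s) * (X y - X t)) *
      gp (de (de E x) y) = ((-1 : P3 V) ^ k * (-1) ^ l) * gp E := by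
    rw [hk]
    calc _ = (((-1 : P3 V) ^ k) * ((-1) ^ k)) * (((-1 : P3 V) ^ l) * ((-1) ^ l)) *
        ((X x - X y) * (X x - X u) * (X x - X v) * ((X y - X s) * (X y - X t)) *
          gp (de (de E x) y)) := by rw [hsq, hsq, one_mul, one_mul]
      _ = _ := by ring
  rw [key]
  exact Ideal.mul_mem_left _ _ h

end Pool.Agent.W_fb73a4_h57
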