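import Pool.Agent.W_fb73a4_h57.KD
import Pool.Agent.W_fb73a4_h57.KM

/-! KQ: minimal counterexample, contraction. -/

set_option autoImplicit false

namespace Pool.Agent.W_fb73a4_h57

open MvPolynomial

variable {V : Type} [DecidableEq V] {S : Finset V} {E : Multiset (V × V)}

/-- a loop at `x` would give `ec E {x} ≥ 1`, against `spa` (`3 * 1 + 3 ≤ 5`). -/
theorem Cex.noloop (h : Cex S E) (x : V) : (x, x) ∉ E := by
  intro hx
  have hxS : x ∈ S := (h.ins _ hx).1
  have h1 : 0 < ec E {x} := by
    unfold ec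
    rw [Multiset.countP_pos]
    exact ⟨(x, x), hx, Finset.mem_singleton_self x, Finset.mem_singleton_self x⟩
  have h2 := h.spa {x} (Finset.singleton_subset_iff.2 hxS) (Finset.singleton_nonempty x)
  rw [Finset.card_singleton] at h2
  omega

/-- `gp (inn E R) ∉ I3` by `h.min R (inn E R)` (`ec_inn`). Fix `w ∈ R`, `f = cl R w`. `contract`
with `E = inn E R + out E R` gives `gp (mp f (out E R)) ∈ I3`. Let `S' = insert w (S \ R)`, of
cardinality `|S| - |R| + 1 < |S|`, `mp f (out E R)` lies inside `S'`. By `h.min` it is not sparse: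
there is a nonempty `Y ⊆ S'` with `5 |Y| ≤ 3 ec (mp f (out E R)) Y + 2`. If `w ∉ Y` then
`ec (mp f (out E R)) Y ≤ ec E Y` (`ec_mp`, `f a ∈ Y → a ∈ Y`), against `h.spa`. So `w ∈ Y`; let
`W = (Y.erase w) ∪ R`, `|W| = |Y| - 1 + |R|` (disjoint), `f a ∈ Y → a ∈ W`. By `ec_mp_out_le`:
`ec (mp f (out E R)) Y + ec E R ≤ ec E W`, which gives the inequality. `W ≠ R`: otherwise `Y = {w}`,
and `ec (mp f (out E R)) {w} = 0` since an edge with both images `w` lies inside `R`. -/
theorem Cex.up (h : Cex S E) (R : Finset V) (hRS : R ⊆ S) (hne : R ≠ S) (h2 : 2 ≤ R.card) :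
    ∃ W, R ⊆ W ∧ W ≠ R ∧ W ⊆ S ∧ 5 * W.card + 3 * ec E R + 3 ≤ 5 * R.card + 3 * ec E W := by
  obtain ⟨w, hw⟩ : R.Nonempty := Finset.card_pos.1 (by omega)
  have hlt : R.card < S.card := Finset.card_lt_card (lt_of_le_of_ne hRS hne)
  have hinnR : Ins (inn E R) R := fun e he => (Multiset.mem_filter.1 he).2
  have hR : gp (inn E R) ∉ I3 V := by
    refine h.min R (inn E R) hlt ⟨w, hw⟩ hinnR ?_
    intro W hW hWn
    rw [ec_inn E R W hW]
    exact h.spa W (hW.trans hRS) hWn
  have hz : gp (mp (cl R w) (out E R)) ∈ I3 V := by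
    refine contract R w hw (inn E R) (out E R) hinnR hR ?_
    rw [inn_add_out]
    exact h.zero
  have hcl : ∀ a, a ∉ R → cl R w a = a := fun a ha => by
    unfold cl
    rw [if_neg ha]
  have hcl' : ∀ a, a ∈ R → cl R w a = w := fun a ha => by
    unfold cl
    rw [if_pos ha]
  have hwS' : w ∉ S \ R := fun hh => (Finset.mem_sdiff.1 hh).2 hw
  have hS'c : (insert w (S \ R)).card + R.card = S.card + 1 := by
    rw [Finset.card_insert_of_notMem hwS']
    have := Finset.card_sdiff_add_card_eq_card hRS
    omega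
  have key : ∀ a ∈ S, cl R w a ∈ insert w (S \ R) := by
    intro a ha
    by_cases haR : a ∈ R
    · rw [hcl' a haR]
      exact Finset.mem_insert_self w _
    · rw [hcl a haR]
      exact Finset.mem_insert_of_mem (Finset.mem_sdiff.2 ⟨ha, haR⟩)
  have hins : Ins (mp (cl R w) (out E R)) (insert w (S \ R)) := by
    intro e he
    unfold mp at he
    rw [Multiset.mem_map] at he
    obtain ⟨e0, he0, rfl⟩ := he
    have h0 : e0 ∈ E := (Multiset.mem_filter.1 he0).1
    have h1 := h.ins e0 h0
    exact ⟨key _ h1.1, key _ h1.2⟩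
  by_contra hcon
  refine h.min (insert w (S \ R)) (mp (cl R w) (out E R)) (by omega)
    ⟨w, Finset.mem_insert_self w _⟩ hins ?_ hz
  intro Y hY hYn
  have hYS : Y.erase w ⊆ S \ R := by
    intro a ha
    have h1 := Finset.mem_insert.1 (hY (Finset.mem_of_mem_erase ha))
    exact h1.resolve_left (Finset.ne_of_mem_erase ha)
  by_cases hwY : w ∈ Y
  · have hdisj : Disjoint (Y.erase w) R :=
      Finset.disjoint_left.2 fun a ha haR => (Finset.mem_sdiff.1 (hYS ha)).2 haR
    have hWc : (Y.erase w ∪ R).card + 1 = Y.card + R.card := by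
      rw [Finset.card_union_of_disjoint hdisj, Finset.card_erase_of_mem hwY]
      have := Finset.card_pos.2 ⟨w, hwY⟩
      omega
    have hfW : ∀ a, cl R w a ∈ Y → a ∈ Y.erase w ∪ R := by
      intro a ha
      by_cases haR : a ∈ R
      · exact Finset.mem_union_right _ haR
      · rw [hcl a haR] at ha
        refine Finset.mem_union_left _ (Finset.mem_erase.2 ⟨?_, ha⟩)
        intro haw
        exact haR (haw ▸ hw)
    have h1 := ec_mp_out_le E R (Y.erase w ∪ R) Y (cl R w) Finset.subset_union_right hfW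
    by_cases hWR : Y.erase w ∪ R = R
    · rw [hWR] at h1 hWc
      have hY1 : Y.card = 1 := by omega
      omega
    · have h3 : ¬ (5 * (Y.erase w ∪ R).card + 3 * ec E R + 3 ≤
          5 * R.card + 3 * ec E (Y.erase w ∪ R)) := by
        intro h4
        refine hcon ⟨Y.erase w ∪ R, Finset.subset_union_right, hWR, ?_, h4⟩
        exact Finset.union_subset (hYS.trans Finset.sdiff_subset) hRS
      omega
  · have hYe : Y.erase w = Y := Finset.erase_eq_of_notMem hwY
    rw [hYe] at hYS
    have h1 : ec (mp (cl R w) (out E R)) Y ≤ ec E Y := by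
      rw [ec_mp]
      unfold ec out
      rw [Multiset.countP_filter, Multiset.countP_eq_card_filter, Multiset.countP_eq_card_filter]
      refine Multiset.card_le_card (Multiset.monotone_filter_right _ ?_)
      rintro e ⟨⟨h1, h2⟩, -⟩
      have h3 : ∀ a, cl R w a ∈ Y → a ∈ Y := by
        intro a ha
        by_cases haR : a ∈ R
        · rw [hcl' a haR] at ha
          exact absurd ha hwY
        · rwa [hcl a haR] at ha
      exact ⟨h3 _ h1, h3 _ h2⟩
    have h2 := h.spa Y (hYS.trans Finset.sdiff_subset) hYn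
    omega

/-- Induction on `S.card - R.card` with `Cex.up`: if `W = S` use `h.spa S`
(`3 ec E S + 3 ≤ 5 |S|`), otherwise the induction hypothesis for `W`. -/
theorem Cex.six (h : Cex S E) (R : Finset V) (hRS : R ⊆ S) (hne : R ≠ S) (h2 : 2 ≤ R.card) :
    3 * ec E R + 6 ≤ 5 * R.card := by
  induction hn : S.card - R.card using Nat.strong_induction_on generalizing R with
  | _ n ih =>
    obtain ⟨W, hRW, hWR, hWS, h1⟩ := h.up R hRS hne h2
    have hc : R.card < W.card := Finset.card_lt_card (lt_of_le_of_ne hRW (Ne.symm hWR))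
    have hcS : W.card ≤ S.card := Finset.card_le_card hWS
    by_cases hW : W = S
    · have h3 := h.spa S (Finset.Subset.refl S) h.ne
      rw [hW] at h1
      omega
    · have h3 := ih (S.card - W.card) (by omega) W hWS hW (by omega) rfl
      omega

end Pool.Agent.W_fb73a4_h57
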