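import Pool.Agent.W_fb73a4_h57.KQ
import Pool.Agent.W_fb73a4_h57.KL

/-! KR: minimal counterexample: it is simple with minimum degree at least three. -/

set_option autoImplicit false

namespace Pool.Agent.W_fb73a4_h57

open MvPolynomial

variable {V : Type} [DecidableEq V] {S : Finset V} {E : Multiset (V × V)}

omit [DecidableEq V] in
private theorem KR_pow (a b : V) (E : Multiset (V × V)) :
    (∀ e ∈ E, e = (a, b) ∨ e = (b, a)) →
      ∃ k : ℕ, gp E = (-1) ^ k * (X a - X b : P3 V) ^ Multiset.card E := by
  induction E using Multiset.induction_on with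
  | empty =>
    intro _
    exact ⟨0, by simp [gp]⟩
  | cons e E ih =>
    intro h
    obtain ⟨k, hk⟩ := ih fun f hf => h f (Multiset.mem_cons_of_mem hf)
    have hc : gp (e ::ₘ E) = (X e.1 - X e.2 : P3 V) * gp E := by
      unfold gp
      rw [Multiset.map_cons, Multiset.prod_cons]
    rcases h e (Multiset.mem_cons_self e E) with he | he
    · refine ⟨k, ?_⟩
      rw [hc, hk, he, Multiset.card_cons, pow_succ]
      ring
    · refine ⟨k + 1, ?_⟩
      rw [hc, hk, he, Multiset.card_cons, pow_succ, pow_succ]
      ring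

omit [DecidableEq V] in
private theorem KR_neg (k : ℕ) (p : P3 V) (h : (-1) ^ k * p ∈ I3 V) : p ∈ I3 V := by
  have h1 := Ideal.mul_mem_left (I3 V) ((-1) ^ k) h
  rwa [← mul_assoc, ← mul_pow, neg_one_mul, neg_neg, one_pow, one_mul] at h1

/-- `|S| = 1`: by `noloop` and `ins` `E = 0`, `gp 0 = 1 ∉ I3` (`one_not_mem`). `|S| = 2`,
`S = {a, b}`: every edge is `(a, b)` or `(b, a)`, so `gp E = ± (X a - X b)^m`, `m = card E`,
`3 m + 3 ≤ 10` (`spa`, `ec_eq_card`) so `m ≤ 2`; as `(X a - X b)^2 ∉ I3` (`sq_not_mem`) and `I3` is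
an ideal, `gp E ∉ I3`. (For the product: `gp_split` at `a` with `de E a = 0`, or induction.) -/
theorem Cex.three (h : Cex S E) : 3 ≤ S.card := by
  by_contra hlt
  have hpos := h.ne.card_pos
  have hcases : S.card = 1 ∨ S.card = 2 := by omega
  rcases hcases with h1 | h2
  · obtain ⟨a, ha⟩ := Finset.card_eq_one.1 h1
    have hE : E = 0 := by
      refine Multiset.eq_zero_of_forall_notMem fun e he => ?_
      obtain ⟨h3, h4⟩ := h.ins e he
      rw [ha, Finset.mem_singleton] at h3 h4
      apply h.noloop a
      have : e = (a, a) := Prod.ext h3 h4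
      rwa [← this]
    have hz := h.zero
    rw [hE] at hz
    apply one_not_mem (V := V)
    have : gp (0 : Multiset (V × V)) = 1 := by simp [gp]
    rwa [← this]
  · obtain ⟨a, b, hab, hS⟩ := Finset.card_eq_two.1 h2
    have hE : ∀ e ∈ E, e = (a, b) ∨ e = (b, a) := by
      intro e he
      obtain ⟨h3, h4⟩ := h.ins e he
      rw [hS, Finset.mem_insert, Finset.mem_singleton] at h3 h4
      rcases h3 with h3 | h3 <;> rcases h4 with h4 | h4
      · exact absurd (by rw [← show e = (a, a) from Prod.ext h3 h4]; exact he) (h.noloop a)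
      · exact Or.inl (Prod.ext h3 h4)
      · exact Or.inr (Prod.ext h3 h4)
      · exact absurd (by rw [← show e = (b, b) from Prod.ext h3 h4]; exact he) (h.noloop b)
    obtain ⟨k, hk⟩ := KR_pow a b E hE
    have hz := h.zero
    rw [hk] at hz
    have hz' := KR_neg k _ hz
    have hsp := h.spa S (Finset.Subset.refl S) h.ne
    rw [ec_eq_card E S h.ins, h2] at hsp
    have hc : Multiset.card E ≤ 2 := by omega
    apply sq_not_mem hab
    have h5 := Ideal.mul_mem_left (I3 V) ((X a - X b : P3 V) ^ (2 - Multiset.card E)) hz'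
    rwa [← pow_add, Nat.sub_add_cancel hc] at h5

/-- both in `S`: `Cex.six` with `R = {x, u} ≠ S`; otherwise there is no edge between them -/
theorem Cex.simple (h : Cex S E) (x u : V) (hxu : x ≠ u) : ec E {x, u} ≤ 1 := by
  by_cases hx : x ∈ S
  · by_cases hu : u ∈ S
    · have hsub : ({x, u} : Finset V) ⊆ S := by
        intro v hv
        rw [Finset.mem_insert, Finset.mem_singleton] at hv
        rcases hv with rfl | rfl <;> assumption
      have hc : ({x, u} : Finset V).card = 2 := Finset.card_pair hxu
      have h3 := h.three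
      have h6 := h.six {x, u} hsub (by rintro rfl; omega) hc.ge
      rw [hc] at h6
      omega
    · have h0 : ec E {x, u} = 0 := by
        unfold ec
        rw [Multiset.countP_eq_zero]
        rintro e he ⟨h1, h2⟩
        obtain ⟨h3, h4⟩ := h.ins e he
        rw [Finset.mem_insert, Finset.mem_singleton] at h1 h2
        have h5 : e.1 = x := h1.resolve_right fun h7 => hu (h7 ▸ h3)
        have h6 : e.2 = x := h2.resolve_right fun h7 => hu (h7 ▸ h4)
        exact h.noloop x (by rw [← show e = (x, x) from Prod.ext h5 h6]; exact he)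
      omega
  · have h0 : ec E {x, u} = 0 := by
      unfold ec
      rw [Multiset.countP_eq_zero]
      rintro e he ⟨h1, h2⟩
      obtain ⟨h3, h4⟩ := h.ins e he
      rw [Finset.mem_insert, Finset.mem_singleton] at h1 h2
      have h5 : e.1 = u := h1.resolve_left fun h7 => hx (h7 ▸ h3)
      have h6 : e.2 = u := h2.resolve_left fun h7 => hx (h7 ▸ h4)
      exact h.noloop u (by rw [← show e = (u, u) from Prod.ext h5 h6]; exact he)
    omega

/-- `count_nb`, `Cex.simple`, `self_notMem_nb`, `Multiset.nodup_iff_count_le_one` -/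
theorem Cex.nodup (h : Cex S E) (x : V) : (nb E x).Nodup := by
  rw [Multiset.nodup_iff_count_le_one]
  intro u
  by_cases hxu : x = u
  · subst hxu
    rw [Multiset.count_eq_zero_of_notMem (self_notMem_nb E x (h.noloop x))]
    exact Nat.zero_le 1
  · rw [count_nb E x u hxu (h.noloop x) (h.noloop u)]
    exact h.simple x u hxu

/-- otherwise `gp_split` and `alg_deg` give `gp (de E x) ∈ I3` (`gp_supported` for the variables),
against `h.min (S.erase x) (de E x)` (`ec_de`, `de_ins`; nonempty by `Cex.three`). -/
theorem Cex.deg (h : Cex S E) (x : V) (hx : x ∈ S) : 3 ≤ Multiset.card (nb E x) := by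
  by_contra hlt
  have hN : Multiset.card (nb E x) ≤ 2 := by omega
  obtain ⟨k, hk⟩ := gp_split E x (h.noloop x)
  have hz := h.zero
  rw [hk] at hz
  have hz' := KR_neg k _ hz
  have hQ : gp (de E x) ∈ supported (ZMod 3) ({x}ᶜ : Set V) := by
    refine gp_supported _ _ fun e he => ?_
    have h1 := (Multiset.mem_filter.1 he).2
    exact ⟨h1.1, h1.2⟩
  have h2 := alg_deg x (nb E x) hN (self_notMem_nb E x (h.noloop x)) _ hQ hz'
  have h3 := h.three
  have hc : (S.erase x).card = S.card - 1 := Finset.card_erase_of_mem hx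
  refine h.min (S.erase x) (de E x) (by omega) (Finset.card_pos.1 (by omega)) (de_ins E S h.ins x)
    ?_ h2
  intro W hW hne
  have hxW : x ∉ W := fun h4 => Finset.notMem_erase x S (hW h4)
  rw [ec_de E x W hxW]
  exact h.spa W (hW.trans (Finset.erase_subset x S)) hne

/-- deletion of two vertices is restriction to the rest -/
theorem Cex.de_de (h : Cex S E) (x y : V) :
    de (de E x) y = inn E ((S.erase x).erase y) := by
  unfold de inn
  rw [Multiset.filter_filter]
  refine Multiset.filter_congr fun e he => ?_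
  obtain ⟨h1, h2⟩ := h.ins e he
  rw [Finset.mem_erase, Finset.mem_erase, Finset.mem_erase, Finset.mem_erase]
  tauto

end Pool.Agent.W_fb73a4_h57
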