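import Pool.Agent.W_fb73a4_h57.KR
import Pool.Agent.W_fb73a4_h57.KJ

/-! KS: minimal counterexample: the gap lemma. -/

set_option autoImplicit false

namespace Pool.Agent.W_fb73a4_h57

open MvPolynomial

variable {V : Type} [DecidableEq V] {S : Finset V} {E : Multiset (V × V)}

/-- `(X u - X v) * gp (inn E R) = gp ({(u, v)} + inn E R)`, use `h.min R ({(u, v)} + inn E R)`.
Sparse: for `W ⊆ R` nonempty, if `u, v ∈ W` then `|W| ≥ 2`, `W ≠ S` and `Cex.six` for `W` gives
`3 (ec E W + 1) + 3 ≤ 5 |W|`; otherwise the new edge does not count and `h.spa` does it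
(`ec_add`, `ec_single`, `ec_inn`). -/
theorem Cex.add_edge (h : Cex S E) (R : Finset V) (hRS : R ⊆ S) (hne : R ≠ S) (u v : V)
    (hu : u ∈ R) (hv : v ∈ R) (huv : u ≠ v) : (X u - X v) * gp (inn E R) ∉ I3 V := by
  have hlt : R.card < S.card := Finset.card_lt_card (Finset.ssubset_iff_subset_ne.2 ⟨hRS, hne⟩)
  have hgp : (X u - X v : P3 V) * gp (inn E R) = gp ({(u, v)} + inn E R) := by
    rw [gp_add]
    congr 1
    unfold gp
    rw [Multiset.map_singleton, Multiset.prod_singleton]
  rw [hgp]
  refine h.min R ({(u, v)} + inn E R) hlt ⟨u, hu⟩ ?_ ?_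
  · intro e he
    rw [Multiset.mem_add, Multiset.mem_singleton] at he
    rcases he with rfl | he
    · exact ⟨hu, hv⟩
    · exact (Multiset.mem_filter.1 he).2
  · intro W hW hWn
    rw [ec_add, ec_inn E R W hW, ec_single]
    by_cases hc : u ∈ W ∧ v ∈ W
    · rw [if_pos hc]
      have h2 : 2 ≤ W.card := Finset.one_lt_card.2 ⟨u, hc.1, v, hc.2, huv⟩
      have hWS : W ≠ S := by
        intro hWS
        have := Finset.card_le_card hW
        rw [hWS] at this
        omega
      have := h.six W (hW.trans hRS) hWS h2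
      omega
    · rw [if_neg hc]
      have := h.spa W (hW.trans hRS) hWn
      omega

/-- Suppose not; with `Cex.six`: `5 |R| = 3 ec E R + 6`. Let `R* = {a ∈ R | ∃ b ∈ nb E a, b ∉ R}`.
CASE A: `R*` has at most one element; take `w ∈ R` with `R* ⊆ {w}`. `contract` (with
`gp (inn E R) ∉ I3`, e.g. from `h.min`) gives `gp (mp (cl R w) (out E R)) ∈ I3`, and
`mp (cl R w) (out E R) = out E R` (an edge of `out E R` has at most one end in `R`, namely `w`).
But `out E R` lies inside `insert w (S \ R)`, which has fewer elements than `S`, and is sparse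
(`ec (out E R) W ≤ ec E W`), against `h.min`.
CASE B: `u ≠ v` in `R*`. `Cex.add_edge` and `gadget R (inn E R) (out E R) u v` give `f, T, K`. Let
`S' = (S \ R) ∪ T` (`|S'| ≤ |S| - |R| + 3 < |S|`), `E' = mp f (out E R) + K`. By `h.min` `E'` is not
sparse: `Y ⊆ S'` nonempty with `5 |Y| ≤ 3 ec E' Y + 2`. `X1 = Y ∩ T`. If `X1 = ∅`: `ec K Y = 0` and
`ec (mp f (out E R)) Y ≤ ec E Y` (`f a ∈ Y → a ∈ Y`), against `h.spa`. Otherwise
`W = (Y \ T) ∪ R`, `|W| = |Y| - |X1| + |R|`, `f a ∈ Y → a ∈ W`, `ec K Y = ec K X1`, and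
`ec_mp_out_le` gives `5 |W| ≤ 3 ec E W + 6 + 3 ec K X1 + 2 - 5 |X1|`. If `|X1| ≥ 2`:
`5 |W| ≤ 3 ec E W + 2`, against `h.spa`. If `|X1| = 1`: `5 |W| ≤ 3 ec E W + 3`; `W ≠ S` contradicts
`Cex.six`; if `W = S`, one `a ∈ {u, v}` has `f a ∉ Y` (both images in `Y ∩ T = X1` would be
equal), it has a neighbour `b ∈ S \ R`; the edge between `a` and `b` is in `out E R`, and
`ec_mp_out_lt` improves the bound to `5 |W| ≤ 3 ec E W`, against `h.spa`. -/
theorem Cex.seven (h : Cex S E) (R : Finset V) (hRS : R ⊆ S) (hne : R ≠ S) (h4 : 4 ≤ R.card) :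
    3 * ec E R + 7 ≤ 5 * R.card := by
  classical
  by_contra hcon
  have h6 := h.six R hRS hne (by omega)
  have heq : 5 * R.card = 3 * ec E R + 6 := by omega
  have hlt : R.card < S.card := Finset.card_lt_card (Finset.ssubset_iff_subset_ne.2 ⟨hRS, hne⟩)
  have hRn : R.Nonempty := Finset.card_pos.1 (by omega)
  have hIns : Ins (inn E R) R := fun e he => (Multiset.mem_filter.1 he).2
  have hgp : gp (inn E R) ∉ I3 V := by
    refine h.min R (inn E R) hlt hRn hIns ?_
    intro W hW hWn
    rw [ec_inn E R W hW]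
    exact h.spa W (hW.trans hRS) hWn
  have hzero : gp (inn E R + out E R) ∈ I3 V := by
    rw [inn_add_out]
    exact h.zero
  have hsd : (S \ R).card + R.card = S.card := Finset.card_sdiff_add_card_eq_card hRS
  set Rs := R.filter (fun a => ∃ b ∈ nb E a, b ∉ R) with hRs
  by_cases hA : Rs.card ≤ 1
  · -- at most one vertex of `R` has a neighbour outside
    obtain ⟨w, hw, hsub⟩ : ∃ w ∈ R, ∀ a ∈ Rs, a = w := by
      rcases Rs.eq_empty_or_nonempty with he | ⟨w, hw⟩
      · obtain ⟨w, hw⟩ := hRn
        refine ⟨w, hw, fun a ha => ?_⟩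
        rw [he] at ha
        exact absurd ha (Finset.notMem_empty a)
      · exact ⟨w, (Finset.mem_filter.1 hw).1, fun a ha => Finset.card_le_one.1 hA a ha w hw⟩
    have hend : ∀ e ∈ out E R, (e.1 ∈ R → e.1 = w) ∧ (e.2 ∈ R → e.2 = w) := by
      intro e he
      obtain ⟨heE, hen⟩ := Multiset.mem_filter.1 he
      constructor
      · intro h1
        refine hsub e.1 (Finset.mem_filter.2 ⟨h1, e.2, ?_, fun h2 => hen ⟨h1, h2⟩⟩)
        exact (mem_nb E e.1 e.2).2 (Or.inl heE)
      · intro h2
        refine hsub e.2 (Finset.mem_filter.2 ⟨h2, e.1, ?_, fun h1 => hen ⟨h1, h2⟩⟩)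
        exact (mem_nb E e.2 e.1).2 (Or.inr heE)
    have hmp : mp (cl R w) (out E R) = out E R := by
      unfold mp
      conv_rhs => rw [← Multiset.map_id (out E R)]
      refine Multiset.map_congr rfl fun e he => ?_
      obtain ⟨g1, g2⟩ := hend e he
      refine Prod.ext ?_ ?_
      · simp only [Prod.map_fst, id_eq, cl]
        split_ifs with h1
        · exact (g1 h1).symm
        · rfl
      · simp only [Prod.map_snd, id_eq, cl]
        split_ifs with h1
        · exact (g2 h1).symm
        · rfl
    have hc := contract R w hw (inn E R) (out E R) hIns hgp hzero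
    rw [hmp] at hc
    refine h.min (insert w (S \ R)) (out E R) ?_ ⟨w, Finset.mem_insert_self _ _⟩ ?_ ?_ hc
    · have := Finset.card_insert_le w (S \ R)
      omega
    · intro e he
      have heS := h.ins e (Multiset.mem_filter.1 he).1
      obtain ⟨g1, g2⟩ := hend e he
      constructor
      · by_cases h1 : e.1 ∈ R
        · rw [g1 h1]; exact Finset.mem_insert_self _ _
        · exact Finset.mem_insert_of_mem (Finset.mem_sdiff.2 ⟨heS.1, h1⟩)
      · by_cases h1 : e.2 ∈ R
        · rw [g2 h1]; exact Finset.mem_insert_self _ _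
        · exact Finset.mem_insert_of_mem (Finset.mem_sdiff.2 ⟨heS.2, h1⟩)
    · intro W hW hWn
      have hWS : W ⊆ S := by
        intro a ha
        rcases Finset.mem_insert.1 (hW ha) with rfl | ha'
        · exact hRS hw
        · exact (Finset.mem_sdiff.1 ha').1
      have h1 : ec (out E R) W ≤ ec E W := by
        unfold ec out
        exact Multiset.countP_le_of_le _ (Multiset.filter_le _ _)
      have := h.spa W hWS hWn
      omega
  · -- two vertices of `R` have neighbours outside
    obtain ⟨u, hu, v, hv, huv⟩ := Finset.one_lt_card.1 (not_le.1 hA)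
    have huR := (Finset.mem_filter.1 hu).1
    have hvR := (Finset.mem_filter.1 hv).1
    obtain ⟨f, T, K, hf1, hf2, hTR, hfuv, hT3, hK, hK1, hK2, hz⟩ :=
      gadget R (inn E R) (out E R) hIns u v huR hvR (h.add_edge R hRS hne u v huR hvR huv) hzero
    have hTS : T ⊆ S := hTR.trans hRS
    have hspa : ¬ Spa (mp f (out E R) + K) ((S \ R) ∪ T) := by
      intro hspa
      refine h.min ((S \ R) ∪ T) (mp f (out E R) + K) ?_
        ⟨f u, Finset.mem_union_right _ (hf2 u huR)⟩ ?_ hspa hz
      · have := Finset.card_union_le (S \ R) T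
        omega
      · have himg : ∀ a ∈ S, f a ∈ (S \ R) ∪ T := by
          intro a ha
          by_cases haR : a ∈ R
          · exact Finset.mem_union_right _ (hf2 a haR)
          · rw [hf1 a haR]
            exact Finset.mem_union_left _ (Finset.mem_sdiff.2 ⟨ha, haR⟩)
        intro e he
        rcases Multiset.mem_add.1 he with he | he
        · obtain ⟨e', he', rfl⟩ := Multiset.mem_map.1 he
          have heS := h.ins e' (Multiset.mem_filter.1 he').1
          exact ⟨himg _ heS.1, himg _ heS.2⟩
        · exact ⟨Finset.mem_union_right _ (hK e he).1, Finset.mem_union_right _ (hK e he).2⟩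
    unfold Spa at hspa
    push Not at hspa
    obtain ⟨Y, hY, hYn, hYlt⟩ := hspa
    rw [ec_add] at hYlt
    have hYS : Y ⊆ S := hY.trans (Finset.union_subset Finset.sdiff_subset hTS)
    have hKX : ec K Y = ec K (Y ∩ T) := by
      unfold ec
      refine Multiset.countP_congr rfl fun e he => ?_
      have := hK e he
      simp only [Finset.mem_inter, this.1, this.2, and_true]
    rcases (Y ∩ T).eq_empty_or_nonempty with hX | hX
    · have h0 : ec K Y = 0 := by
        rw [hKX, hX]
        unfold ec
        rw [Multiset.countP_eq_zero]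
        intro e _ hc
        exact Finset.notMem_empty _ hc.1
      have h1 : ec (mp f (out E R)) Y ≤ ec E Y := by
        have hfY : ∀ a, f a ∈ Y → a ∈ Y := by
          intro a ha
          by_cases haR : a ∈ R
          · exact absurd (hX ▸ Finset.mem_inter.2 ⟨ha, hf2 a haR⟩) (Finset.notMem_empty _)
          · rwa [hf1 a haR] at ha
        rw [ec_mp]
        unfold ec
        calc (out E R).countP (fun e => f e.1 ∈ Y ∧ f e.2 ∈ Y)
            ≤ E.countP (fun e => f e.1 ∈ Y ∧ f e.2 ∈ Y) :=
              Multiset.countP_le_of_le _ (Multiset.filter_le _ _)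
          _ ≤ E.countP (fun e => e.1 ∈ Y ∧ e.2 ∈ Y) := by
              rw [Multiset.countP_eq_card_filter, Multiset.countP_eq_card_filter]
              refine Multiset.card_le_card (Multiset.monotone_filter_right E ?_)
              intro e he
              exact ⟨hfY _ he.1, hfY _ he.2⟩
      have := h.spa Y hYS hYn
      omega
    · set W := (Y \ T) ∪ R with hWdef
      have hYTR : Disjoint (Y \ T) R := by
        rw [Finset.disjoint_left]
        intro a ha haR
        obtain ⟨haY, haT⟩ := Finset.mem_sdiff.1 ha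
        rcases Finset.mem_union.1 (hY haY) with h1 | h1
        · exact (Finset.mem_sdiff.1 h1).2 haR
        · exact haT h1
      have hWc : W.card = (Y \ T).card + R.card := Finset.card_union_of_disjoint hYTR
      have hYc : (Y \ T).card + (Y ∩ T).card = Y.card := Finset.card_sdiff_add_card_inter Y T
      have hRW : R ⊆ W := Finset.subset_union_right
      have hWS : W ⊆ S := Finset.union_subset (Finset.sdiff_subset.trans hYS) hRS
      have hWn : W.Nonempty := hRn.mono hRW
      have hfW : ∀ a, f a ∈ Y → a ∈ W := by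
        intro a ha
        by_cases haR : a ∈ R
        · exact hRW haR
        · rw [hf1 a haR] at ha
          exact Finset.mem_union_left _ (Finset.mem_sdiff.2 ⟨ha, fun hT => haR (hTR hT)⟩)
      have hle := ec_mp_out_le E R W Y f hRW hfW
      have hspW := h.spa W hWS hWn
      by_cases hX2 : 2 ≤ (Y ∩ T).card
      · have := hK2 (Y ∩ T) Finset.inter_subset_right hX2
        omega
      · have hX1 : (Y ∩ T).card = 1 := by
          have := Finset.card_pos.2 hX
          omega
        have hK0 := hK1 (Y ∩ T) Finset.inter_subset_right hX1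
        by_cases hWS' : W = S
        · have hor : f u ∉ Y ∨ f v ∉ Y := by
            by_contra hcon2
            push Not at hcon2
            have : 1 < (Y ∩ T).card := Finset.one_lt_card.2
              ⟨f u, Finset.mem_inter.2 ⟨hcon2.1, hf2 u huR⟩, f v,
                Finset.mem_inter.2 ⟨hcon2.2, hf2 v hvR⟩, hfuv⟩
            omega
          obtain ⟨a, haRs, haY⟩ : ∃ a ∈ Rs, f a ∉ Y := by
            rcases hor with h1 | h1
            · exact ⟨u, hu, h1⟩
            · exact ⟨v, hv, h1⟩
          obtain ⟨haR, b, hb, hbR⟩ := Finset.mem_filter.1 haRs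
          obtain ⟨e, heE, he1, he2⟩ : ∃ e ∈ E, ¬ (e.1 ∈ R ∧ e.2 ∈ R) ∧
              ¬ (f e.1 ∈ Y ∧ f e.2 ∈ Y) := by
            rcases (mem_nb E a b).1 hb with h1 | h1
            · exact ⟨(a, b), h1, fun hc => hbR hc.2, fun hc => haY hc.1⟩
            · exact ⟨(b, a), h1, fun hc => hbR hc.1, fun hc => haY hc.2⟩
          have heS := h.ins e heE
          have hlt' := ec_mp_out_lt E R W Y f hRW hfW e (Multiset.mem_filter.2 ⟨heE, he1⟩)
            (hWS'.symm ▸ heS.1) (hWS'.symm ▸ heS.2) he2
          omega
        · have h2 : 2 ≤ W.card := by omega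
          have := h.six W hWS hWS' h2
          omega

end Pool.Agent.W_fb73a4_h57
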