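import Pool.Agent.W_fb73a4_h57.KS

/-! KT: minimal counterexample: no triangle with two vertices of degree three. -/

set_option autoImplicit false

namespace Pool.Agent.W_fb73a4_h57

open MvPolynomial

variable {V : Type} [DecidableEq V] {S : Finset V} {E : Multiset (V × V)}

/-- All of `y, z, u` are distinct and `≠ x`, all of `x, z, v` are distinct and `≠ y` (`Cex.nodup`,
`self_notMem_nb`), all are in `S` (`nb_ins`). CASE `u = v`: `R = {x, y, z, u}`;
`ec E R = ec E {y, z, u} + 3` (`ec_insert`, `nb E x = {y, z, u}`) and
`ec E {y, z, u} = ec E {z, u} + 2`. So `ec E R ≥ 5`. If `R ≠ S` then `Cex.six` is violated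
(`15 + 6 ≤ 20`). If `R = S` then `nb E z` (nodup, `≥ 3` elements by `Cex.deg`, inside
`S.erase z = {x, y, u}`) contains `u`, so `ec E {z, u} ≥ 1` (`count_nb`), `ec E S ≥ 6`, against
`h.spa` (`18 + 3 ≤ 20`).
CASE `u ≠ v`: `gp_split2` and `alg_tri` give `(X u - X v) * gp (de (de E x) y) ∈ I3`, and
`Cex.de_de`, `Cex.add_edge` with `R = (S.erase x).erase y` contradict. -/
theorem Cex.no_tri (h : Cex S E) (x y z u v : V) (hx : nb E x = {y, z, u})
    (hy : nb E y = {x, z, v}) : False := by
  classical
  have hlx := h.noloop x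
  have hly := h.noloop y
  have hlz := h.noloop z
  have hlu := h.noloop u
  have mx : ∀ a, a ∈ nb E x ↔ a = y ∨ a = z ∨ a = u := fun a => by
    rw [hx]
    simp
  have my : ∀ a, a ∈ nb E y ↔ a = x ∨ a = z ∨ a = v := fun a => by
    rw [hy]
    simp
  have nx := self_notMem_nb E x hlx
  have ny := self_notMem_nb E y hly
  rw [mx] at nx
  rw [my] at ny
  push Not at nx ny
  obtain ⟨hxy, hxz, hxu⟩ := nx
  obtain ⟨-, hyz, hyv⟩ := ny
  have dx := h.nodup x
  rw [hx] at dx
  have dy := h.nodup y
  rw [hy] at dy
  have dx' : (y ≠ z ∧ y ≠ u) ∧ z ≠ u := by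
    simpa using dx
  have dy' : (x ≠ z ∧ x ≠ v) ∧ z ≠ v := by
    simpa using dy
  obtain ⟨⟨-, hyu⟩, hzu⟩ := dx'
  obtain ⟨⟨-, hxv⟩, hzv⟩ := dy'
  have hyS := (nb_ins E S h.ins x y ((mx y).2 (Or.inl rfl))).2
  have hxS := (nb_ins E S h.ins x y ((mx y).2 (Or.inl rfl))).1
  have hzS := (nb_ins E S h.ins x z ((mx z).2 (Or.inr (Or.inl rfl)))).2
  have huS := (nb_ins E S h.ins x u ((mx u).2 (Or.inr (Or.inr rfl)))).2
  have hvS := (nb_ins E S h.ins y v ((my v).2 (Or.inr (Or.inr rfl)))).2
  by_cases huv : u = v
  · subst huv
    have e1 : ec E (insert x {y, z, u}) = ec E {y, z, u} + 3 := by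
      rw [ec_insert E x hlx {y, z, u} (by simp [hxy, hxz, hxu]), hx]
      congr 1
      have : Multiset.countP (fun w => w ∈ ({y, z, u} : Finset V)) ({y, z, u} : Multiset V) =
          Multiset.card ({y, z, u} : Multiset V) := by
        rw [Multiset.countP_eq_card]
        intro a ha
        simpa using ha
      rw [this]
      rfl
    have e2 : ec E (insert y {z, u}) = ec E {z, u} + 2 := by
      rw [ec_insert E y hly {z, u} (by simp [hyz, hyu]), hy]
      congr 1
      have h1 : ({x, z, u} : Multiset V) = x ::ₘ {z, u} := rfl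
      rw [h1, Multiset.countP_cons_of_neg _ (by simp [hxz, hxu])]
      have : Multiset.countP (fun w => w ∈ ({z, u} : Finset V)) ({z, u} : Multiset V) =
          Multiset.card ({z, u} : Multiset V) := by
        rw [Multiset.countP_eq_card]
        intro a ha
        simpa using ha
      rw [this]
      rfl
    have hcard : (insert x {y, z, u} : Finset V).card = 4 := by
      rw [Finset.card_insert_of_notMem (by simp [hxy, hxz, hxu]),
        Finset.card_insert_of_notMem (by simp [hyz, hyu]),
        Finset.card_insert_of_notMem (by simp [hzu]), Finset.card_singleton]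
    have hsub : (insert x {y, z, u} : Finset V) ⊆ S := by
      intro a ha
      simp only [Finset.mem_insert, Finset.mem_singleton] at ha
      rcases ha with rfl | rfl | rfl | rfl
      · exact hxS
      · exact hyS
      · exact hzS
      · exact huS
    by_cases hRS : (insert x {y, z, u} : Finset V) = S
    · -- `u` is a neighbour of `z`
      have hu_nb : u ∈ nb E z := by
        have h1 := h.deg z hzS
        have h2 := h.nodup z
        have h3 : (nb E z).toFinset ⊆ ({x, y, u} : Finset V) := by
          intro a ha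
          rw [Multiset.mem_toFinset] at ha
          have h4 := (nb_ins E S h.ins z a ha).2
          have h5 : a ≠ z := fun h6 => self_notMem_nb E z hlz (h6 ▸ ha)
          rw [← hRS] at h4
          simp only [Finset.mem_insert, Finset.mem_singleton] at h4 ⊢
          rcases h4 with h4 | h4 | h4 | h4
          · exact Or.inl h4
          · exact Or.inr (Or.inl h4)
          · exact absurd h4 h5
          · exact Or.inr (Or.inr h4)
        have h6 : (nb E z).toFinset.card = Multiset.card (nb E z) :=
          Multiset.toFinset_card_of_nodup h2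
        have h7 : ({x, y, u} : Finset V).card ≤ (nb E z).toFinset.card := by
          rw [h6]
          exact le_trans (Finset.card_le_three) h1
        have h8 := Finset.eq_of_subset_of_card_le h3 h7
        have h9 : u ∈ (nb E z).toFinset := by
          rw [h8]
          simp
        exact Multiset.mem_toFinset.1 h9
      have h1 := count_nb E z u hzu hlz hlu
      have h2 : 1 ≤ (nb E z).count u := Multiset.one_le_count_iff_mem.2 hu_nb
      have h3 := h.spa _ hsub ⟨x, Finset.mem_insert_self _ _⟩
      rw [hcard, e1] at h3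
      have e2' : ec E {y, z, u} = ec E {z, u} + 2 := e2
      omega
    · have h3 := h.six _ hsub hRS (by rw [hcard]; norm_num)
      rw [hcard, e1] at h3
      have e2' : ec E {y, z, u} = ec E {z, u} + 2 := e2
      omega
  · have h1 := gp_split2 E x y z u z v hxy hlx hly hx hy hxz.symm hxv.symm h.zero
    have hQ : gp (de (de E x) y) ∈ supported (ZMod 3) ({x, y}ᶜ : Set V) := by
      apply gp_supported
      intro e he
      unfold de at he
      rw [Multiset.mem_filter, Multiset.mem_filter] at he
      obtain ⟨⟨-, h2, h3⟩, h4, h5⟩ := he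
      simp [h2, h3, h4, h5]
    have h2 := alg_tri x y z u v hxy hxz.symm hyz.symm hxu.symm hyu.symm hxv.symm hyv.symm
      (gp (de (de E x) y)) hQ h1
    rw [h.de_de x y] at h2
    refine h.add_edge ((S.erase x).erase y) ?_ ?_ u v ?_ ?_ huv h2
    · exact (Finset.erase_subset _ _).trans (Finset.erase_subset _ _)
    · intro h3
      have h4 : x ∈ (S.erase x).erase y := by
        rw [h3]
        exact hxS
      exact Finset.notMem_erase x S (Finset.mem_of_mem_erase h4)
    · exact Finset.mem_erase.2 ⟨hyu.symm, Finset.mem_erase.2 ⟨hxu.symm, huS⟩⟩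
    · exact Finset.mem_erase.2 ⟨hyv.symm, Finset.mem_erase.2 ⟨hxv.symm, hvS⟩⟩

end Pool.Agent.W_fb73a4_h57
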