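import Pool.Agent.W_fb73a4_h57.KS

/-! KU: minimal counterexample: two adjacent vertices of degree three. -/

set_option autoImplicit false

namespace Pool.Agent.W_fb73a4_h57

open MvPolynomial

variable {V : Type} [DecidableEq V] {S : Finset V} {E : Multiset (V × V)}

/-- Distinctness as in `Cex.no_tri`. Suppose `u ∉ nb E v`. Let `R = (S.erase x).erase y`. By
`gp_split2`, `alg_adj`, `Cex.de_de`: `(X u - X v)^2 * gp (inn E R) ∈ I3`, `u ≠ v` in `R`.
`contract_pol` for `{u, v}`, `w = u`, `E1 = {(u, v), (u, v)}` (`sq_not_mem`) and `gp_mp` give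
`gp (mp f (inn E R)) ∈ I3`, `f = cl {u, v} u`. It lies inside `R.erase v`, nonempty and smaller
than `S`, so by `h.min` there is a nonempty `Y ⊆ R.erase v` with
`5 |Y| ≤ 3 ec (mp f (inn E R)) Y + 2`. If `u ∉ Y`: `ec (mp f (inn E R)) Y ≤ ec E Y`, against
`h.spa`. So `u ∈ Y`; `W = insert v Y`, `f a ∈ Y → a ∈ W`, so `ec (mp f (inn E R)) Y ≤ ec E W` and
`5 |W| ≤ 3 ec E W + 7`. Let `W' = insert x W` (`x ∉ W`): `ec E W' ≥ ec E W + 2` (`ec_insert`, `u, v`
in `nb E x` and in `W`), so `5 |W'| ≤ 3 ec E W' + 6`, and `y ∉ W'`, so `W' ≠ S`. If `|W'| ≥ 4`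
this contradicts `Cex.seven`. Otherwise `W = {u, v}` and `ec E W = 0` (`count_nb`), `10 ≤ 7`. -/
theorem Cex.adj (h : Cex S E) (x y u v s t : V) (hx : nb E x = {y, u, v})
    (hy : nb E y = {x, s, t}) : u ∈ nb E v := by
  by_contra huv
  have hlx : (x, x) ∉ E := h.noloop x
  have hly : (y, y) ∉ E := h.noloop y
  -- distinctness
  have n1 := h.nodup x
  have n2 := h.nodup y
  have s1 := self_notMem_nb E x hlx
  have s2 := self_notMem_nb E y hly
  rw [hx] at n1 s1
  rw [hy] at n2 s2
  simp only [Multiset.insert_eq_cons, Multiset.nodup_cons, Multiset.mem_cons,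
    Multiset.mem_singleton, Multiset.nodup_singleton, and_true, not_or] at n1 n2 s1 s2
  obtain ⟨⟨hyu, hyv⟩, hne⟩ := n1
  obtain ⟨⟨hxs, hxt⟩, hst⟩ := n2
  obtain ⟨hxy, hxu, hxv⟩ := s1
  obtain ⟨hyx, hys, hyt⟩ := s2
  have hyS : x ∈ S ∧ y ∈ S := nb_ins E S h.ins x y (by rw [hx]; simp)
  have huS : x ∈ S ∧ u ∈ S := nb_ins E S h.ins x u (by rw [hx]; simp)
  have hvS : x ∈ S ∧ v ∈ S := nb_ins E S h.ins x v (by rw [hx]; simp)
  set R : Finset V := (S.erase x).erase y with hR
  have hRS : R ⊆ S := fun a ha => Finset.mem_of_mem_erase (Finset.mem_of_mem_erase ha)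
  have huR : u ∈ R := Finset.mem_erase.2 ⟨fun h => hyu h.symm, Finset.mem_erase.2
    ⟨fun h => hxu h.symm, huS.2⟩⟩
  have hvR : v ∈ R := Finset.mem_erase.2 ⟨fun h => hyv h.symm, Finset.mem_erase.2
    ⟨fun h => hxv h.symm, hvS.2⟩⟩
  have hxR : x ∉ R := fun h => (Finset.mem_erase.1 (Finset.mem_of_mem_erase h)).1 rfl
  have hyR : y ∉ R := fun h => (Finset.mem_erase.1 h).1 rfl
  -- the algebraic part
  have p1 := gp_split2 E x y u v s t hxy hlx hly hx hy (fun h => hxs h.symm)
    (fun h => hxt h.symm) h.zero
  have hQ : gp (de (de E x) y) ∈ supported (ZMod 3) ({x, y}ᶜ : Set V) := by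
    refine gp_supported _ _ fun e he => ?_
    rw [h.de_de x y] at he
    unfold inn at he
    rw [Multiset.mem_filter] at he
    obtain ⟨-, he1, he2⟩ := he
    constructor
    · rintro (rfl | h3)
      · exact hxR he1
      · exact hyR (by rw [Set.mem_singleton_iff] at h3; rw [← h3]; exact he1)
    · rintro (h3 | h3)
      · exact hxR (by rw [← h3]; exact he2)
      · exact hyR (by rw [Set.mem_singleton_iff] at h3; rw [← h3]; exact he2)
  have p2 := alg_adj x y u v s t hxy (fun h => hxu h.symm) (fun h => hyu h.symm)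
    (fun h => hxv h.symm) (fun h => hyv h.symm) (fun h => hxs h.symm) (fun h => hys h.symm)
    (fun h => hxt h.symm) (fun h => hyt h.symm) _ hQ p1
  rw [h.de_de x y] at p2
  have hg : gp ({(u, v), (u, v)} : Multiset (V × V)) = (X u - X v) ^ 2 := by
    unfold gp
    simp [sq]
  have p3 : rename (cl {u, v} u) (gp (inn E R)) ∈ I3 V := by
    refine contract_pol {u, v} u (by simp) {(u, v), (u, v)} ?_ ?_ _ ?_
    · intro e he
      simp only [Multiset.insert_eq_cons, Multiset.mem_cons, Multiset.mem_singleton,
        or_self] at he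
      subst he
      simp
    · rw [hg]
      exact sq_not_mem hne
    · rw [hg]
      exact p2
  rw [← gp_mp] at p3
  set f : V → V := cl {u, v} u with hf
  have fu : ∀ a, a = u ∨ a = v → f a = u := by
    intro a ha
    rw [hf]
    unfold cl
    rw [if_pos]
    simpa using ha
  have fo : ∀ a, ¬ (a = u ∨ a = v) → f a = a := by
    intro a ha
    rw [hf]
    unfold cl
    rw [if_neg]
    simpa using ha
  have hins : Ins (mp f (inn E R)) (R.erase v) := by
    have key : ∀ a ∈ R, f a ∈ R.erase v := by
      intro a ha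
      by_cases hc : a = u ∨ a = v
      · rw [fu a hc]
        exact Finset.mem_erase.2 ⟨hne, huR⟩
      · rw [fo a hc]
        exact Finset.mem_erase.2 ⟨fun h => hc (Or.inr h), ha⟩
    intro e he
    unfold mp inn at he
    rw [Multiset.mem_map] at he
    obtain ⟨e', he', rfl⟩ := he
    rw [Multiset.mem_filter] at he'
    exact ⟨key _ he'.2.1, key _ he'.2.2⟩
  have hcard : (R.erase v).card < S.card := by
    refine Finset.card_lt_card ⟨fun a ha => hRS (Finset.mem_of_mem_erase ha), fun hc => ?_⟩
    exact hxR (Finset.mem_of_mem_erase (hc hyS.1))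
  have hns : ¬ Spa (mp f (inn E R)) (R.erase v) := fun hsp =>
    h.min _ _ hcard ⟨u, Finset.mem_erase.2 ⟨hne, huR⟩⟩ hins hsp p3
  unfold Spa at hns
  push Not at hns
  obtain ⟨Y, hYR, hY0, hY⟩ := hns
  have hYR' : Y ⊆ R := fun a ha => Finset.mem_of_mem_erase (hYR ha)
  have hcount : ∀ W : Finset V, W ⊆ R → (∀ a, f a ∈ Y → a ∈ W) →
      ec (mp f (inn E R)) Y ≤ ec E W := by
    intro W hW hfW
    rw [ec_mp, ← ec_inn E R W hW]
    unfold ec
    rw [Multiset.countP_eq_card_filter, Multiset.countP_eq_card_filter]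
    refine Multiset.card_le_card (Multiset.monotone_filter_right _ fun e he => ?_)
    exact ⟨hfW _ he.1, hfW _ he.2⟩
  by_cases huY : u ∈ Y
  · have hvY : v ∉ Y := fun h => (Finset.mem_erase.1 (hYR h)).1 rfl
    set W : Finset V := insert v Y with hW
    have hWR : W ⊆ R := by
      intro a ha
      rcases Finset.mem_insert.1 ha with rfl | ha
      · exact hvR
      · exact hYR' ha
    have hc1 := hcount W hWR (by
      intro a ha
      by_cases hc : a = u ∨ a = v
      · rcases hc with rfl | rfl
        · exact Finset.mem_insert_of_mem huY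
        · exact Finset.mem_insert_self _ _
      · rw [fo a hc] at ha
        exact Finset.mem_insert_of_mem ha)
    have hWc : W.card = Y.card + 1 := Finset.card_insert_of_notMem hvY
    have huW : u ∈ W := Finset.mem_insert_of_mem huY
    have hvW : v ∈ W := Finset.mem_insert_self _ _
    have hxW : x ∉ W := fun h => hxR (hWR h)
    have hyW : y ∉ W := fun h => hyR (hWR h)
    have hc2 := ec_insert E x hlx W hxW
    have hc3 : (nb E x).countP (fun a => a ∈ W) = 2 := by
      have h0 : ({v} : Multiset V) = v ::ₘ 0 := rfl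
      rw [hx, Multiset.insert_eq_cons, Multiset.insert_eq_cons, h0, Multiset.countP_cons,
        Multiset.countP_cons, Multiset.countP_cons, if_neg hyW, if_pos huW, if_pos hvW,
        Multiset.countP_zero]
    rw [hc3] at hc2
    have hWc' : (insert x W).card = W.card + 1 := Finset.card_insert_of_notMem hxW
    by_cases h4 : 4 ≤ (insert x W).card
    · have hsev := h.seven (insert x W) (by
        intro a ha
        rcases Finset.mem_insert.1 ha with rfl | ha
        · exact hyS.1
        · exact hRS (hWR ha)) (by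
        intro hc
        have : y ∈ insert x W := by
          rw [hc]
          exact hyS.2
        rcases Finset.mem_insert.1 this with h5 | h5
        · exact hyx h5
        · exact hyW h5) h4
      omega
    · have hsub : ({v, u} : Finset V) ⊆ W := by
        intro a ha
        rcases Finset.mem_insert.1 ha with rfl | ha
        · exact hvW
        · rw [Finset.mem_singleton.1 ha]
          exact huW
      have hc5 : ({v, u} : Finset V).card = 2 := Finset.card_pair (fun h => hne h.symm)
      have hWeq : ({v, u} : Finset V) = W := by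
        refine Finset.eq_of_subset_of_card_le hsub ?_
        rw [hc5]
        omega
      have hc6 := count_nb E v u (fun h => hne h.symm) (h.noloop v) (h.noloop u)
      rw [Multiset.count_eq_zero_of_notMem huv] at hc6
      rw [← hWeq] at hc1
      rw [← hc6] at hc1
      have : 1 ≤ Y.card := hY0.card_pos
      omega
  · have hc1 := hcount Y hYR' (by
      intro a ha
      by_cases hc : a = u ∨ a = v
      · rw [fu a hc] at ha
        exact absurd ha huY
      · rw [fo a hc] at ha
        exact ha)
    have := h.spa Y (fun a ha => hRS (hYR' ha)) hY0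
    omega

end Pool.Agent.W_fb73a4_h57
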