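import Pool.Agent.W_fb73a4_h57.KT
import Pool.Agent.W_fb73a4_h57.KU

/-! KV: discharging, and the main theorem. -/

set_option autoImplicit false

namespace Pool.Agent.W_fb73a4_h57

open MvPolynomial

variable {V : Type} [DecidableEq V] {S : Finset V} {E : Multiset (V × V)}

private theorem card_three_of_mem {M : Multiset V} (h : Multiset.card M = 3) {a b : V}
    (ha : a ∈ M) (hb : b ∈ M) (hab : a ≠ b) : ∃ c, M = {a, b, c} := by
  obtain ⟨M1, rfl⟩ := Multiset.exists_cons_of_mem ha
  have hb1 : b ∈ M1 := by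
    rcases Multiset.mem_cons.1 hb with h1 | h1
    · exact absurd h1.symm hab
    · exact h1
  obtain ⟨M2, rfl⟩ := Multiset.exists_cons_of_mem hb1
  have hc : Multiset.card M2 = 1 := by
    rw [Multiset.card_cons, Multiset.card_cons] at h
    omega
  obtain ⟨c, rfl⟩ := Multiset.card_eq_one.1 hc
  exact ⟨c, rfl⟩

private theorem card_three_of_mem_one {M : Multiset V} (h : Multiset.card M = 3) {a : V}
    (ha : a ∈ M) : ∃ b c, M = {a, b, c} := by
  obtain ⟨M1, rfl⟩ := Multiset.exists_cons_of_mem ha
  have hc : Multiset.card M1 = 2 := by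
    rw [Multiset.card_cons] at h
    omega
  obtain ⟨b, c, rfl⟩ := Multiset.card_eq_two.1 hc
  exact ⟨b, c, rfl⟩

/-- a vertex of degree three has at most one neighbour of degree three. Otherwise
`nb E x = {y, y', v}`, `nb E y = {x, s, t}`; `Cex.adj` (with `u = y'`) gives `y' ∈ nb E v`, so
`v ∈ nb E y'`, also `x ∈ nb E y'` (`nb_symm`), so `nb E y' = {x, v, t'}` (nodup, card 3), and
`Cex.no_tri x y' v y t'` is a contradiction. -/
theorem Cex.one_nb (h : Cex S E) (x y y' : V) (hx : Multiset.card (nb E x) = 3) (hy : y ∈ nb E x)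
    (hy' : y' ∈ nb E x) (hne : y ≠ y') (h1 : Multiset.card (nb E y) = 3)
    (h2 : Multiset.card (nb E y') = 3) : False := by
  obtain ⟨v, hv⟩ := card_three_of_mem hx hy hy' hne
  obtain ⟨s, t, hst⟩ := card_three_of_mem_one h1 ((nb_symm E x y).1 hy)
  have h3 : v ∈ nb E y' := (nb_symm E v y').1 (h.adj x y y' v s t hv hst)
  have h4 : x ∈ nb E y' := (nb_symm E x y').1 hy'
  have h5 : x ≠ v := by
    rintro rfl
    refine self_notMem_nb E x (h.noloop x) ?_
    rw [hv]
    simp
  obtain ⟨t', ht'⟩ := card_three_of_mem h2 h4 h3 h5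
  refine h.no_tri x y' v y t' ?_ ht'
  rw [hv]
  show y ::ₘ y' ::ₘ v ::ₘ 0 = y' ::ₘ v ::ₘ y ::ₘ 0
  rw [Multiset.cons_swap y y', Multiset.cons_swap y v]

/-- Discharging. `d x = card (nb E x)`, `N x = (nb E x).toFinset` (card `d x`, `Cex.nodup`),
`D = {x ∈ S | d x = 3}`. For `x ∈ D` at least two elements of `N x` are not in `D`
(`Cex.one_nb`). Double counting of the pairs `x ∈ D`, `u ∈ N x \ D` (`nb_symm`;
`Finset.sum_card_bipartiteAbove_eq_sum_card_bipartiteBelow`):
`2 |D| ≤ ∑ u ∈ S \ D, d u =: A`. Also `d u ≥ 4` on `S \ D` (`Cex.deg`), so `A ≥ 4 (|S| - |D|)`.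
`sum_deg`: `3 |D| + A = 2 card E = 2 ec E S`. So `12 ec E S = 18 |D| + 6 A ≥ 20 |S|`, against
`h.spa S`: `3 ec E S + 3 ≤ 5 |S|`. -/
theorem no_cex (h : Cex S E) : False := by
  classical
  set D : Finset V := S.filter fun x => Multiset.card (nb E x) = 3 with hD
  set D' : Finset V := S.filter fun x => ¬ Multiset.card (nb E x) = 3 with hD'
  set A : ℕ := ∑ u ∈ D', Multiset.card (nb E u) with hA
  have hcard : ∀ x, (nb E x).toFinset.card = Multiset.card (nb E x) := fun x =>
    Multiset.toFinset_card_of_nodup (h.nodup x)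
  -- every vertex of degree three has two neighbours of larger degree
  have two : ∀ x ∈ D, 2 ≤ (D'.filter fun u => u ∈ nb E x).card := by
    intro x hx
    rw [hD, Finset.mem_filter] at hx
    have h1 : (nb E x).toFinset = (D.filter fun u => u ∈ nb E x) ∪ (D'.filter fun u => u ∈ nb E x) := by
      ext u
      simp only [Multiset.mem_toFinset, Finset.mem_union, Finset.mem_filter, hD, hD']
      constructor
      · intro hu
        have hS := (nb_ins E S h.ins x u hu).2
        by_cases h3 : Multiset.card (nb E u) = 3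
        · exact Or.inl ⟨⟨hS, h3⟩, hu⟩
        · exact Or.inr ⟨⟨hS, h3⟩, hu⟩
      · rintro (hu | hu)
        · exact hu.2
        · exact hu.2
    have h2 : (D.filter fun u => u ∈ nb E x).card ≤ 1 := by
      rw [Finset.card_le_one]
      intro a ha b hb
      rw [Finset.mem_filter, hD, Finset.mem_filter] at ha hb
      by_contra hab
      exact h.one_nb x a b hx.2 ha.2 hb.2 hab ha.1.2 hb.1.2
    have h3 : (nb E x).toFinset.card ≤ (D.filter fun u => u ∈ nb E x).card +
        (D'.filter fun u => u ∈ nb E x).card := by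
      rw [h1]
      exact Finset.card_union_le _ _
    rw [hcard, hx.2] at h3
    omega
  have dc : ∑ x ∈ D, (D'.filter fun u => u ∈ nb E x).card =
      ∑ u ∈ D', (D.filter fun x => u ∈ nb E x).card := by
    have := Finset.sum_card_bipartiteAbove_eq_sum_card_bipartiteBelow (s := D) (t := D')
      (fun x u => u ∈ nb E x)
    exact this
  have up : ∑ u ∈ D', (D.filter fun x => u ∈ nb E x).card ≤ A := by
    refine Finset.sum_le_sum fun u _ => ?_
    rw [← hcard]
    refine Finset.card_le_card fun x hx => ?_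
    rw [Finset.mem_filter] at hx
    rw [Multiset.mem_toFinset]
    exact (nb_symm E x u).1 hx.2
  have e1 : 2 * D.card ≤ A := by
    have h1 : D.card * 2 ≤ ∑ x ∈ D, (D'.filter fun u => u ∈ nb E x).card := by
      rw [← smul_eq_mul]
      exact Finset.card_nsmul_le_sum D _ 2 two
    omega
  have e2 : D'.card * 4 ≤ A := by
    rw [← smul_eq_mul]
    refine Finset.card_nsmul_le_sum D' _ 4 fun u hu => ?_
    rw [hD', Finset.mem_filter] at hu
    have h1 := h.deg u hu.1
    have h2 := hu.2
    omega
  have e3 : D.card + D'.card = S.card := by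
    rw [hD, hD']
    exact Finset.card_filter_add_card_filter_not _
  have e4 : D.card * 3 + A = 2 * ec E S := by
    rw [ec_eq_card E S h.ins, ← sum_deg E S h.ins]
    rw [← Finset.sum_filter_add_sum_filter_not S (fun x => Multiset.card (nb E x) = 3), ← hD, ← hD',
      ← hA]
    congr 1
    rw [← smul_eq_mul, ← Finset.sum_const]
    refine Finset.sum_congr rfl fun x hx => ?_
    rw [hD, Finset.mem_filter] at hx
    exact hx.2.symm
  have e5 := h.spa S (Finset.Subset.refl S) h.ne
  omega

theorem K_main (S : Finset V) (E : Multiset (V × V)) (hne : S.Nonempty) (hins : Ins E S)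
    (hspa : Spa E S) : gp E ∉ I3 V := by
  have key : ∀ n : ℕ, ∀ (S : Finset V) (E : Multiset (V × V)), S.card = n → S.Nonempty → Ins E S →
      Spa E S → gp E ∉ I3 V := by
    intro n
    induction n using Nat.strong_induction_on with
    | _ n ih =>
      intro S E hn h1 h2 h3 h4
      exact no_cex ⟨h1, h2, h3, h4, fun S' E' hc a b c => ih S'.card (hn ▸ hc) S' E' rfl a b c⟩
  exact key S.card S E rfl hne hins hspa

end Pool.Agent.W_fb73a4_h57
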