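import Pool.Agent.W_fb73a4_h57.PDefs

/-! PA: dimension of the cycle space, small elements. -/

set_option autoImplicit false

namespace Pool.Agent.W_fb73a4_h57

open Finset
open scoped Classical
open Pool.Agent.W_fb73a4_h20

variable {V : Type} [Fintype V]

/-- Copy the proof of `FaceSys.count` (file `W_fb73a4_h20/MB.lean`, line 182), with the fibres
bounded by `2 ^ card α` instead of `2 ^ (card ι - 1)`. -/
theorem gen_count (G : SimpleGraph V) (he : ∃ e, e ∈ G.edgeSet) {α : Type} [Fintype α]
    (F : α → EV V) (hgen : ∀ z, IsCyc G z → ∃ S : Finset α, z = ∑ i ∈ S, F i) :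
    G.edgeSet.ncard + 1 ≤ Fintype.card α + {v : V | ∃ u, G.Adj v u}.ncard := by
  obtain ⟨e0, he0⟩ := he
  have hEfin : G.edgeSet.Finite := Set.toFinite _
  obtain ⟨E, hEdef⟩ : ∃ E : Finset (Sym2 V), E = hEfin.toFinset := ⟨_, rfl⟩
  have hE : ∀ e, e ∈ E ↔ e ∈ G.edgeSet := fun e => by rw [hEdef]; exact hEfin.mem_toFinset
  have hEc : G.edgeSet.ncard = E.card := by
    rw [hEdef]
    exact Set.ncard_eq_toFinset_card _ hEfin
  let ind1 : Finset (Sym2 V) → EV V := fun T e => if e ∈ T then 1 else 0
  let f : Finset (Sym2 V) → (V → ZMod 2) := fun T v => dg (ind1 T) v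
  have hind : ∀ T T' : Finset (Sym2 V), ind1 T = ind1 T' → T = T' := by
    intro T T' h
    ext e
    have h1 : (if e ∈ T then (1 : ZMod 2) else 0) = if e ∈ T' then 1 else 0 := congrFun h e
    by_cases h2 : e ∈ T <;> by_cases h3 : e ∈ T' <;> simp [h2, h3] at h1 ⊢
  -- the fibres
  have hfib : ∀ b ∈ E.powerset.image f, (E.powerset.filter (fun T => f T = b)).card ≤
      2 ^ (Fintype.card α) := by
    intro b hb
    obtain ⟨T0, hT0, rfl⟩ := Finset.mem_image.1 hb
    have hP : (univ : Finset α).powerset.card = 2 ^ (Fintype.card α) := by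
      rw [Finset.card_powerset, Finset.card_univ]
    rw [← hP]
    have hch : ∀ T ∈ E.powerset.filter (fun T => f T = f T0),
        ∃ S ∈ (univ : Finset α).powerset, ind1 T + ind1 T0 = ∑ i ∈ S, F i := by
      intro T hT
      obtain ⟨hT1, hT2⟩ := Finset.mem_filter.1 hT
      have hcyc : IsCyc G (ind1 T + ind1 T0) := by
        refine ⟨fun e he => ?_, fun v => ?_⟩
        · have h1 : e ∉ T := fun h => he ((hE e).1 (Finset.mem_powerset.1 hT1 h))
          have h2 : e ∉ T0 := fun h => he ((hE e).1 (Finset.mem_powerset.1 hT0 h))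
          show (if e ∈ T then (1 : ZMod 2) else 0) + (if e ∈ T0 then 1 else 0) = 0
          rw [if_neg h1, if_neg h2, add_zero]
        · rw [dg_add]
          have h1 : dg (ind1 T) v = dg (ind1 T0) v := congrFun hT2 v
          rw [h1]
          have h2 : ∀ a : ZMod 2, a + a = 0 := by decide
          exact h2 _
      obtain ⟨S, hS2⟩ := hgen _ hcyc
      exact ⟨S, Finset.mem_powerset.2 (Finset.subset_univ S), hS2⟩
    choose! g hg1 hg2 using hch
    refine Finset.card_le_card_of_injOn g hg1 ?_
    intro T hT T' hT' h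
    have h1 : ind1 T + ind1 T0 = ind1 T' + ind1 T0 := by
      rw [hg2 T hT, hg2 T' hT', h]
    exact hind T T' (add_right_cancel h1)
  -- the image
  obtain ⟨Vs, hVsdef⟩ : ∃ Vs : Finset V, Vs = univ.filter (fun v => ∃ u, G.Adj v u) := ⟨_, rfl⟩
  have hVs : ∀ v, v ∈ Vs ↔ ∃ u, G.Adj v u := fun v => by rw [hVsdef]; simp
  have hVc : {v : V | ∃ u, G.Adj v u}.ncard = Vs.card := by
    rw [← Set.ncard_coe_finset]
    congr 1
    ext v
    simp [hVs]
  obtain ⟨v0, hv0⟩ : ∃ v0, v0 ∈ Vs := by
    induction e0 using Sym2.ind with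
    | _ a b => exact ⟨a, (hVs a).2 ⟨b, he0⟩⟩
  have hout : ∀ T ⊆ E, ∀ v, v ∉ Vs → f T v = 0 := by
    intro T hT v hv
    refine Finset.sum_eq_zero fun u _ => if_neg fun h => hv ?_
    exact (hVs v).2 ⟨u, (hE _).1 (hT h)⟩
  have hsum : ∀ T ⊆ E, ∑ v, f T v = 0 := by
    intro T hT
    have h1 : ∑ v, f T v = ∑ x : V × V, ind1 T s(x.1, x.2) := by
      rw [Fintype.sum_prod_type]
      rfl
    rw [h1]
    refine Finset.sum_involution (fun x _ => x.swap) (fun x _ => ?_) (fun x _ hx => ?_)
      (fun x _ => Finset.mem_univ _) (fun x _ => Prod.swap_swap x)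
    · have h2 : s(x.swap.1, x.swap.2) = s(x.1, x.2) := Sym2.eq_swap
      rw [h2]
      have h3 : ∀ a : ZMod 2, a + a = 0 := by decide
      exact h3 _
    · intro h2
      apply hx
      refine if_neg fun h3 => ?_
      have h4 : G.Adj x.1 x.2 := (hE _).1 (hT h3)
      have h5 : x.2 = x.1 := congrArg Prod.fst h2
      rw [h5] at h4
      exact G.loopless.irrefl _ h4
  have himg : (E.powerset.image f).card ≤ 2 ^ (Vs.card - 1) := by
    have hQ : (Vs.erase v0).powerset.card = 2 ^ (Vs.card - 1) := by
      rw [Finset.card_powerset, Finset.card_erase_of_mem hv0]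
    rw [← hQ]
    refine Finset.card_le_card_of_injOn (fun b => (Vs.erase v0).filter fun v => b v ≠ 0)
      (fun b _ => Finset.mem_powerset.2 (Finset.filter_subset _ _)) ?_
    intro b hb b' hb' h
    obtain ⟨T, hT, rfl⟩ := Finset.mem_image.1 hb
    obtain ⟨T', hT', rfl⟩ := Finset.mem_image.1 hb'
    have hT := Finset.mem_powerset.1 hT
    have hT' := Finset.mem_powerset.1 hT'
    have h1 : ∀ v, v ≠ v0 → f T v = f T' v := by
      intro v hv
      by_cases hvs : v ∈ Vs
      · have h2 : v ∈ (Vs.erase v0).filter (fun v => f T v ≠ 0) ↔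
            v ∈ (Vs.erase v0).filter (fun v => f T' v ≠ 0) := by
          rw [show (Vs.erase v0).filter (fun v => f T v ≠ 0) =
            (Vs.erase v0).filter (fun v => f T' v ≠ 0) from h]
        rw [Finset.mem_filter, Finset.mem_filter, Finset.mem_erase] at h2
        have h3 : ∀ a c : ZMod 2, (a ≠ 0 ↔ c ≠ 0) → a = c := by decide
        exact h3 _ _ ⟨fun h4 => (h2.1 ⟨⟨hv, hvs⟩, h4⟩).2, fun h4 => (h2.2 ⟨⟨hv, hvs⟩, h4⟩).2⟩
      · rw [hout T hT v hvs, hout T' hT' v hvs]
    funext v
    by_cases hv : v = v0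
    · subst hv
      have h2 := hsum T hT
      have h3 := hsum T' hT'
      rw [← Finset.add_sum_erase _ _ (Finset.mem_univ v)] at h2 h3
      have h4 : ∑ x ∈ univ.erase v, f T x = ∑ x ∈ univ.erase v, f T' x :=
        Finset.sum_congr rfl fun x hx => h1 x (Finset.ne_of_mem_erase hx)
      rw [h4, ← h3] at h2
      exact add_right_cancel h2
    · exact h1 v hv
  have hmain : 2 ^ E.card ≤ 2 ^ (Fintype.card α) * 2 ^ (Vs.card - 1) := by
    rw [← Finset.card_powerset]
    exact (Finset.card_le_mul_card_image _ _ hfib).trans (Nat.mul_le_mul_left _ himg)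
  rw [← pow_add] at hmain
  have h1 := (Nat.pow_le_pow_iff_right (by norm_num : 1 < 2)).1 hmain
  have h2 : 1 ≤ Vs.card := Finset.card_pos.2 ⟨v0, hv0⟩
  rw [hEc, hVc]
  omega

/-- subset sums are closed under addition (symmetric difference, characteristic 2) -/
theorem sub_sum {α : Type} (F : α → EV V) (A : Finset α) (S S' : Finset α) (hS : S ⊆ A)
    (hS' : S' ⊆ A) : ∃ S'' ⊆ A, ∑ i ∈ S, F i + ∑ i ∈ S', F i = ∑ i ∈ S'', F i := by
  refine ⟨(S \ S') ∪ (S' \ S), ?_, ?_⟩
  · intro a ha
    rw [Finset.mem_union, Finset.mem_sdiff, Finset.mem_sdiff] at ha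
    rcases ha with ha | ha
    · exact hS ha.1
    · exact hS' ha.1
  · have hd : Disjoint (S \ S') (S' \ S) := by
      rw [Finset.disjoint_left]
      intro a ha hb
      exact (Finset.mem_sdiff.1 ha).2 (Finset.mem_sdiff.1 hb).1
    rw [Finset.sum_union hd]
    have h1 : ∑ i ∈ S ∩ S', F i + ∑ i ∈ S \ S', F i = ∑ i ∈ S, F i :=
      Finset.sum_inter_add_sum_sdiff S S' F
    have h2 : ∑ i ∈ S' ∩ S, F i + ∑ i ∈ S' \ S, F i = ∑ i ∈ S', F i :=
      Finset.sum_inter_add_sum_sdiff S' S F
    rw [Finset.inter_comm] at h2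
    rw [← h1, ← h2]
    funext e
    have h3 : ∀ a b c : ZMod 2, (a + b) + (a + c) = b + c := by decide
    exact h3 _ _ _

/-- a nonzero element of the cycle space has at least three edges (`exists_cycle`, `cvec_card`) -/
theorem three_le_sz (G : SimpleGraph V) (z : EV V) (hz : IsCyc G z) (h0 : z ≠ 0) : 3 ≤ sz z := by
  obtain ⟨n, x, hx, hsub⟩ := exists_cycle hz h0
  refine hx.three.trans ?_
  rw [← cvec_card hx]
  refine Finset.card_le_card fun e he => ?_
  rw [Finset.mem_filter] at he ⊢
  exact ⟨he.1, hsub e he.2⟩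

private theorem PA_z3 : ∀ i j : ZMod 3, i ≠ j → j = i + 1 ∨ i = j + 1 := by decide

/-- a cycle of length three -/
private theorem PA_three {G : SimpleGraph V} {x : ZMod 3 → V} (hx : IsCycSeq G x) :
    ∃ T ∈ tri G, cvec x = tv T := by
  have hadj : ∀ i j, i ≠ j → G.Adj (x i) (x j) := by
    intro i j hij
    rcases PA_z3 i j hij with h | h
    · rw [h]
      exact hx.adj i
    · rw [h]
      exact (hx.adj j).symm
  refine ⟨(univ : Finset (ZMod 3)).image x, ?_, ?_⟩
  · unfold tri
    rw [Finset.mem_filter]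
    refine ⟨Finset.mem_univ _, ?_⟩
    rw [SimpleGraph.isNClique_iff]
    refine ⟨?_, ?_⟩
    · intro a ha b hb hab
      rw [Finset.coe_image] at ha hb
      obtain ⟨i, -, rfl⟩ := ha
      obtain ⟨j, -, rfl⟩ := hb
      exact hadj i j fun h => hab (by rw [h])
    · rw [Finset.card_image_of_injective _ hx.inj, Finset.card_univ, ZMod.card]
  · funext e
    have h1 : (∃ j, s(x j, x (j + 1)) = e) ↔
        (∀ v ∈ e, v ∈ (univ : Finset (ZMod 3)).image x) ∧ ¬ e.IsDiag := by
      constructor
      · rintro ⟨j, rfl⟩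
        refine ⟨fun v hv => ?_, ?_⟩
        · rw [Sym2.mem_iff] at hv
          rcases hv with rfl | rfl
          · exact Finset.mem_image_of_mem _ (Finset.mem_univ _)
          · exact Finset.mem_image_of_mem _ (Finset.mem_univ _)
        · rw [Sym2.mk_isDiag_iff]
          exact (hx.adj j).ne
      · rintro ⟨h2, h3⟩
        induction e using Sym2.ind with
        | _ a b =>
          obtain ⟨i, -, hi⟩ := Finset.mem_image.1 (h2 a (Sym2.mem_mk_left a b))
          obtain ⟨j, -, hj⟩ := Finset.mem_image.1 (h2 b (Sym2.mem_mk_right a b))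
          rw [Sym2.mk_isDiag_iff] at h3
          have hij : i ≠ j := by
            rintro rfl
            exact h3 (hi.symm.trans hj)
          rcases PA_z3 i j hij with h | h
          · exact ⟨i, by rw [← h, hi, hj]⟩
          · exact ⟨j, by rw [← h, hi, hj, Sym2.eq_swap]⟩
    unfold cvec tv
    by_cases h : ∃ j, s(x j, x (j + 1)) = e
    · rw [if_pos h, if_pos (h1.1 h)]
    · rw [if_neg h, if_neg fun h' => h (h1.2 h')]

/-- Strong induction on `sz z`. If `z ≠ 0`, `exists_cycle` gives a cycle inside `z`; its length is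
at most `sz z ≤ k`, so it is `3` and its vector is `tv T` with `T = {x 0, x 1, x 2} ∈ tri G`.
`z + cvec x` is in the cycle space and has three edges less. Finish with `sub_sum` (for
`F = tv`, `A = tri G`). -/
theorem small_sum (k : ℕ) (G : SimpleGraph V) (hG : NoC k G) (z : EV V) (hz : IsCyc G z)
    (hs : sz z ≤ k) : ∃ R ⊆ tri G, z = ∑ T ∈ R, tv T := by
  induction hm : sz z using Nat.strong_induction_on generalizing z with
  | _ m ih =>
    by_cases h0 : z = 0
    · exact ⟨∅, Finset.empty_subset _, by rw [Finset.sum_empty, h0]⟩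
    obtain ⟨n, x, hx, hsub⟩ := exists_cycle hz h0
    have hle : n ≤ sz z := by
      rw [← cvec_card hx]
      refine Finset.card_le_card fun e he => ?_
      rw [Finset.mem_filter] at he ⊢
      exact ⟨he.1, hsub e he.2⟩
    have hn : n = 3 := by
      rcases hG n x hx with h | h
      · exact h
      · omega
    subst hn
    obtain ⟨T, hT, hxT⟩ := PA_three hx
    have two : ∀ a : ZMod 2, a + a = 0 := by decide
    have hz' : IsCyc G (z + cvec x) := hz.add (cvec_isCyc hx)
    have hlt : sz (z + cvec x) < m := by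
      rw [← hm]
      refine Finset.card_lt_card ?_
      rw [Finset.ssubset_iff_of_subset]
      · refine ⟨s(x 0, x (0 + 1)), ?_, ?_⟩
        · rw [Finset.mem_filter]
          refine ⟨Finset.mem_univ _, hsub _ ?_⟩
          rw [cvec_edge hx 0]
          exact one_ne_zero
        · rw [Finset.mem_filter]
          rintro ⟨-, h1⟩
          apply h1
          have h2 : cvec x s(x 0, x (0 + 1)) ≠ 0 := by
            rw [cvec_edge hx 0]
            exact one_ne_zero
          rw [Pi.add_apply, ev_one (hsub _ h2), ev_one h2]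
          decide
      · intro e he
        rw [Finset.mem_filter] at he ⊢
        refine ⟨he.1, fun h1 => he.2 ?_⟩
        by_cases h2 : cvec x e = 0
        · rw [Pi.add_apply, h1, h2, add_zero]
        · exact absurd h1 (hsub e h2)
    obtain ⟨R', hR', hzR⟩ := ih _ hlt (z + cvec x) hz' (by omega) rfl
    obtain ⟨R, hR, hRs⟩ := sub_sum (tv (V := V)) (tri G) R' {T} hR' (Finset.singleton_subset_iff.2 hT)
    refine ⟨R, hR, ?_⟩
    rw [← hRs, Finset.sum_singleton, ← hzR, hxT]
    funext e
    have h3 : ∀ a b : ZMod 2, a = a + b + b := by decide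
    exact h3 _ _

/-- without 4-cycles triangles are pairwise edge-disjoint (`IsCycSeq` for `ZMod 4`; see also
`Cls.no_four` in `W_fb73a4_h20/MD.lean` for the construction of such a sequence) -/
theorem tri_card (k : ℕ) (hk : 4 ≤ k) (G : SimpleGraph V) (hG : NoC k G) :
    3 * (tri G).card ≤ G.edgeSet.ncard := by
  let ET : Finset V → Finset (Sym2 V) := fun T => univ.filter fun e => (∀ v ∈ e, v ∈ T) ∧ ¬ e.IsDiag
  have hET : ∀ T e, e ∈ ET T ↔ (∀ v ∈ e, v ∈ T) ∧ ¬ e.IsDiag := by
    intro T e
    simp [ET]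
  have hcard : ∀ T ∈ tri G, (ET T).card = 3 := by
    intro T hT
    have hT3 : T.card = 3 := ((SimpleGraph.isNClique_iff G).1 (Finset.mem_filter.1 hT).2).2
    have h1 : ET T = T.offDiag.image Sym2.mk.uncurry := by
      ext e
      rw [hET, Finset.mem_image]
      constructor
      · rintro ⟨h2, h3⟩
        induction e using Sym2.ind with
        | _ a b =>
          rw [Sym2.mk_isDiag_iff] at h3
          exact ⟨(a, b), Finset.mem_offDiag.2 ⟨h2 a (Sym2.mem_mk_left a b),
            h2 b (Sym2.mem_mk_right a b), h3⟩, rfl⟩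
      · rintro ⟨⟨a, b⟩, hab, rfl⟩
        obtain ⟨ha, hb, hne⟩ := Finset.mem_offDiag.1 hab
        refine ⟨fun v hv => ?_, ?_⟩
        · have hv' : v ∈ s(a, b) := hv
          rw [Sym2.mem_iff] at hv'
          rcases hv' with rfl | rfl
          · exact ha
          · exact hb
        · show ¬ (s(a, b)).IsDiag
          rw [Sym2.mk_isDiag_iff]
          exact hne
    rw [h1, Sym2.card_image_offDiag, hT3]
    rfl
  have hfour : ∀ a b c d : V, G.Adj a b → G.Adj b c → G.Adj c d → G.Adj d a → a ≠ c → b ≠ d →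
      False := by
    intro a b c d h1 h2 h3 h4 hac hbd
    have hab := h1.ne
    have hbc := h2.ne
    have hcd := h3.ne
    have hda := h4.ne
    set f : ℕ → V := fun i => if i = 0 then a else if i = 1 then b else if i = 2 then c else d with hf
    have f0 : f 0 = a := by simp [hf]
    have f1 : f 1 = b := by simp [hf]
    have f2 : f 2 = c := by simp [hf]
    have f3 : f 3 = d := by simp [hf]
    have hinj : ∀ i j, i < 4 → j < 4 → f i = f j → i = j := by
      intro i j hi hj hij
      interval_cases i <;> interval_cases j <;>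
        simp only [f0, f1, f2, f3] at hij <;> first | rfl | exact absurd hij (by assumption) |
          exact absurd hij.symm (by assumption)
    have hadj : ∀ i, i + 1 < 4 → G.Adj (f i) (f (i + 1)) := by
      intro i hi
      have hi' : i < 3 := by omega
      interval_cases i
      · rw [f0]
        show G.Adj a (f 1)
        rw [f1]
        exact h1
      · rw [f1]
        show G.Adj b (f 2)
        rw [f2]
        exact h2
      · rw [f2]
        show G.Adj c (f 3)
        rw [f3]
        exact h3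
    have hlast : G.Adj (f (4 - 1)) (f 0) := by
      show G.Adj (f 3) (f 0)
      rw [f3, f0]
      exact h4
    have hx := cycSeq_of_nat (G := G) (by omega : 3 ≤ 4) f hinj hadj hlast
    rcases hG 4 _ hx with h | h
    · omega
    · omega
  have hdisj : ∀ T ∈ tri G, ∀ T' ∈ tri G, T ≠ T' → Disjoint (ET T) (ET T') := by
    intro T hT T' hT' hne
    rw [Finset.disjoint_left]
    intro e he he'
    rw [hET] at he he'
    have hc := (SimpleGraph.isNClique_iff G).1 (Finset.mem_filter.1 hT).2
    have hc' := (SimpleGraph.isNClique_iff G).1 (Finset.mem_filter.1 hT').2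
    induction e using Sym2.ind with
    | _ p q =>
      rw [Sym2.mk_isDiag_iff] at he he'
      have hpq : p ≠ q := he.2
      have key : ∀ U : Finset V, p ∈ U → q ∈ U → U.card = 3 → ∃ r, r ≠ p ∧ r ≠ q ∧ r ∈ U ∧
          U = {p, q, r} := by
        intro U hp hq hU
        have h1 : q ∈ U.erase p := Finset.mem_erase.2 ⟨hpq.symm, hq⟩
        have h2 : ((U.erase p).erase q).card = 1 := by
          rw [Finset.card_erase_of_mem h1, Finset.card_erase_of_mem hp, hU]
        obtain ⟨r, hr⟩ := Finset.card_eq_one.1 h2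
        have hr' : r ∈ (U.erase p).erase q := by
          rw [hr]
          exact Finset.mem_singleton_self r
        rw [Finset.mem_erase, Finset.mem_erase] at hr'
        refine ⟨r, hr'.2.1, hr'.1, hr'.2.2, ?_⟩
        rw [← Finset.insert_erase hp, ← Finset.insert_erase h1, hr]
      have hp := he.1 p (Sym2.mem_mk_left p q)
      have hq := he.1 q (Sym2.mem_mk_right p q)
      have hp' := he'.1 p (Sym2.mem_mk_left p q)
      have hq' := he'.1 q (Sym2.mem_mk_right p q)
      obtain ⟨r, hrp, hrq, hrT, hTe⟩ := key T hp hq hc.2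
      obtain ⟨r', hrp', hrq', hrT', hTe'⟩ := key T' hp' hq' hc'.2
      have hrr : r ≠ r' := by
        rintro rfl
        exact hne (hTe.trans hTe'.symm)
      exact hfour p r q r' (hc.1 hp hrT hrp.symm) (hc.1 hrT hq hrq) (hc'.1 hq' hrT' hrq'.symm)
        (hc'.1 hrT' hp' hrp') hpq hrr
  have hEfin : G.edgeSet.Finite := Set.toFinite _
  rw [Set.ncard_eq_toFinset_card _ hEfin]
  have hsub : (tri G).biUnion ET ⊆ hEfin.toFinset := by
    intro e he
    obtain ⟨T, hT, heT⟩ := Finset.mem_biUnion.1 he
    rw [hET] at heT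
    rw [hEfin.mem_toFinset]
    have hc := (SimpleGraph.isNClique_iff G).1 (Finset.mem_filter.1 hT).2
    induction e using Sym2.ind with
    | _ p q =>
      rw [Sym2.mk_isDiag_iff] at heT
      exact hc.1 (heT.1 p (Sym2.mem_mk_left p q)) (heT.1 q (Sym2.mem_mk_right p q)) heT.2
  refine le_trans ?_ (Finset.card_le_card hsub)
  rw [Finset.card_biUnion hdisj, Finset.sum_congr rfl hcard, Finset.sum_const, smul_eq_mul,
    mul_comm]

end Pool.Agent.W_fb73a4_h57
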