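import Pool.Agent.W_fb73a4_h57.PA

/-! PB: the edge bound for planar graphs without cycles of lengths 4, ..., m + 2. -/

set_option autoImplicit false

namespace Pool.Agent.W_fb73a4_h57

open Finset
open scoped Classical
open Pool.Agent.W_fb73a4_h20

variable {V : Type} [Fintype V]

/-- sums of sums of triangles -/
private theorem PB_span (G : SimpleGraph V) {α : Type} (F : α → EV V) (S : Finset α)
    (h : ∀ o ∈ S, ∃ R ⊆ tri G, F o = ∑ T ∈ R, tv T) :
    ∃ R ⊆ tri G, ∑ o ∈ S, F o = ∑ T ∈ R, tv T := by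
  induction S using Finset.induction_on with
  | empty => exact ⟨∅, Finset.empty_subset _, by simp⟩
  | insert a S ha ih =>
    obtain ⟨R, hR, h1⟩ := ih fun o ho => h o (Finset.mem_insert_of_mem ho)
    obtain ⟨R', hR', h2⟩ := h a (Finset.mem_insert_self _ _)
    obtain ⟨R'', hR'', h3⟩ := sub_sum tv (tri G) R' R hR' hR
    exact ⟨R'', hR'', by rw [Finset.sum_insert ha, h1, h2, h3]⟩

/-- sums over a subset as sums over a subtype -/
private theorem PB_sub {α : Type} (F : α → EV V) (A S : Finset α) (h : S ⊆ A) :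
    ∃ S' : Finset {x // x ∈ A}, ∑ o ∈ S, F o = ∑ o ∈ S', F o.1 :=
  ⟨S.subtype (fun x => x ∈ A), (Finset.sum_subtype_of_mem F fun _ hx => h hx).symm⟩

/-- double counting -/
private theorem PB_count (G : SimpleGraph V) {α : Type} [Fintype α] (F : α → EV V)
    (hF : ∀ o, IsCyc G (F o)) (h2 : ∀ e, (univ.filter (fun o => F o e ≠ 0)).card ≤ 2) :
    ∑ o, sz (F o) ≤ 2 * G.edgeSet.ncard := by
  have h1 : ∑ o, sz (F o) = ∑ e : Sym2 V, (univ.filter (fun o => F o e ≠ 0)).card := by
    unfold sz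
    simp only [Finset.card_filter]
    exact Finset.sum_comm
  have h3 : ∀ e : Sym2 V, (univ.filter (fun o => F o e ≠ 0)).card ≤
      if e ∈ G.edgeSet then 2 else 0 := by
    intro e
    split_ifs with he
    · exact h2 e
    · rw [Nat.le_zero, Finset.card_eq_zero, Finset.filter_eq_empty_iff]
      intro o _
      rw [not_not]
      exact (hF o).1 e he
  have h4 : ∑ e : Sym2 V, (if e ∈ G.edgeSet then 2 else 0) = 2 * G.edgeSet.ncard := by
    rw [← Finset.sum_filter, Finset.sum_const, smul_eq_mul, mul_comm]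
    congr 1
    rw [← Set.ncard_coe_finset]
    congr 1
    ext e
    simp
  rw [h1, ← h4]
  exact Finset.sum_le_sum fun e _ => h3 e

private theorem PB_two (a : ZMod 2) : a + a = 0 := by
  revert a
  decide

/-- the family with the outer face -/
private theorem PB_family (G : SimpleGraph V) (hM : MacLane G) :
    ∃ (n : ℕ) (F : Option (Fin n) → EV V), (∀ o, IsCyc G (F o)) ∧
      (∀ e, (univ.filter (fun o => F o e ≠ 0)).card ≤ 2) ∧ ∑ o, F o = 0 ∧
      ∀ z, IsCyc G z → ∃ S : Finset (Option (Fin n)), z = ∑ o ∈ S, F o := by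
  obtain ⟨n, B, hB, hle, hgen⟩ := hM
  let F : Option (Fin n) → EV V := fun o => Option.elim o (∑ i, B i) B
  refine ⟨n, F, ?_, ?_, ?_, ?_⟩
  · intro o
    cases o with
    | none => exact IsCyc.sum _ fun i _ => hB i
    | some i => exact hB i
  · intro e
    rw [Finset.card_filter, Fintype.sum_option]
    have h3 : (∑ i, if F (some i) e ≠ 0 then 1 else 0) =
        (univ.filter (fun i => B i e ≠ 0)).card := by
      rw [Finset.card_filter]
      rfl
    rw [h3]
    have h4 : F none e = ((univ.filter (fun i => B i e ≠ 0)).card : ZMod 2) :=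
      A3a_sum_card univ B e
    have h5 := hle e
    have h7 : (univ.filter (fun i => B i e ≠ 0)).card = 0 ∨
        (univ.filter (fun i => B i e ≠ 0)).card = 1 ∨
        (univ.filter (fun i => B i e ≠ 0)).card = 2 := by omega
    rcases h7 with h7 | h7 | h7
    · rw [h7] at h4 ⊢
      rw [if_neg]
      · norm_num
      · rw [h4]
        decide
    · rw [h7] at h4 ⊢
      split_ifs <;> norm_num
    · rw [h7] at h4 ⊢
      rw [if_neg]
      rw [h4]
      decide
  · rw [Fintype.sum_option]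
    funext e
    exact PB_two _
  · intro z hz
    obtain ⟨S, hS⟩ := hgen z hz
    refine ⟨S.map Function.Embedding.some, ?_⟩
    rw [Finset.sum_map, hS]
    rfl

private theorem PB_arith (m e b s t n : ℕ) (h1 : (m + 3) * b + 3 * s ≤ 2 * e)
    (h2 : e + 2 ≤ b + s + n) (h3 : e + 2 ≤ b + t + n) :
    (m + 1) * e + 2 * (m + 3) ≤ (m + 3) * n + m * t := by
  rcases le_total s t with h | h
  · have h4 := Nat.mul_le_mul_left (m + 3) h2
    have h5 := Nat.mul_le_mul_left m h
    nlinarith
  · have h4 := Nat.mul_le_mul_left (m + 3) h3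
    nlinarith

/-- Let `B : Fin n → EV V` be the MacLane family, `F : Option (Fin n) → EV V`, `none ↦ ∑ i, B i`,
`some i ↦ B i`. Every edge is in at most two of the `F o` (compare `exists_faceSys` in
`W_fb73a4_h20/MB.lean`), `∑ o, F o = 0`, all `F o` are in the cycle space and generate it.
`Big = {o | m + 2 < sz (F o)}`, `Small = {o | F o ≠ 0, sz (F o) ≤ m + 2}`; summing over edges
`(m + 3) |Big| + 3 |Small| ≤ 2 |E|` (`three_le_sz`).
CASE `Big = ∅`: the cycle space consists of subset sums of triangles (`small_sum`, `sub_sum`), so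
`gen_count` with `α = {T // T ∈ tri G}` gives `|E| + 1 ≤ |tri| + n`, with `tri_card`:
`2 |E| + 3 ≤ 3 n`.
CASE `i1 ∈ Big`: every element of the cycle space is a sum over a set not containing `i1`
(complement, as the total sum is zero). `gen_count` with `α = (Big \ {i1}) ⊕ Small` gives
`|E| + 2 ≤ |Big| + |Small| + n`, with `α = (Big \ {i1}) ⊕ tri` (replace the small ones by sums of
triangles) `|E| + 2 ≤ |Big| + |tri| + n`. If `|Small| ≤ |tri|`:
`(m+3)(|E| + 2) ≤ (m+3)|Big| + 3|Small| + m |Small| + (m+3) n ≤ 2|E| + m |tri| + (m+3) n`;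
if `|tri| < |Small|`: `(m+3)(|E| + 2) ≤ (m+3)|Big| + 3 |Small| + m |tri| + (m+3) n`. -/
theorem edge_bound (m : ℕ) (hm : 2 ≤ m) (G : SimpleGraph V) (hM : MacLane G)
    (hG : NoC (m + 2) G) (he : ∃ e, e ∈ G.edgeSet) :
    2 * G.edgeSet.ncard + 3 ≤ 3 * {v : V | ∃ u, G.Adj v u}.ncard ∨
      (m + 1) * G.edgeSet.ncard + 2 * (m + 3) ≤
        (m + 3) * {v : V | ∃ u, G.Adj v u}.ncard + m * (tri G).card := by
  obtain ⟨n, F, hF, h2, h0, hgen⟩ := PB_family G hM
  have hsum : ∀ S : Finset (Option (Fin n)), ∑ o ∈ Sᶜ, F o = ∑ o ∈ S, F o := by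
    intro S
    have h := Finset.sum_compl_add_sum S F
    rw [h0] at h
    funext e
    have h1 := congrFun h e
    have h3 : ∀ a b : ZMod 2, a + b = 0 → a = b := by decide
    exact h3 _ _ h1
  have hcount := PB_count G F hF h2
  have hsmall : ∀ o, sz (F o) ≤ m + 2 → ∃ R ⊆ tri G, F o = ∑ T ∈ R, tv T := fun o ho =>
    small_sum (m + 2) G hG (F o) (hF o) ho
  obtain ⟨Big, hBig⟩ : ∃ Big : Finset (Option (Fin n)), ∀ o, o ∈ Big ↔ m + 2 < sz (F o) :=
    ⟨univ.filter (fun o => m + 2 < sz (F o)), fun o => by simp⟩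
  obtain ⟨Sm, hSm⟩ : ∃ Sm : Finset (Option (Fin n)), ∀ o, o ∈ Sm ↔ F o ≠ 0 ∧ sz (F o) ≤ m + 2 :=
    ⟨univ.filter (fun o => F o ≠ 0 ∧ sz (F o) ≤ m + 2), fun o => by simp⟩
  have hdisj : Disjoint Big Sm := by
    rw [Finset.disjoint_left]
    intro o ho ho'
    rw [hBig] at ho
    rw [hSm] at ho'
    omega
  have hcount2 : (m + 3) * Big.card + 3 * Sm.card ≤ 2 * G.edgeSet.ncard := by
    refine le_trans ?_ hcount
    calc (m + 3) * Big.card + 3 * Sm.card = ∑ o ∈ Big, (m + 3) + ∑ o ∈ Sm, 3 := by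
          rw [Finset.sum_const, Finset.sum_const, smul_eq_mul, smul_eq_mul]
          ring
      _ ≤ ∑ o ∈ Big, sz (F o) + ∑ o ∈ Sm, sz (F o) :=
          add_le_add (Finset.sum_le_sum fun o ho => (hBig o).1 ho)
            (Finset.sum_le_sum fun o ho => three_le_sz G (F o) (hF o) ((hSm o).1 ho).1)
      _ = ∑ o ∈ Big ∪ Sm, sz (F o) := (Finset.sum_union hdisj).symm
      _ ≤ ∑ o, sz (F o) :=
          Finset.sum_le_sum_of_subset (Finset.subset_univ _)
  rcases Finset.eq_empty_or_nonempty Big with hE | ⟨i1, hi1⟩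
  · left
    have h3 := gen_count G he (α := {T // T ∈ tri G}) (fun T => tv T.1) (by
      intro z hz
      obtain ⟨S, hS⟩ := hgen z hz
      obtain ⟨R, hR, h4⟩ := PB_span G F S (fun o _ => hsmall o (by
        have h5 : o ∉ Big := by simp [hE]
        rw [hBig] at h5
        omega))
      obtain ⟨S', hS'⟩ := PB_sub tv (tri G) R hR
      exact ⟨S', by rw [hS, h4, hS']⟩)
    rw [Fintype.card_coe] at h3
    have h4 := tri_card (m + 2) (by omega) G hG
    omega
  · right
    have hgen' : ∀ z, IsCyc G z → ∃ S : Finset (Option (Fin n)), i1 ∉ S ∧ z = ∑ o ∈ S, F o := by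
      intro z hz
      obtain ⟨S, hS⟩ := hgen z hz
      by_cases h : i1 ∈ S
      · exact ⟨Sᶜ, by simpa using h, by rw [hsum]; exact hS⟩
      · exact ⟨S, h, hS⟩
    have hpos : 1 ≤ Big.card := Finset.card_pos.2 ⟨i1, hi1⟩
    have hA := gen_count G he (α := {o // o ∈ Big.erase i1 ∪ Sm}) (fun o => F o.1) (by
      intro z hz
      obtain ⟨S, hS1, hS2⟩ := hgen' z hz
      obtain ⟨S', hS'⟩ := PB_sub F (Big.erase i1 ∪ Sm) (S.filter fun o => F o ≠ 0) (by
        intro o ho
        rw [Finset.mem_filter] at ho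
        rw [Finset.mem_union, Finset.mem_erase, hBig, hSm]
        by_cases h : m + 2 < sz (F o)
        · exact Or.inl ⟨fun h' => hS1 (h' ▸ ho.1), h⟩
        · exact Or.inr ⟨ho.2, by omega⟩)
      exact ⟨S', by rw [hS2, ← hS', Finset.sum_filter_ne_zero]⟩)
    rw [Fintype.card_coe, Finset.card_union_of_disjoint
      (Finset.disjoint_of_subset_left (Finset.erase_subset _ _) hdisj),
      Finset.card_erase_of_mem hi1] at hA
    have hC := gen_count G he (α := {o // o ∈ Big.erase i1} ⊕ {T // T ∈ tri G})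
      (Sum.elim (fun o => F o.1) (fun T => tv T.1)) (by
      intro z hz
      obtain ⟨S, hS1, hS2⟩ := hgen' z hz
      obtain ⟨R, hR, h4⟩ := PB_span G F (S.filter fun o => ¬ m + 2 < sz (F o)) (fun o ho =>
        hsmall o (by
          rw [Finset.mem_filter] at ho
          omega))
      obtain ⟨S', hS'⟩ := PB_sub F (Big.erase i1) (S.filter fun o => m + 2 < sz (F o)) (by
        intro o ho
        rw [Finset.mem_filter] at ho
        rw [Finset.mem_erase, hBig]
        exact ⟨fun h' => hS1 (h' ▸ ho.1), ho.2⟩)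
      obtain ⟨R', hR'⟩ := PB_sub tv (tri G) R hR
      refine ⟨S'.disjSum R', ?_⟩
      rw [Finset.sum_disjSum]
      show z = ∑ o ∈ S', F o.1 + ∑ T ∈ R', tv T.1
      rw [← hS', ← hR', ← h4, hS2]
      exact (Finset.sum_filter_add_sum_filter_not S _ _).symm)
    rw [Fintype.card_sum, Fintype.card_coe, Fintype.card_coe, Finset.card_erase_of_mem hi1] at hC
    exact PB_arith m _ Big.card Sm.card _ _ hcount2 (by omega) (by omega)

end Pool.Agent.W_fb73a4_h57
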