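import Pool.Agent.W_fb73a4_h57.PB
import Pool.Agent.W_fb73a4_h57.KX

/-! PC: planar graphs with few triangles are sparse. -/

set_option autoImplicit false

namespace Pool.Agent.W_fb73a4_h57

open Finset
open scoped Classical
open Pool.Agent.W_fb73a4_h20

variable {V : Type} [Fintype V]

/-- Apply `edge_bound` to `ind G W` (`maclane_mono` from `W_fb73a4_h20/MD.lean`,
`IsCycSeq.mono`); its edges are the edges of `G` inside `W`, its non-isolated vertices lie in `W`,
its triangles are the triangles of `G` inside `W`. If it has no edges the claim is `3 ≤ 5 |W|`. In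
the first case `6 e + 9 ≤ 9 |W|`. In the second case, with `T` the number of triangles,
`3 (m+1) e + 6 (m+3) ≤ 3 (m+3) |W| + 3 m T ≤ 5 (m+1) |W| + 3 m + 15`, that is
`3 (m+1) e + 3 (m+1) ≤ 5 (m+1) |W|`. -/
theorem planar_sparse (m : ℕ) (hm : 2 ≤ m) (G : SimpleGraph V) (hM : MacLane G)
    (hG : NoC (m + 2) G)
    (hT : ∀ W : Finset V, 3 * m * {T : Finset V | G.IsNClique 3 T ∧ T ⊆ W}.ncard + 4 * W.card ≤
      2 * m * W.card + 3 * m + 15) (W : Finset V) (hW : W.Nonempty) :
    3 * {e ∈ G.edgeSet | ∀ v ∈ e, v ∈ W}.ncard + 3 ≤ 5 * W.card := by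
  have hle : ind G W ≤ G := fun _ _ h => h.1
  have hedge : (ind G W).edgeSet = {e ∈ G.edgeSet | ∀ v ∈ e, v ∈ W} := by
    ext e
    induction e using Sym2.ind with
    | _ u v =>
      rw [SimpleGraph.mem_edgeSet, Set.mem_ofPred_eq, SimpleGraph.mem_edgeSet]
      constructor
      · rintro ⟨h1, h2, h3⟩
        refine ⟨h1, fun w hw => ?_⟩
        rcases Sym2.mem_iff.1 hw with rfl | rfl
        · exact h2
        · exact h3
      · rintro ⟨h1, h2⟩
        exact ⟨h1, h2 u (Sym2.mem_mk_left u v), h2 v (Sym2.mem_mk_right u v)⟩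
  have hW1 : 1 ≤ W.card := hW.card_pos
  by_cases he : ∃ e, e ∈ (ind G W).edgeSet
  · have hv : {v : V | ∃ u, (ind G W).Adj v u}.ncard ≤ W.card := by
      rw [← Set.ncard_coe_finset W]
      refine Set.ncard_le_ncard ?_ (Set.toFinite _)
      rintro v ⟨u, h⟩
      exact h.2.1
    have ht : (tri (ind G W)).card ≤ {T : Finset V | G.IsNClique 3 T ∧ T ⊆ W}.ncard := by
      rw [← Set.ncard_coe_finset (tri (ind G W))]
      refine Set.ncard_le_ncard ?_ (Set.toFinite _)
      intro T hT'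
      have h1 : (ind G W).IsNClique 3 T := (Finset.mem_filter.1 (Finset.mem_coe.1 hT')).2
      refine ⟨h1.mono hle, fun v hv' => ?_⟩
      have h2 : 1 < T.card := by
        rw [h1.card_eq]
        norm_num
      obtain ⟨u, hu, huv⟩ := Finset.exists_mem_ne h2 v
      exact (h1.isClique (Finset.mem_coe.2 hv') (Finset.mem_coe.2 hu) huv.symm).2.1
    have h1 := edge_bound m hm (ind G W) (maclane_mono hM hle)
      (fun n x hx => hG n x (hx.mono hle)) he
    rw [hedge] at h1
    have h2 := hT W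
    set E := {e ∈ G.edgeSet | ∀ v ∈ e, v ∈ W}.ncard
    set T' := {T : Finset V | G.IsNClique 3 T ∧ T ⊆ W}.ncard
    set n' := {v : V | ∃ u, (ind G W).Adj v u}.ncard
    rcases h1 with h1 | h1
    · omega
    · have h3 : (m + 1) * (3 * E + 3) ≤ (m + 1) * (5 * W.card) := by
        have h4 : (m + 3) * n' ≤ (m + 3) * W.card := Nat.mul_le_mul_left _ hv
        have h5 : m * (tri (ind G W)).card ≤ m * T' := Nat.mul_le_mul_left _ ht
        nlinarith
      exact Nat.le_of_mul_le_mul_left h3 (Nat.succ_pos m)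
  · have h0 : {e ∈ G.edgeSet | ∀ v ∈ e, v ∈ W} = ∅ := by
      rw [← hedge]
      exact Set.eq_empty_iff_forall_notMem.2 fun e h => he ⟨e, h⟩
    rw [h0, Set.ncard_empty]
    omega

/-- `exists_walk_of_cycSeq` -/
theorem noC_of_walk (k : ℕ) (G : SimpleGraph V)
    (h : ∀ (v : V) (c : G.Walk v v), c.IsCycle → c.length = 3 ∨ k < c.length) : NoC k G := by
  intro n x hx
  obtain ⟨c, hc, hl, _⟩ := exists_walk_of_cycSeq hx
  rw [← hl]
  exact h _ c hc

/-- disjoint triangles: `3 T(W) ≤ |W|` -/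
theorem disjoint_tri (G : SimpleGraph V)
    (htri : ∀ S T : Finset V, G.IsNClique 3 S → G.IsNClique 3 T → (∃ v, v ∈ S ∧ v ∈ T) → S = T)
    (W : Finset V) : 3 * {T : Finset V | G.IsNClique 3 T ∧ T ⊆ W}.ncard ≤ W.card := by
  have h1 : {T : Finset V | G.IsNClique 3 T ∧ T ⊆ W} =
      ((univ.filter fun T : Finset V => G.IsNClique 3 T ∧ T ⊆ W : Finset (Finset V)) :
        Set (Finset V)) := by
    ext T
    rw [Finset.mem_coe, Finset.mem_filter, Set.mem_ofPred_eq]
    exact ⟨fun h => ⟨Finset.mem_univ _, h⟩, fun h => h.2⟩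
  rw [h1, Set.ncard_coe_finset]
  have h2 : ((univ.filter fun T : Finset V => G.IsNClique 3 T ∧ T ⊆ W).biUnion id).card =
      ∑ T ∈ (univ.filter fun T : Finset V => G.IsNClique 3 T ∧ T ⊆ W), (id T).card := by
    refine Finset.card_biUnion fun S hS T hT hne => ?_
    show Disjoint S T
    rw [Finset.disjoint_left]
    intro v hv hv'
    exact hne (htri S T (Finset.mem_filter.1 (Finset.mem_coe.1 hS)).2.1
      (Finset.mem_filter.1 (Finset.mem_coe.1 hT)).2.1 ⟨v, hv, hv'⟩)
  have h3 : ∑ T ∈ (univ.filter fun T : Finset V => G.IsNClique 3 T ∧ T ⊆ W), (id T).card =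
      (univ.filter fun T : Finset V => G.IsNClique 3 T ∧ T ⊆ W).card * 3 := by
    refine Finset.sum_const_nat fun T hT => ?_
    exact (Finset.mem_filter.1 hT).2.1.card_eq
  rw [mul_comm, ← h3, ← h2]
  refine Finset.card_le_card fun v hv => ?_
  obtain ⟨T, hT, hvT⟩ := Finset.mem_biUnion.1 hv
  exact (Finset.mem_filter.1 hT).2.2 hvT

/-- planar graphs without cycles of length 4, 5, 6 with `3 T(W) ≤ |W| + 6` are 3-choosable -/
theorem planar456 (G : SimpleGraph V) (hM : MacLane G)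
    (h456 : ∀ (v : V) (c : G.Walk v v), c.IsCycle →
      c.length ≠ 4 ∧ c.length ≠ 5 ∧ c.length ≠ 6)
    (hT : ∀ W : Finset V, 3 * {T : Finset V | G.IsNClique 3 T ∧ T ⊆ W}.ncard ≤ W.card + 6)
    (L : V → Finset ℕ) (hL : ∀ v, 3 ≤ (L v).card) :
    ∃ f : V → ℕ, (∀ v, f v ∈ L v) ∧ ∀ u v, G.Adj u v → f u ≠ f v := by
  refine sparse_choosable G (planar_sparse 4 (by norm_num) G hM (noC_of_walk 6 G ?_) ?_) L hL
  · intro v c hc
    have h1 := h456 v c hc
    have h2 := hc.three_le_length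
    omega
  · intro W
    have := hT W
    omega

end Pool.Agent.W_fb73a4_h57
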