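import Pool.Agent.W_fb73a4_h20.MZ

/-! PDefs: definitions for the planar part. `m + 2` is the largest forbidden cycle length. -/

set_option autoImplicit false

namespace Pool.Agent.W_fb73a4_h57

open Finset
open scoped Classical
open Pool.Agent.W_fb73a4_h20

/-- the number of edges of an edge vector -/
noncomputable def sz {V : Type} [Fintype V] (z : EV V) : ℕ := (univ.filter fun e => z e ≠ 0).card

/-- no cycles of lengths `4, ..., k` -/
def NoC {V : Type} (k : ℕ) (G : SimpleGraph V) : Prop :=
  ∀ (n : ℕ) (x : ZMod n → V), IsCycSeq G x → n = 3 ∨ k < n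

/-- the triangles (vertex sets) -/
noncomputable def tri {V : Type} [Fintype V] (G : SimpleGraph V) : Finset (Finset V) :=
  univ.filter fun T => G.IsNClique 3 T

/-- the edge vector of a complete graph on `T` -/
noncomputable def tv {V : Type} (T : Finset V) : EV V :=
  fun e => if (∀ v ∈ e, v ∈ T) ∧ ¬ e.IsDiag then 1 else 0

/-- the subgraph induced on `W` (as a graph on the same vertex set) -/
def ind {V : Type} (G : SimpleGraph V) (W : Finset V) : SimpleGraph V where
  Adj u v := G.Adj u v ∧ u ∈ W ∧ v ∈ W
  symm := ⟨fun _ _ h => ⟨h.1.symm, h.2.2, h.2.1⟩⟩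
  loopless := ⟨fun v h => G.loopless.irrefl v h.1⟩

end Pool.Agent.W_fb73a4_h57
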