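import Pool.Agent.W_fb73a4_h57.KB
import Pool.Agent.W_fb73a4_h57.KC

/-! TA ([T7], part F): gluing, vertices of small degree, merging, cut vertices for the polynomials
`kill C (gp E)` modulo the ideal `I3 V` of the cubes. -/

set_option autoImplicit false

namespace Pool.Agent.W_fb73a4_h57

open MvPolynomial

variable {V : Type} [DecidableEq V]

theorem kill_X (S : Finset V) (v : V) : kill S (X v : P3 V) = if v ∈ S then 0 else X v := by
  rw [kill, aeval_X]

theorem kill_kill (S T : Finset V) (p : P3 V) : kill S (kill T p) = kill (S ∪ T) p := by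
  have h : (kill S).comp (kill T) = (kill (S ∪ T) : P3 V →ₐ[ZMod 3] P3 V) := by
    refine algHom_ext fun v => ?_
    rw [AlgHom.comp_apply, kill_X, kill_X]
    by_cases hT : v ∈ T
    · rw [if_pos hT, if_pos (Finset.mem_union_right _ hT), map_zero]
    · rw [if_neg hT, kill_X]
      by_cases hS : v ∈ S
      · rw [if_pos hS, if_pos (Finset.mem_union_left _ hS)]
      · rw [if_neg hS, if_neg]
        rw [Finset.mem_union]
        tauto
  exact congrArg (fun f => f p) h

theorem kill_congr (S T : Finset V) (A : Set V) (hST : ∀ v ∈ A, v ∈ S ↔ v ∈ T) (p : P3 V)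
    (hp : p ∈ supported (ZMod 3) A) : kill S p = kill T p := by
  rw [supported_eq_adjoin_X] at hp
  induction hp using Algebra.adjoin_induction with
  | mem x hx =>
    obtain ⟨v, hv, rfl⟩ := hx
    rw [kill_X, kill_X]
    by_cases h : v ∈ S
    · rw [if_pos h, if_pos ((hST v hv).1 h)]
    · rw [if_neg h, if_neg fun h' => h ((hST v hv).2 h')]
  | algebraMap r => rw [AlgHom.commutes, AlgHom.commutes]
  | add x y _ _ hx hy => rw [map_add, map_add, hx, hy]
  | mul x y _ _ hx hy => rw [map_mul, map_mul, hx, hy]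

theorem kill_empty (p : P3 V) : kill ∅ p = p := by
  have h : (kill ∅ : P3 V →ₐ[ZMod 3] P3 V) = AlgHom.id (ZMod 3) (P3 V) := by
    refine algHom_ext fun v => ?_
    rw [kill_X, if_neg (Finset.notMem_empty v), AlgHom.id_apply]
  rw [h]
  rfl

/-- a polynomial without the variables of `S` is not changed -/
theorem kill_free (S : Finset V) (p : P3 V) (hp : p ∈ supported (ZMod 3) ((S : Set V)ᶜ)) :
    kill S p = p := by
  rw [kill_congr S ∅ _ (fun v hv => ?_) p hp, kill_empty]
  constructor
  · intro h
    exact absurd (Finset.mem_coe.2 h) hv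
  · intro h
    exact absurd h (Finset.notMem_empty v)

theorem kill_mem_I3 (S : Finset V) {p : P3 V} (hp : p ∈ I3 V) : kill S p ∈ I3 V := by
  unfold kill
  refine aeval_mem _ (fun v => ?_) hp
  split_ifs
  · rw [zero_pow (by norm_num)]
    exact Ideal.zero_mem _
  · exact X_cube_mem v

theorem kill_gp_supported (C : Finset V) (E : Multiset (V × V)) (A : Set V)
    (h : ∀ e ∈ E, (e.1 ∈ A ∨ e.1 ∈ C) ∧ (e.2 ∈ A ∨ e.2 ∈ C)) :
    kill C (gp E) ∈ supported (ZMod 3) A := by
  unfold gp
  rw [map_multiset_prod, Multiset.map_map]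
  refine Subalgebra.multiset_prod_mem _ (fun p hp => ?_)
  rw [Multiset.mem_map] at hp
  obtain ⟨e, he, rfl⟩ := hp
  rw [Function.comp_apply, map_sub, kill_X, kill_X]
  refine Subalgebra.sub_mem _ ?_ ?_
  · split_ifs with h1
    · exact Subalgebra.zero_mem _
    · exact X_mem_supported.2 ((h e he).1.resolve_right h1)
  · split_ifs with h1
    · exact Subalgebra.zero_mem _
    · exact X_mem_supported.2 ((h e he).2.resolve_right h1)

/-- product of two polynomials in disjoint sets of variables -/
theorem prod_not_mem (S : Finset V) (p B : P3 V) (hp : p ∈ supported (ZMod 3) (S : Set V))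
    (hB : B ∈ supported (ZMod 3) ((S : Set V)ᶜ)) (hp0 : p ∉ I3 V) (hB0 : B ∉ I3 V) :
    p * B ∉ I3 V := by
  intro h
  have h1 := kill_mem S p B hp hp0 h
  rw [kill_free S B hB] at h1
  exact hB0 h1

/-- GLUING along `K` (a cycle or any set of vertices): `U` is a set of vertices not in `C` (the
vertices strictly inside `K`), `E1` are the edges which avoid `U`, the ends of `E2` lie in
`U ∪ K`. -/
theorem glue (C K U : Finset V) (E1 E2 : Multiset (V × V)) (hCU : Disjoint C U)
    (hKU : Disjoint K U) (h1 : ∀ e ∈ E1, e.1 ∉ U ∧ e.2 ∉ U)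
    (h2 : ∀ e ∈ E2, (e.1 ∈ U ∨ e.1 ∈ K) ∧ (e.2 ∈ U ∨ e.2 ∈ K))
    (n1 : kill C (gp E1) ∉ I3 V) (n2 : kill K (gp E2) ∉ I3 V) :
    kill C (gp (E1 + E2)) ∉ I3 V := by
  intro h
  rw [gp_add, map_mul] at h
  have hs : ∃ S : Finset V, Disjoint S U ∧ K ⊆ S ∧ C ⊆ S ∧
      kill C (gp E1) ∈ supported (ZMod 3) (S : Set V) := by
    refine ⟨(kill C (gp E1)).vars ∪ K ∪ C, ?_, ?_, Finset.subset_union_right, ?_⟩
    · rw [Finset.disjoint_union_left, Finset.disjoint_union_left]
      refine ⟨⟨?_, hKU⟩, hCU⟩
      have h3 : kill C (gp E1) ∈ supported (ZMod 3) ((U : Set V)ᶜ) :=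
        kill_gp_supported C E1 _ fun e he =>
          ⟨Or.inl fun h4 => (h1 e he).1 (Finset.mem_coe.1 h4),
            Or.inl fun h4 => (h1 e he).2 (Finset.mem_coe.1 h4)⟩
      rw [mem_supported] at h3
      rw [Finset.disjoint_left]
      intro v hv hU
      exact h3 (Finset.mem_coe.2 hv) (Finset.mem_coe.2 hU)
    · exact (Finset.subset_union_right).trans Finset.subset_union_left
    · rw [mem_supported]
      intro v hv
      rw [Finset.mem_coe] at hv ⊢
      exact Finset.mem_union_left _ (Finset.mem_union_left _ hv)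
  obtain ⟨S, hSU, hKS, hCS, hsup⟩ := hs
  have h3 := kill_mem S _ _ hsup n1 h
  rw [kill_kill] at h3
  apply n2
  have h4 : gp E2 ∈ supported (ZMod 3) ((U : Set V) ∪ (K : Set V)) :=
    gp_supported E2 _ fun e he =>
      ⟨(h2 e he).1.elim (fun h => Or.inl (Finset.mem_coe.2 h)) fun h => Or.inr (Finset.mem_coe.2 h),
        (h2 e he).2.elim (fun h => Or.inl (Finset.mem_coe.2 h)) fun h => Or.inr (Finset.mem_coe.2 h)⟩
  rw [kill_congr K (S ∪ C) _ ?_ _ h4]
  · exact h3
  · rintro v (hv | hv)
    · have hU := Finset.mem_coe.1 hv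
      constructor
      · intro hK
        exact absurd hU (Finset.disjoint_left.1 hKU hK)
      · intro hS
        rcases Finset.mem_union.1 hS with hS | hC
        · exact absurd hU (Finset.disjoint_left.1 hSU hS)
        · exact absurd hU (Finset.disjoint_left.1 hCU hC)
    · have hK := Finset.mem_coe.1 hv
      exact ⟨fun _ => Finset.mem_union_left _ (hKS hK), fun _ => hK⟩

/-- TRANSLATION: `E` inside `R`, `w ∈ R`. Then `X w` may be set to zero. -/
theorem kill_one_iff (R : Finset V) (w : V) (hw : w ∈ R) (E : Multiset (V × V)) (hE : Ins E R) :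
    kill {w} (gp E) ∈ I3 V ↔ gp E ∈ I3 V := by
  have h : sh (R.erase w) w (gp E) = kill {w} (gp E) := by
    unfold gp
    rw [map_multiset_prod, map_multiset_prod, Multiset.map_map, Multiset.map_map]
    congr 1
    refine Multiset.map_congr rfl fun e he => ?_
    rw [Function.comp_apply, Function.comp_apply,
      sh_diff R w hw _ _ (hE e he).1 (hE e he).2, map_sub, kill_X, kill_X]
    congr 1
    · by_cases h1 : e.1 = w
      · rw [if_neg, if_pos (Finset.mem_singleton.2 h1)]
        rw [h1]
        exact Finset.notMem_erase w R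
      · rw [if_pos (Finset.mem_erase.2 ⟨h1, (hE e he).1⟩), if_neg]
        rwa [Finset.mem_singleton]
    · by_cases h1 : e.2 = w
      · rw [if_neg, if_pos (Finset.mem_singleton.2 h1)]
        rw [h1]
        exact Finset.notMem_erase w R
      · rw [if_pos (Finset.mem_erase.2 ⟨h1, (hE e he).2⟩), if_neg]
        rwa [Finset.mem_singleton]
  rw [← h]
  exact sh_mem_iff _ _ (Finset.notMem_erase w R) _

theorem sh_free (S : Finset V) (w : V) (p : P3 V)
    (hp : p ∈ supported (ZMod 3) ((S : Set V)ᶜ)) : sh S w p = p := by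
  rw [supported_eq_adjoin_X] at hp
  induction hp using Algebra.adjoin_induction with
  | mem x hx =>
    obtain ⟨v, hv, rfl⟩ := hx
    unfold sh
    rw [aeval_X, if_neg]
    intro h
    exact hv (Finset.mem_coe.2 h)
  | algebraMap r => rw [AlgHom.commutes]
  | add x y _ _ hx hy => rw [map_add, hx, hy]
  | mul x y _ _ hx hy => rw [map_mul, hx, hy]

/-- CUT VERTEX `w`: `E2` inside `R`, `E1` meets `R` at most in `w`, `C` meets `R` at most in
`w`. -/
theorem cut_vertex (C R : Finset V) (w : V) (hw : w ∈ R) (E1 E2 : Multiset (V × V))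
    (hE2 : Ins E2 R) (h1 : ∀ e ∈ E1, e.1 ∉ R.erase w ∧ e.2 ∉ R.erase w)
    (hC : Disjoint C (R.erase w)) (n1 : kill C (gp E1) ∉ I3 V) (n2 : gp E2 ∉ I3 V) :
    kill C (gp (E1 + E2)) ∉ I3 V := by
  have n2' : kill {w} (gp E2) ∉ I3 V := fun h => n2 ((kill_one_iff R w hw E2 hE2).1 h)
  have s1 : kill C (gp E1) ∈ supported (ZMod 3) (((R.erase w : Finset V) : Set V)ᶜ) :=
    kill_gp_supported C E1 _ fun e he =>
      ⟨Or.inl fun h4 => (h1 e he).1 (Finset.mem_coe.1 h4),
        Or.inl fun h4 => (h1 e he).2 (Finset.mem_coe.1 h4)⟩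
  have s2 : kill {w} (gp E2) ∈ supported (ZMod 3) ((R.erase w : Finset V) : Set V) := by
    refine kill_gp_supported {w} E2 _ fun e he => ?_
    have h3 : ∀ v ∈ R, v ∈ ((R.erase w : Finset V) : Set V) ∨ v ∈ ({w} : Finset V) := by
      intro v hv
      by_cases h4 : v = w
      · exact Or.inr (Finset.mem_singleton.2 h4)
      · exact Or.inl (Finset.mem_coe.2 (Finset.mem_erase.2 ⟨h4, hv⟩))
    exact ⟨h3 _ (hE2 e he).1, h3 _ (hE2 e he).2⟩
  have key : kill {w} (gp E2) * kill C (gp E1) ∉ I3 V := prod_not_mem _ _ _ s2 s1 n2' n1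
  intro h
  rw [gp_add, map_mul] at h
  have hE2s : gp E2 ∈ supported (ZMod 3) (R : Set V) :=
    gp_supported E2 _ fun e he => ⟨Finset.mem_coe.2 (hE2 e he).1, Finset.mem_coe.2 (hE2 e he).2⟩
  apply key
  by_cases hwC : w ∈ C
  · have h3 : kill C (gp E2) = kill {w} (gp E2) := by
      refine kill_congr C {w} _ (fun v hv => ?_) _ hE2s
      constructor
      · intro hvC
        by_contra h4
        rw [Finset.mem_singleton] at h4
        exact Finset.disjoint_left.1 hC hvC (Finset.mem_erase.2 ⟨h4, Finset.mem_coe.1 hv⟩)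
      · intro h4
        rw [Finset.mem_singleton] at h4
        rwa [h4]
    rw [h3, mul_comm] at h
    exact h
  · have h3 : kill C (gp E2) = gp E2 := by
      rw [kill_congr C ∅ _ (fun v hv => ?_) _ hE2s, kill_empty]
      constructor
      · intro hvC
        exfalso
        by_cases h4 : v = w
        · exact hwC (h4 ▸ hvC)
        · exact Finset.disjoint_left.1 hC hvC (Finset.mem_erase.2 ⟨h4, Finset.mem_coe.1 hv⟩)
      · intro h4
        exact absurd h4 (Finset.notMem_empty v)
    rw [h3] at h
    have h4 : sh (R.erase w) w (kill C (gp E1) * gp E2) ∈ I3 V :=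
      (sh_mem_iff _ _ (Finset.notMem_erase w R) _).2 h
    rw [map_mul, sh_free _ _ _ s1] at h4
    have h5 : sh (R.erase w) w (gp E2) = kill {w} (gp E2) := by
      unfold gp
      rw [map_multiset_prod, map_multiset_prod, Multiset.map_map, Multiset.map_map]
      congr 1
      refine Multiset.map_congr rfl fun e he => ?_
      rw [Function.comp_apply, Function.comp_apply,
        sh_diff R w hw _ _ (hE2 e he).1 (hE2 e he).2, map_sub, kill_X, kill_X]
      congr 1
      · by_cases h1 : e.1 = w
        · rw [if_neg, if_pos (Finset.mem_singleton.2 h1)]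
          rw [h1]
          exact Finset.notMem_erase w R
        · rw [if_pos (Finset.mem_erase.2 ⟨h1, (hE2 e he).1⟩), if_neg]
          rwa [Finset.mem_singleton]
      · by_cases h1 : e.2 = w
        · rw [if_neg, if_pos (Finset.mem_singleton.2 h1)]
          rw [h1]
          exact Finset.notMem_erase w R
        · rw [if_pos (Finset.mem_erase.2 ⟨h1, (hE2 e he).2⟩), if_neg]
          rwa [Finset.mem_singleton]
    rw [h5, mul_comm] at h4
    exact h4

/-- SPLITTING along `C` (chords, several blocks at `C`): the common vertices of `E1` and `E2` lie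
in `C`. -/
theorem split_C (C A : Finset V) (E1 E2 : Multiset (V × V))
    (h1 : ∀ e ∈ E1, (e.1 ∈ A ∨ e.1 ∈ C) ∧ (e.2 ∈ A ∨ e.2 ∈ C))
    (h2 : ∀ e ∈ E2, (e.1 ∉ A ∨ e.1 ∈ C) ∧ (e.2 ∉ A ∨ e.2 ∈ C))
    (n1 : kill C (gp E1) ∉ I3 V) (n2 : kill C (gp E2) ∉ I3 V) :
    kill C (gp (E1 + E2)) ∉ I3 V := by
  rw [gp_add, map_mul]
  refine prod_not_mem A _ _ ?_ ?_ n1 n2
  · refine kill_gp_supported C E1 _ fun e he => ?_
    exact ⟨(h1 e he).1.imp_left fun h => Finset.mem_coe.2 h,
      (h1 e he).2.imp_left fun h => Finset.mem_coe.2 h⟩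
  · refine kill_gp_supported C E2 _ fun e he => ?_
    exact ⟨(h2 e he).1.imp_left fun h h' => h (Finset.mem_coe.1 h'),
      (h2 e he).2.imp_left fun h h' => h (Finset.mem_coe.1 h')⟩

omit [DecidableEq V] in
/-- EXTRACTION of the coefficients of `1, X v, X v ^ 2` -/
theorem extract (v : V) (q : ℕ → P3 V) (M : P3 V)
    (hq : ∀ k, q k ∈ supported (ZMod 3) (({v} : Set V)ᶜ))
    (hM : M ∈ supported (ZMod 3) (({v} : Set V)ᶜ))
    (h : (q 0 + q 1 * X v + q 2 * X v ^ 2) * M ∈ I3 V) (k : ℕ) (hk : k ≤ 2) :
    q k * M ∈ I3 V := by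
  classical
  have free : ∀ p : P3 V, p ∈ supported (ZMod 3) (({v} : Set V)ᶜ) → ∀ d : V →₀ ℕ, d v ≠ 0 →
      coeff d p = 0 := by
    intro p hp d hd
    rw [mem_supported] at hp
    by_contra h0
    have h1 : v ∈ p.vars := by
      rw [mem_vars_iff_mem_support]
      exact ⟨d, by rw [mem_support_iff]; exact h0, by rw [Finsupp.mem_support_iff]; exact hd⟩
    exact hp (Finset.mem_coe.2 h1) rfl
  have hqM : ∀ k, q k * M ∈ supported (ZMod 3) (({v} : Set V)ᶜ) := fun k =>
    Subalgebra.mul_mem _ (hq k) hM
  rw [mem_I3_iff]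
  intro d hd
  by_cases hdv : d v = 0
  swap
  · exact free _ (hqM k) d hdv
  have hd' : ∀ u, (d + Finsupp.single v k) u ≤ 2 := by
    intro u
    rw [Finsupp.add_apply]
    by_cases huv : u = v
    · subst huv
      rw [Finsupp.single_eq_same, hdv]
      omega
    · rw [Finsupp.single_apply, if_neg (Ne.symm huv)]
      exact hd u
  have h2 := (mem_I3_iff _).1 h _ hd'
  have h3 : (q 0 + q 1 * X v + q 2 * X v ^ 2) * M =
      q 0 * M * monomial (Finsupp.single v 0) 1 + q 1 * M * monomial (Finsupp.single v 1) 1 +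
        q 2 * M * monomial (Finsupp.single v 2) 1 := by
    rw [← X_pow_eq_monomial, ← X_pow_eq_monomial, ← X_pow_eq_monomial]
    ring
  have h4 : ∀ j ≤ 2, coeff (d + Finsupp.single v k) (q j * M * monomial (Finsupp.single v j) 1) =
      if j = k then coeff d (q j * M) else 0 := by
    intro j hj
    rw [coeff_mul_monomial']
    split_ifs with h5 h6 h6
    · subst h6
      rw [add_tsub_cancel_right, mul_one]
    · rw [mul_one]
      refine free _ (hqM j) _ ?_
      rw [Finsupp.single_le_iff, Finsupp.add_apply, Finsupp.single_eq_same, hdv] at h5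
      rw [Finsupp.tsub_apply, Finsupp.add_apply, Finsupp.single_eq_same, Finsupp.single_eq_same,
        hdv]
      omega
    · exfalso
      subst h6
      apply h5
      exact le_add_of_nonneg_left (by simp)
    · rfl
  rw [h3, coeff_add, coeff_add, h4 0 (by omega), h4 1 (by omega), h4 2 (by omega)] at h2
  have h5 : k = 0 ∨ k = 1 ∨ k = 2 := by omega
  rcases h5 with rfl | rfl | rfl
  · simpa using h2
  · simpa using h2
  · simpa using h2

/-- MERGING: `p` is identified with `q` (`q` may lie in `C`, `p` not). -/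
theorem merge_mem (C : Finset V) (p q : V) (hpq : p ≠ q) (hp : p ∉ C) (B : P3 V)
    (h : kill C ((X p - X q) ^ 2) * kill C B ∈ I3 V) :
    kill C (rename (Function.update id p q) B) ∈ I3 V := by
  have hX : (X p : P3 V) ^ 2 ∉ I3 V := by
    intro h1
    have := (mem_I3_iff _).1 h1 (Finsupp.single p 2) (by
      intro v
      rw [Finsupp.single_apply]
      split_ifs <;> omega)
    rw [X_pow_eq_monomial, coeff_monomial, if_pos rfl] at this
    exact one_ne_zero this
  have hXs : (X p : P3 V) ^ 2 ∈ supported (ZMod 3) ((({p} : Finset V) : Set V)) :=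
    Subalgebra.pow_mem _ (X_mem_supported.2 (Finset.mem_coe.2 (Finset.mem_singleton_self p))) 2
  by_cases hq : q ∈ C
  · have h1 : kill C ((X p - X q : P3 V) ^ 2) = X p ^ 2 := by
      rw [map_pow, map_sub, kill_X, kill_X, if_neg hp, if_pos hq, sub_zero]
    rw [h1] at h
    have h2 := kill_mem {p} _ _ hXs hX h
    have h3 : (kill {p}).comp (kill C) =
        (kill C : P3 V →ₐ[ZMod 3] P3 V).comp (rename (Function.update id p q)) := by
      refine algHom_ext fun v => ?_
      rw [AlgHom.comp_apply, AlgHom.comp_apply, rename_X, kill_X, kill_X]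
      by_cases hv : v = p
      · subst hv
        rw [if_neg hp, Function.update_self, if_pos hq, kill_X,
          if_pos (Finset.mem_singleton_self _)]
      · rw [Function.update_of_ne hv, id]
        by_cases hvC : v ∈ C
        · rw [if_pos hvC, map_zero]
        · rw [if_neg hvC, kill_X, if_neg]
          rwa [Finset.mem_singleton]
    have h4 := congrArg (fun f => f B) h3
    change kill {p} (kill C B) = _ at h4
    rw [h4] at h2
    exact h2
  · have h1 : kill C ((X p - X q : P3 V) ^ 2) = (X p - X q) ^ 2 := by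
      rw [map_pow, map_sub, kill_X, kill_X, if_neg hp, if_neg hq]
    rw [h1] at h
    have hqp : q ∉ ({p} : Finset V) := by
      rw [Finset.mem_singleton]
      exact fun h => hpq h.symm
    have h2 : sh {p} q ((X p - X q) ^ 2 * kill C B) ∈ I3 V := (sh_mem_iff _ _ hqp _).2 h
    have h3 : sh {p} q ((X p - X q : P3 V) ^ 2) = X p ^ 2 := by
      unfold sh
      rw [map_pow, map_sub, aeval_X, aeval_X, if_pos (Finset.mem_singleton_self p), if_neg hqp]
      ring
    rw [map_mul, h3] at h2
    have h4 := kill_mem {p} _ _ hXs hX h2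
    have h5 : ((kill {p}).comp (sh {p} q)).comp (kill C) =
        (kill C : P3 V →ₐ[ZMod 3] P3 V).comp (rename (Function.update id p q)) := by
      refine algHom_ext fun v => ?_
      rw [AlgHom.comp_apply, AlgHom.comp_apply, AlgHom.comp_apply, rename_X, kill_X, kill_X]
      by_cases hv : v = p
      · subst hv
        rw [if_neg hp, Function.update_self, if_neg hq]
        unfold sh
        rw [aeval_X, if_pos (Finset.mem_singleton_self _), map_add, kill_X, kill_X,
          if_pos (Finset.mem_singleton_self _), if_neg hqp, zero_add]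
      · rw [Function.update_of_ne hv, id]
        by_cases hvC : v ∈ C
        · rw [if_pos hvC, map_zero, map_zero]
        · rw [if_neg hvC]
          unfold sh
          rw [aeval_X, if_neg (by rwa [Finset.mem_singleton]), kill_X, if_neg]
          rwa [Finset.mem_singleton]
    have h6 := congrArg (fun f => f B) h5
    change kill {p} (sh {p} q (kill C B)) = _ at h6
    rw [h6] at h4
    exact h4

omit [DecidableEq V] in
theorem gp_cons (e : V × V) (E : Multiset (V × V)) :
    (gp (e ::ₘ E) : P3 V) = (X e.1 - X e.2) * gp E := by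
  unfold gp
  rw [Multiset.map_cons, Multiset.prod_cons]

omit [DecidableEq V] in
theorem gp_zero : (gp 0 : P3 V) = 1 := by
  unfold gp
  rw [Multiset.map_zero, Multiset.prod_zero]

/-- a factor `X x - Y` with `Y` free of `X x`, times `M` free of `X x` -/
private theorem TA_lin (x : V) (N : Multiset V) (hN : x ∉ N) (C : Finset V) (hx : x ∉ C) :
    ∃ q : ℕ → P3 V, (∀ k, q k ∈ supported (ZMod 3) (({x} : Set V)ᶜ)) ∧
      q (Multiset.card N) = 1 ∧ (∀ k, Multiset.card N < k → q k = 0) ∧
      (Multiset.card N ≤ 2 → kill C (st x N) = q 0 + q 1 * X x + q 2 * X x ^ 2) := by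
  induction N using Multiset.induction_on with
  | empty =>
    refine ⟨fun k => if k = 0 then 1 else 0, fun k => ?_, ?_, fun k hk => ?_, fun _ => ?_⟩
    · dsimp only
      split_ifs
      · exact Subalgebra.one_mem _
      · exact Subalgebra.zero_mem _
    · simp
    · rw [Multiset.card_zero] at hk
      dsimp only
      rw [if_neg (by omega)]
    · simp [st]
  | cons u N ih =>
    obtain ⟨q, hq, h1, h2, h3⟩ := ih fun h => hN (Multiset.mem_cons_of_mem h)
    have hxu : u ≠ x := fun h => hN (h ▸ Multiset.mem_cons_self u N)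
    have hu : kill C (X u : P3 V) ∈ supported (ZMod 3) (({x} : Set V)ᶜ) := by
      rw [kill_X]
      split_ifs
      · exact Subalgebra.zero_mem _
      · exact X_mem_supported.2 hxu
    refine ⟨fun k => (if k = 0 then 0 else q (k - 1)) - kill C (X u) * q k, fun k => ?_, ?_,
      fun k hk => ?_, fun hc => ?_⟩
    · refine Subalgebra.sub_mem _ ?_ (Subalgebra.mul_mem _ hu (hq k))
      split_ifs
      · exact Subalgebra.zero_mem _
      · exact hq _
    · dsimp only
      rw [Multiset.card_cons, if_neg (by omega), Nat.add_sub_cancel, h1, h2 _ (by omega), mul_zero,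
        sub_zero]
    · rw [Multiset.card_cons] at hk
      dsimp only
      rw [if_neg (by omega), h2 _ (by omega), h2 _ (by omega), mul_zero, sub_zero]
    · rw [Multiset.card_cons] at hc
      have h4 := h3 (by omega)
      have h5 : (st x (u ::ₘ N) : P3 V) = (X x - X u) * st x N := by
        unfold st
        rw [Multiset.map_cons, Multiset.prod_cons]
      have h6 : q 2 = 0 := h2 2 (by omega)
      rw [h5, map_mul, map_sub, h4]
      have h7 : kill C (X x : P3 V) = X x := by rw [kill_X, if_neg hx]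
      rw [h7]
      simp only [if_pos, h6, if_neg (show (1 : ℕ) ≠ 0 by omega), if_neg (show (2 : ℕ) ≠ 0 by omega)]
      norm_num
      ring

/-- SMALL DEGREE: at most two edges at `x ∉ C` -/
theorem low_degree (C : Finset V) (x : V) (hx : x ∉ C) (N : Multiset V) (hN : x ∉ N)
    (hc : Multiset.card N ≤ 2) (E : Multiset (V × V)) (hE : ∀ e ∈ E, e.1 ≠ x ∧ e.2 ≠ x)
    (h : kill C (st x N * gp E) ∈ I3 V) : kill C (gp E) ∈ I3 V := by
  obtain ⟨q, hq, h1, _, h3⟩ := TA_lin x N hN C hx
  rw [map_mul, h3 hc] at h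
  have h4 : kill C (gp E) ∈ supported (ZMod 3) (({x} : Set V)ᶜ) :=
    kill_gp_supported C E _ fun e he => ⟨Or.inl (hE e he).1, Or.inl (hE e he).2⟩
  have h5 := extract x q _ hq h4 h _ hc
  rw [h1, one_mul] at h5
  exact h5

end Pool.Agent.W_fb73a4_h57
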