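import Pool.Agent.W_fb73a4_h57.TA

/-! TB ([T7], part F): sparse polynomials over the field with three elements modulo the cubes of the
variables, computed in the kernel, and the soundness of the certificates for the gadgets.
A monomial is a number in base 4, the digit `i` is the exponent of the variable `i`; a polynomial is
a list of monomials with signs (`true` is `1`, `false` is `-1`), sorted in all computations (the
proofs do not use this). -/

set_option autoImplicit false

namespace Pool.Agent.W_fb73a4_h57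

open MvPolynomial

/-- sparse polynomials -/
abbrev SP := List (ℕ × Bool)

/-- product with the variable of weight `w` (`w = 4 ^ i`) -/
def mul1 (w : ℕ) : SP → SP
  | [] => []
  | t :: l => bif Nat.ble 2 (Nat.mod (Nat.div t.1 w) 4) then mul1 w l
      else (Nat.add t.1 w, t.2) :: mul1 w l

/-- insertion of a term, then continue with `k` on the rest -/
def insK (c : ℕ) (s : Bool) (k : SP → SP) : SP → SP
  | [] => (c, s) :: k []
  | t :: q => bif Nat.beq c t.1 then
        (bif s == t.2 then (c, !s) :: k q else k q)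
      else bif Nat.ble c t.1 then (c, s) :: k (t :: q) else t :: insK c s k q

/-- sum -/
def mrg : SP → SP → SP
  | [], q => q
  | t :: p, q => insK t.1 t.2 (mrg p) q

/-- negation -/
def ng : SP → SP
  | [] => []
  | t :: l => (t.1, !t.2) :: ng l

/-- product with the difference of the variables `a` and `b` -/
def mulE (a b : ℕ) (p : SP) : SP := mrg (mul1 (Nat.pow 4 a) p) (ng (mul1 (Nat.pow 4 b) p))

/-- the coefficient of the power `e` of the variable of weight `w` -/
def ext (w e : ℕ) : SP → SP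
  | [] => []
  | t :: l => bif Nat.beq (Nat.mod (Nat.div t.1 w) 4) e then
      (Nat.sub t.1 (Nat.mul e w), t.2) :: ext w e l else ext w e l

/-- product with all differences of a list -/
def mulL : List (ℕ × ℕ) → SP → SP
  | [], p => p
  | e :: l, p => mulL l (mulE e.1 e.2 p)

/-- incidence -/
def inc (i : ℕ) (e : ℕ × ℕ) : Bool := Nat.beq e.1 i || Nat.beq e.2 i

/-- product over the edges `E`, times `p`, and extraction of the exponents of the list `o` of pairs
(variable, exponent) -/
def elim : List (ℕ × ℕ) → List (ℕ × ℕ) → SP → SP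
  | [], E, p => mulL E p
  | t :: o, E, p => elim o (E.filter fun e => !inc t.1 e)
      (ext (Nat.pow 4 t.1) t.2 (mulL (E.filter fun e => inc t.1 e) p))

/-- product with a monomial, given as a list of variables -/
def mulM : List ℕ → SP → SP
  | [], p => p
  | i :: l, p => mulM l (mul1 (Nat.pow 4 i) p)

/-- product with a polynomial, given as a list of monomials with signs -/
def mulP : List (List ℕ × Bool) → SP → SP
  | [], _ => []
  | t :: m, p => mrg (bif t.2 then mulM t.1 p else ng (mulM t.1 p)) (mulP m p)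

/-- certificate: elimination orders with exponents, with multipliers; squares of differences of
adjacent terminals, with multipliers -/
structure ACert where
  gens : List (List (ℕ × ℕ) × List (List ℕ × Bool))
  sqs : List ((ℕ × ℕ) × List (List ℕ × Bool))

/-- sum over the generators -/
def sumG (ed : List (ℕ × ℕ)) : List (List (ℕ × ℕ) × List (List ℕ × Bool)) → SP
  | [] => []
  | g :: l => mrg (mulP g.2 (elim g.1 ed [(0, true)])) (sumG ed l)

/-- sum over the squares -/
def sumS : List ((ℕ × ℕ) × List (List ℕ × Bool)) → SP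
  | [] => []
  | g :: l => mrg (mulP g.2 (mulE g.1.1 g.1.2 (mulE g.1.1 g.1.2 [(0, true)]))) (sumS l)

/-- all numbers of a list of pairs are smaller than `N` -/
def ltL (N : ℕ) (l : List (ℕ × ℕ)) : Bool := l.all fun e => Nat.blt e.1 N && Nat.blt e.2 N

/-- the check: `D` are the numbers smaller than `nD`, all numbers are smaller than `N`, `ed` the
edges which meet `D`, `tt` known edges between terminals, `mg` the merges, `nw` the new edges -/
def acheck (N nD : ℕ) (ed tt mg nw : List (ℕ × ℕ)) (c : ACert) : Bool :=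
  ltL N ed && ltL N tt && ltL N mg && ltL N nw &&
  (c.gens.all fun g => g.1.all fun t => Nat.blt t.1 nD && Nat.ble t.2 2) &&
  (c.sqs.all fun g => tt.any fun e => Nat.beq e.1 g.1.1 && Nat.beq e.2 g.1.2) &&
  (mrg (mulL nw (mulL mg (mulL mg [(0, true)]))) (ng (mrg (sumG ed c.gens) (sumS c.sqs)))).isEmpty

/-- product of the differences -/
noncomputable def prodE {V : Type} (y : ℕ → P3 V) (E : List (ℕ × ℕ)) : P3 V :=
  (E.map fun e => y e.1 - y e.2).prod

/-! ### digits -/

theorem dig_add (c i j : ℕ) (h : c / 4 ^ i % 4 < 3) :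
    (c + 4 ^ i) / 4 ^ j % 4 = c / 4 ^ j % 4 + if j = i then 1 else 0 := by
  rcases lt_trichotomy j i with h1 | h1 | h1
  · rw [if_neg (by omega)]
    obtain ⟨k, rfl⟩ : ∃ k, i = j + 1 + k := ⟨i - j - 1, by omega⟩
    have h2 : (4 : ℕ) ^ (j + 1 + k) = 4 ^ j * (4 * 4 ^ k) := by rw [pow_add, pow_succ]; ring
    rw [h2, Nat.add_mul_div_left _ _ (by positivity), Nat.add_mul_mod_self_left, add_zero]
  · subst h1
    rw [if_pos rfl, Nat.add_div_right _ (by positivity)]
    omega
  · rw [if_neg (by omega)]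
    obtain ⟨k, rfl⟩ : ∃ k, j = i + (1 + k) := ⟨j - i - 1, by omega⟩
    rw [pow_add, ← Nat.div_div_eq_div_mul, ← Nat.div_div_eq_div_mul,
      Nat.add_div_right _ (by positivity), pow_add, pow_one, ← Nat.div_div_eq_div_mul,
      ← Nat.div_div_eq_div_mul]
    have h3 : (c / 4 ^ i + 1) / 4 = c / 4 ^ i / 4 := by omega
    rw [h3, add_zero]

section
variable {V : Type}

/-- the monomial with code `c` -/
noncomputable def mn (y : ℕ → P3 V) (c : ℕ) : P3 V :=
  ∏ i ∈ Finset.range (c + 1), y i ^ (c / 4 ^ i % 4)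

theorem mn_range (y : ℕ → P3 V) (c N : ℕ) (hN : c < N) :
    mn y c = ∏ i ∈ Finset.range N, y i ^ (c / 4 ^ i % 4) := by
  unfold mn
  refine Finset.prod_subset (fun i hi => ?_) fun i _ hi => ?_
  · rw [Finset.mem_range] at hi ⊢
    omega
  · rw [Finset.mem_range, not_lt] at hi
    rw [Nat.div_eq_of_lt, Nat.zero_mod, pow_zero]
    exact lt_of_lt_of_le (Nat.lt_pow_self (by norm_num)) (Nat.pow_le_pow_right (by norm_num)
      (show c ≤ i by omega))

theorem mn_add (y : ℕ → P3 V) (c i : ℕ) (h : c / 4 ^ i % 4 < 3) :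
    mn y (c + 4 ^ i) = mn y c * y i := by
  have hi : i < c + 4 ^ i + 1 := by
    have : i < 4 ^ i := Nat.lt_pow_self (by norm_num)
    omega
  have hp : 0 < 4 ^ i := by positivity
  rw [mn_range y (c + 4 ^ i) (c + 4 ^ i + 1) (by omega), mn_range y c (c + 4 ^ i + 1) (by omega)]
  have h1 : ∀ j ∈ Finset.range (c + 4 ^ i + 1), y j ^ ((c + 4 ^ i) / 4 ^ j % 4) =
      y j ^ (c / 4 ^ j % 4) * (if j = i then y i else 1) := by
    intro j _
    rw [dig_add c i j h, pow_add]
    congr 1
    by_cases hj : j = i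
    · rw [if_pos hj, if_pos hj, hj, pow_one]
    · rw [if_neg hj, if_neg hj, pow_zero]
  rw [Finset.prod_congr rfl h1, Finset.prod_mul_distrib, Finset.prod_ite_eq' _ i,
    if_pos (Finset.mem_range.2 hi)]

/-- removal of the variable `i` -/
theorem mn_sub (y : ℕ → P3 V) (i e : ℕ) : ∀ c, c / 4 ^ i % 4 = e →
    (c - e * 4 ^ i) / 4 ^ i % 4 = 0 ∧ mn y c = mn y (c - e * 4 ^ i) * y i ^ e := by
  induction e with
  | zero =>
    intro c h
    rw [zero_mul, Nat.sub_zero, pow_zero, mul_one]
    exact ⟨h, rfl⟩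
  | succ e ih =>
    intro c h
    have h1 : 4 ^ i ≤ c := by
      by_contra h2
      rw [Nat.div_eq_of_lt (by omega)] at h
      simp at h
    have hp : 0 < 4 ^ i := by positivity
    have h0 : 0 < c / 4 ^ i := Nat.div_pos h1 hp
    have h2 : (c - 4 ^ i) / 4 ^ i % 4 = e := by
      have h3 : (c - 4 ^ i) / 4 ^ i = c / 4 ^ i - 1 := by
        have := Nat.sub_mul_div c (4 ^ i) 1
        rwa [mul_one] at this
      rw [h3]
      omega
    obtain ⟨h3, h4⟩ := ih _ h2
    have h5 : c - 4 ^ i - e * 4 ^ i = c - (e + 1) * 4 ^ i := by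
      rw [Nat.sub_sub]
      congr 1
      ring
    rw [h5] at h3 h4
    refine ⟨h3, ?_⟩
    have h6 := mn_add y (c - 4 ^ i) i (by omega)
    rw [Nat.sub_add_cancel h1] at h6
    rw [h6, h4, pow_succ, mul_assoc]

theorem mn_free (y : ℕ → P3 V) (i c : ℕ) (h : c / 4 ^ i % 4 = 0) (A : Subalgebra (ZMod 3) (P3 V))
    (hA : ∀ j, j ≠ i → y j ∈ A) : mn y c ∈ A := by
  unfold mn
  refine Subalgebra.prod_mem _ fun j _ => ?_
  by_cases hj : j = i
  · rw [hj, h, pow_zero]
    exact Subalgebra.one_mem _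
  · exact Subalgebra.pow_mem _ (hA j hj) _

/-- sign -/
noncomputable def sg (s : Bool) : P3 V := bif s then 1 else -1

theorem sg_not (s : Bool) : (sg (!s) : P3 V) = - sg s := by
  cases s <;> simp [sg]

/-- value of a sparse polynomial -/
noncomputable def ev (y : ℕ → P3 V) : SP → P3 V
  | [] => 0
  | t :: l => sg t.2 * mn y t.1 + ev y l

theorem ev_nil (y : ℕ → P3 V) : ev y [] = 0 := rfl

theorem ev_cons (y : ℕ → P3 V) (t : ℕ × Bool) (l : SP) :
    ev y (t :: l) = sg t.2 * mn y t.1 + ev y l := rfl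

theorem ev_one (y : ℕ → P3 V) : ev y [(0, true)] = 1 := by
  rw [ev_cons, ev_nil]
  simp [sg, mn]

theorem ev_ng (y : ℕ → P3 V) (l : SP) : ev y (ng l) = - ev y l := by
  induction l with
  | nil => simp [ng, ev_nil]
  | cons t l ih =>
    rw [ng, ev_cons, ev_cons, ih, sg_not]
    ring

theorem ev_insK (y : ℕ → P3 V) (c : ℕ) (s : Bool) (k : SP → SP) (r : P3 V)
    (hk : ∀ q, ev y (k q) = r + ev y q) (q : SP) :
    ev y (insK c s k q) = sg s * mn y c + r + ev y q := by
  induction q with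
  | nil => rw [insK, ev_cons, hk, ev_nil, add_zero, add_zero]
  | cons t q ih =>
    rw [insK]
    cases h1 : Nat.beq c t.1
    · rw [cond_false]
      cases h2 : Nat.ble c t.1
      · rw [cond_false, ev_cons, ih, ev_cons]
        ring
      · rw [cond_true, ev_cons, hk]
        ring
    · have h1' := Nat.eq_of_beq_eq_true h1
      rw [cond_true]
      cases h2 : (s == t.2)
      · rw [cond_false, hk, ev_cons, ← h1']
        have h3 : t.2 = !s := by
          cases s <;> cases h4 : t.2 <;> simp_all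
        rw [h3, sg_not]
        ring
      · rw [cond_true, ev_cons, hk, ev_cons, ← h1', sg_not]
        have h3 : s = t.2 := by simpa using h2
        rw [← h3]
        linear_combination (-(sg s * mn y c)) * (KA_three (V := V))

theorem ev_mrg (y : ℕ → P3 V) (p : SP) : ∀ q, ev y (mrg p q) = ev y p + ev y q := by
  induction p with
  | nil =>
    intro q
    rw [mrg, ev_nil, zero_add]
  | cons t p ih =>
    intro q
    rw [mrg, ev_insK y t.1 t.2 (mrg p) (ev y p) ih q, ev_cons]

theorem mul1_spec (y : ℕ → P3 V) (i : ℕ) (hy : y i ^ 3 ∈ I3 V) (l : SP) :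
    ev y (mul1 (4 ^ i) l) - y i * ev y l ∈ I3 V := by
  induction l with
  | nil =>
    rw [mul1, ev_nil, mul_zero, sub_zero]
    exact Ideal.zero_mem _
  | cons t l ih =>
    rw [mul1]
    cases h1 : Nat.ble 2 (Nat.mod (Nat.div t.1 (4 ^ i)) 4)
    · rw [cond_false, ev_cons, ev_cons]
      have h2 : t.1 / 4 ^ i % 4 < 3 := by
        have h3 : ¬ 2 ≤ t.1 / 4 ^ i % 4 := by
          intro h3
          have := Nat.ble_eq_true_of_le h3
          rw [show Nat.ble 2 (t.1 / 4 ^ i % 4) = Nat.ble 2 (Nat.mod (Nat.div t.1 (4 ^ i)) 4) from rfl,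
            h1] at this
          exact Bool.false_ne_true this
        omega
      have h3 : mn y (Nat.add t.1 (4 ^ i)) = mn y t.1 * y i := mn_add y t.1 i h2
      have h4 : sg t.2 * mn y (Nat.add t.1 (4 ^ i)) + ev y (mul1 (4 ^ i) l) -
          y i * (sg t.2 * mn y t.1 + ev y l) = ev y (mul1 (4 ^ i) l) - y i * ev y l := by
        rw [h3]
        ring
      change sg t.2 * mn y (Nat.add t.1 (4 ^ i)) + ev y (mul1 (4 ^ i) l) -
          y i * (sg t.2 * mn y t.1 + ev y l) ∈ I3 V
      rw [h4]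
      exact ih
    · rw [cond_true, ev_cons]
      have h2 : 2 ≤ t.1 / 4 ^ i % 4 := Nat.le_of_ble_eq_true h1
      obtain ⟨e, he⟩ : ∃ e, t.1 / 4 ^ i % 4 = 2 + e := ⟨t.1 / 4 ^ i % 4 - 2, by omega⟩
      have h3 := (mn_sub y i _ t.1 he).2
      have h4 : ev y (mul1 (4 ^ i) l) - y i * (sg t.2 * mn y t.1 + ev y l) =
          (ev y (mul1 (4 ^ i) l) - y i * ev y l) -
            (sg t.2 * mn y (t.1 - (2 + e) * 4 ^ i) * y i ^ e) * y i ^ 3 := by
        rw [h3]
        ring
      rw [h4]
      exact Ideal.sub_mem _ ih (Ideal.mul_mem_left _ _ hy)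

theorem mulE_spec (y : ℕ → P3 V) (hy : ∀ i, y i ^ 3 ∈ I3 V) (a b : ℕ) (l : SP) :
    ev y (mulE a b l) - (y a - y b) * ev y l ∈ I3 V := by
  unfold mulE
  rw [ev_mrg, ev_ng]
  have h1 := mul1_spec y a (hy a) l
  have h2 := mul1_spec y b (hy b) l
  have h3 := Ideal.sub_mem _ h1 h2
  have h4 : ev y (mul1 (4 ^ a) l) - y a * ev y l - (ev y (mul1 (4 ^ b) l) - y b * ev y l) =
      ev y (mul1 (Nat.pow 4 a) l) + - ev y (mul1 (Nat.pow 4 b) l) - (y a - y b) * ev y l := by
    change ev y (mul1 (4 ^ a) l) - y a * ev y l - (ev y (mul1 (4 ^ b) l) - y b * ev y l) =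
      ev y (mul1 (4 ^ a) l) + - ev y (mul1 (4 ^ b) l) - (y a - y b) * ev y l
    ring
  rw [← h4]
  exact h3

theorem prodE_nil (y : ℕ → P3 V) : prodE y [] = 1 := by
  unfold prodE
  rw [List.map_nil, List.prod_nil]

theorem prodE_cons (y : ℕ → P3 V) (e : ℕ × ℕ) (E : List (ℕ × ℕ)) :
    prodE y (e :: E) = (y e.1 - y e.2) * prodE y E := by
  unfold prodE
  rw [List.map_cons, List.prod_cons]

theorem mulL_spec (y : ℕ → P3 V) (hy : ∀ i, y i ^ 3 ∈ I3 V) (E : List (ℕ × ℕ)) : ∀ l : SP,
    ev y (mulL E l) - prodE y E * ev y l ∈ I3 V := by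
  induction E with
  | nil =>
    intro l
    rw [mulL, prodE_nil, one_mul, sub_self]
    exact Ideal.zero_mem _
  | cons e E ih =>
    intro l
    rw [mulL, prodE_cons]
    have h1 := ih (mulE e.1 e.2 l)
    have h2 := Ideal.mul_mem_left _ (prodE y E) (mulE_spec y hy e.1 e.2 l)
    have h3 := Ideal.add_mem _ h1 h2
    have h4 : ev y (mulL E (mulE e.1 e.2 l)) - prodE y E * ev y (mulE e.1 e.2 l) +
        prodE y E * (ev y (mulE e.1 e.2 l) - (y e.1 - y e.2) * ev y l) =
        ev y (mulL E (mulE e.1 e.2 l)) - (y e.1 - y e.2) * prodE y E * ev y l := by ring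
    rw [← h4]
    exact h3

theorem mulM_spec (y : ℕ → P3 V) (hy : ∀ i, y i ^ 3 ∈ I3 V) (m : List ℕ) : ∀ l : SP,
    ev y (mulM m l) - (m.map y).prod * ev y l ∈ I3 V := by
  induction m with
  | nil =>
    intro l
    rw [mulM, List.map_nil, List.prod_nil, one_mul, sub_self]
    exact Ideal.zero_mem _
  | cons i m ih =>
    intro l
    rw [mulM, List.map_cons, List.prod_cons]
    have h1 := ih (mul1 (4 ^ i) l)
    have h2 := Ideal.mul_mem_left _ ((m.map y).prod) (mul1_spec y i (hy i) l)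
    have h3 := Ideal.add_mem _ h1 h2
    have h4 : ev y (mulM m (mul1 (4 ^ i) l)) - (m.map y).prod * ev y (mul1 (4 ^ i) l) +
        (m.map y).prod * (ev y (mul1 (4 ^ i) l) - y i * ev y l) =
        ev y (mulM m (mul1 (4 ^ i) l)) - y i * (m.map y).prod * ev y l := by ring
    change ev y (mulM m (mul1 (4 ^ i) l)) - y i * (m.map y).prod * ev y l ∈ I3 V
    rw [← h4]
    exact h3

/-- a multiple stays in the annihilator of `B` -/
theorem mulP_mem (y : ℕ → P3 V) (hy : ∀ i, y i ^ 3 ∈ I3 V) (B : P3 V) (l : SP)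
    (h : ev y l * B ∈ I3 V) (m : List (List ℕ × Bool)) : ev y (mulP m l) * B ∈ I3 V := by
  induction m with
  | nil =>
    rw [mulP, ev_nil, zero_mul]
    exact Ideal.zero_mem _
  | cons t m ih =>
    rw [mulP, ev_mrg, add_mul]
    refine Ideal.add_mem _ ?_ ih
    have h1 : ev y (mulM t.1 l) * B ∈ I3 V := by
      have h2 := Ideal.mul_mem_right B _ (mulM_spec y hy t.1 l)
      have h3 := Ideal.add_mem _ h2 (Ideal.mul_mem_left _ ((t.1.map y).prod) h)
      have h4 : (ev y (mulM t.1 l) - (t.1.map y).prod * ev y l) * B +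
          (t.1.map y).prod * (ev y l * B) = ev y (mulM t.1 l) * B := by ring
      rw [← h4]
      exact h3
    cases t.2
    · rw [cond_false, ev_ng, neg_mul]
      exact Submodule.neg_mem _ h1
    · rw [cond_true]
      exact h1

theorem ext_spec (y : ℕ → P3 V) (i : ℕ) (hy : y i ^ 3 ∈ I3 V) (l : SP) :
    ev y l - (ev y (ext (4 ^ i) 0 l) + ev y (ext (4 ^ i) 1 l) * y i +
      ev y (ext (4 ^ i) 2 l) * y i ^ 2) ∈ I3 V := by
  induction l with
  | nil =>
    simp only [ext, ev_nil]
    simp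
  | cons t l ih =>
    have key : ∀ e, ev y (ext (4 ^ i) e (t :: l)) =
        (if t.1 / 4 ^ i % 4 = e then sg t.2 * mn y (t.1 - e * 4 ^ i) else 0) +
          ev y (ext (4 ^ i) e l) := by
      intro e
      rw [ext]
      cases h1 : Nat.beq (Nat.mod (Nat.div t.1 (4 ^ i)) 4) e
      · rw [cond_false, if_neg, zero_add]
        intro h2
        rw [show Nat.mod (Nat.div t.1 (4 ^ i)) 4 = e from h2] at h1
        simp at h1
      · have h2 : t.1 / 4 ^ i % 4 = e := Nat.eq_of_beq_eq_true h1
        rw [cond_true, ev_cons, if_pos h2]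
        rfl
    rw [ev_cons, key 0, key 1, key 2]
    have h4 : t.1 / 4 ^ i % 4 < 4 := Nat.mod_lt _ (by norm_num)
    have h5 : t.1 / 4 ^ i % 4 = 0 ∨ t.1 / 4 ^ i % 4 = 1 ∨ t.1 / 4 ^ i % 4 = 2 ∨
        t.1 / 4 ^ i % 4 = 3 := by omega
    rcases h5 with h5 | h5 | h5 | h5
    · rw [if_pos h5, if_neg (by omega), if_neg (by omega), (mn_sub y i 0 t.1 h5).2]
      simp only [pow_zero, mul_one, zero_add, zero_mul, Nat.sub_zero]
      convert ih using 1
      ring
    · rw [if_neg (by omega), if_pos h5, if_neg (by omega), (mn_sub y i 1 t.1 h5).2]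
      simp only [pow_one, zero_add]
      convert ih using 1
      ring
    · rw [if_neg (by omega), if_neg (by omega), if_pos h5, (mn_sub y i 2 t.1 h5).2]
      simp only [zero_add]
      convert ih using 1
      ring
    · rw [if_neg (by omega), if_neg (by omega), if_neg (by omega), (mn_sub y i 3 t.1 h5).2]
      simp only [zero_add]
      have h6 := Ideal.add_mem _ ih (Ideal.mul_mem_left _ (sg t.2 * mn y (t.1 - 3 * 4 ^ i)) hy)
      convert h6 using 1
      ring

theorem ext_free (y : ℕ → P3 V) (i e : ℕ) (A : Subalgebra (ZMod 3) (P3 V))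
    (hA : ∀ j, j ≠ i → y j ∈ A) (l : SP) : ev y (ext (4 ^ i) e l) ∈ A := by
  induction l with
  | nil =>
    rw [ext, ev_nil]
    exact Subalgebra.zero_mem _
  | cons t l ih =>
    rw [ext]
    cases h1 : Nat.beq (Nat.mod (Nat.div t.1 (4 ^ i)) 4) e
    · rw [cond_false]
      exact ih
    · rw [cond_true, ev_cons]
      refine Subalgebra.add_mem _ (Subalgebra.mul_mem _ ?_ ?_) ih
      · unfold sg
        cases t.2
        · exact Subalgebra.neg_mem _ (Subalgebra.one_mem _)
        · exact Subalgebra.one_mem _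
      · exact mn_free y i _ (mn_sub y i e t.1 (Nat.eq_of_beq_eq_true h1)).1 A hA

theorem prodE_filter (y : ℕ → P3 V) (f : ℕ × ℕ → Bool) (E : List (ℕ × ℕ)) :
    prodE y E = prodE y (E.filter f) * prodE y (E.filter fun e => !f e) := by
  induction E with
  | nil => simp [prodE]
  | cons e E ih =>
    rw [prodE_cons, List.filter_cons, List.filter_cons, ih]
    cases h : f e
    · simp only [Bool.false_eq_true, if_false, Bool.not_false, if_true, prodE_cons]
      ring
    · simp only [if_true, Bool.not_true, Bool.false_eq_true, if_false, prodE_cons]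
      ring

theorem prodE_free (y : ℕ → P3 V) (i : ℕ) (A : Subalgebra (ZMod 3) (P3 V))
    (hA : ∀ j, j ≠ i → y j ∈ A) (E : List (ℕ × ℕ)) :
    prodE y (E.filter fun e => !inc i e) ∈ A := by
  induction E with
  | nil =>
    simp only [List.filter_nil, prodE_nil]
    exact Subalgebra.one_mem _
  | cons e E ih =>
    rw [List.filter_cons]
    cases h : inc i e
    · simp only [Bool.not_false, if_true, prodE_cons]
      unfold inc at h
      rw [Bool.or_eq_false_iff] at h
      refine Subalgebra.mul_mem _ (Subalgebra.sub_mem _ (hA _ ?_) (hA _ ?_)) ih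
      · intro h1
        rw [h1] at h
        simp at h
      · intro h1
        rw [h1] at h
        simp at h
    · simp only [Bool.not_true, Bool.false_eq_true, if_false]
      exact ih

/-- ELIMINATION -/
theorem elim_spec (y : ℕ → P3 V) (hy : ∀ i, y i ^ 3 ∈ I3 V) (φ : ℕ → V) (B : P3 V)
    (o : List (ℕ × ℕ)) : (∀ t ∈ o, t.2 ≤ 2 ∧ y t.1 = X (φ t.1) ∧
      (∀ j, j ≠ t.1 → y j ∈ supported (ZMod 3) (({φ t.1} : Set V)ᶜ)) ∧
      B ∈ supported (ZMod 3) (({φ t.1} : Set V)ᶜ)) →
    ∀ (E : List (ℕ × ℕ)) (p : SP), prodE y E * ev y p * B ∈ I3 V →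
      ev y (elim o E p) * B ∈ I3 V := by
  induction o with
  | nil =>
    intro _ E p h
    rw [elim]
    have h1 := Ideal.add_mem _ (Ideal.mul_mem_right B _ (mulL_spec y hy E p)) h
    convert h1 using 1
    ring
  | cons t o ih =>
    intro ho E p h
    rw [elim]
    obtain ⟨ht, hX, hA, hB⟩ := ho t List.mem_cons_self
    refine ih (fun u hu => ho u (List.mem_cons_of_mem _ hu)) _ _ ?_
    set p' := mulL (E.filter fun e => inc t.1 e) p with hp'
    set R := prodE y (E.filter fun e => !inc t.1 e) with hR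
    have hRA : R ∈ supported (ZMod 3) (({φ t.1} : Set V)ᶜ) := prodE_free y t.1 _ hA E
    have h1 : ev y p' * (R * B) ∈ I3 V := by
      have h2 := mulL_spec y hy (E.filter fun e => inc t.1 e) p
      rw [← hp'] at h2
      have h3 := Ideal.add_mem _ (Ideal.mul_mem_right (R * B) _ h2) h
      rw [prodE_filter y (fun e => inc t.1 e) E, ← hR] at h3
      convert h3 using 1
      ring
    have h2 := ext_spec y t.1 (hy t.1) p'
    have h3 := Ideal.sub_mem _ h1 (Ideal.mul_mem_right (R * B) _ h2)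
    have h4 : (ev y (ext (4 ^ t.1) 0 p') + ev y (ext (4 ^ t.1) 1 p') * X (φ t.1) +
        ev y (ext (4 ^ t.1) 2 p') * X (φ t.1) ^ 2) * (R * B) ∈ I3 V := by
      rw [← hX]
      convert h3 using 1
      ring
    have h5 := extract (φ t.1) (fun k => ev y (ext (4 ^ t.1) k p')) (R * B)
      (fun k => ext_free y t.1 k _ hA p') (Subalgebra.mul_mem _ hRA hB) h4 t.2 ht
    convert h5 using 1
    change R * ev y (ext (4 ^ t.1) t.2 p') * B = ev y (ext (4 ^ t.1) t.2 p') * (R * B)
    ring

theorem sumG_mem (y : ℕ → P3 V) (hy : ∀ i, y i ^ 3 ∈ I3 V) (B : P3 V) (ed : List (ℕ × ℕ))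
    (l : List (List (ℕ × ℕ) × List (List ℕ × Bool)))
    (h : ∀ g ∈ l, ev y (elim g.1 ed [(0, true)]) * B ∈ I3 V) : ev y (sumG ed l) * B ∈ I3 V := by
  induction l with
  | nil =>
    rw [sumG, ev_nil, zero_mul]
    exact Ideal.zero_mem _
  | cons g l ih =>
    rw [sumG, ev_mrg, add_mul]
    exact Ideal.add_mem _ (mulP_mem y hy B _ (h g List.mem_cons_self) _)
      (ih fun g' hg' => h g' (List.mem_cons_of_mem _ hg'))

theorem sumS_mem (y : ℕ → P3 V) (hy : ∀ i, y i ^ 3 ∈ I3 V) (B : P3 V)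
    (l : List ((ℕ × ℕ) × List (List ℕ × Bool)))
    (h : ∀ g ∈ l, (y g.1.1 - y g.1.2) ^ 2 * B ∈ I3 V) : ev y (sumS l) * B ∈ I3 V := by
  induction l with
  | nil =>
    rw [sumS, ev_nil, zero_mul]
    exact Ideal.zero_mem _
  | cons g l ih =>
    rw [sumS, ev_mrg, add_mul]
    refine Ideal.add_mem _ (mulP_mem y hy B _ ?_ _) (ih fun g' hg' => h g' (List.mem_cons_of_mem _ hg'))
    have h1 := mulE_spec y hy g.1.1 g.1.2 [(0, true)]
    have h2 := mulE_spec y hy g.1.1 g.1.2 (mulE g.1.1 g.1.2 [(0, true)])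
    rw [ev_one, mul_one] at h1
    have h3 := Ideal.mul_mem_left _ (y g.1.1 - y g.1.2) h1
    have h4 := Ideal.add_mem _ (Ideal.mul_mem_right B _ (Ideal.add_mem _ h2 h3))
      (h g List.mem_cons_self)
    convert h4 using 1
    ring

/-- SOUNDNESS of the certificates -/
theorem acheck_sound (N nD : ℕ) (ed tt mg nw : List (ℕ × ℕ)) (c : ACert)
    (hc : acheck N nD ed tt mg nw c = true) (φ : ℕ → V) (y : ℕ → P3 V) (B : P3 V)
    (hy : ∀ i, y i ^ 3 ∈ I3 V) (hX : ∀ i < nD, y i = X (φ i))
    (hA : ∀ i < nD, ∀ j, j ≠ i → y j ∈ supported (ZMod 3) (({φ i} : Set V)ᶜ))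
    (hB : ∀ i < nD, B ∈ supported (ZMod 3) (({φ i} : Set V)ᶜ))
    (ht : ∀ e ∈ tt, (y e.1 - y e.2) ^ 2 * B ∈ I3 V)
    (h : prodE y ed * B ∈ I3 V) : prodE y mg ^ 2 * prodE y nw * B ∈ I3 V := by
  unfold acheck at hc
  rw [Bool.and_eq_true, Bool.and_eq_true, Bool.and_eq_true] at hc
  obtain ⟨⟨⟨_, hg⟩, hs⟩, he⟩ := hc
  rw [List.isEmpty_iff] at he
  rw [List.all_eq_true] at hg hs
  have h0 := congrArg (ev y) he
  rw [ev_mrg, ev_ng, ev_mrg, ev_nil] at h0
  have hG : ev y (sumG ed c.gens) * B ∈ I3 V := by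
    refine sumG_mem y hy B ed c.gens fun g hgm => ?_
    refine elim_spec y hy φ B g.1 (fun t htm => ?_) ed _ (by rwa [ev_one, mul_one])
    have h1 := hg g hgm
    rw [List.all_eq_true] at h1
    have h2 := h1 t htm
    rw [Bool.and_eq_true] at h2
    have h3 : t.1 < nD := Nat.le_of_ble_eq_true h2.1
    exact ⟨Nat.le_of_ble_eq_true h2.2, hX _ h3, hA _ h3, hB _ h3⟩
  have hS : ev y (sumS c.sqs) * B ∈ I3 V := by
    refine sumS_mem y hy B c.sqs fun g hgm => ?_
    have h1 := hs g hgm
    rw [List.any_eq_true] at h1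
    obtain ⟨e, hem, h2⟩ := h1
    rw [Bool.and_eq_true] at h2
    have h3 := ht e hem
    rw [Nat.eq_of_beq_eq_true h2.1, Nat.eq_of_beq_eq_true h2.2] at h3
    exact h3
  have hT : ev y (mulL nw (mulL mg (mulL mg [(0, true)]))) * B ∈ I3 V := by
    have h1 := Ideal.add_mem _ hG hS
    convert h1 using 1
    linear_combination B * h0
  have m1 := mulL_spec y hy mg [(0, true)]
  rw [ev_one, mul_one] at m1
  have m2 := mulL_spec y hy mg (mulL mg [(0, true)])
  have m3 := mulL_spec y hy nw (mulL mg (mulL mg [(0, true)]))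
  have m4 := Ideal.add_mem _ m3 (Ideal.mul_mem_left _ (prodE y nw) m2)
  have m5 := Ideal.add_mem _ m4 (Ideal.mul_mem_left _ (prodE y nw * prodE y mg) m1)
  have m6 := Ideal.sub_mem _ hT (Ideal.mul_mem_right B _ m5)
  convert m6 using 1
  ring

end

end Pool.Agent.W_fb73a4_h57
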